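import Pool.Agent.QC.Elim.Fold
import Pool.Agent.QC.Root

/-!
# The list of candidates

`rr` is a polynomial `r(p; mu, T)`, where `mu` has one variable for each coordinate of a point `u`.
If `T = mu . u` is a root of `r(p; mu, T)` for all `mu` and `r(p; ., .)` is not the zero polynomial,
then for some `(mu, k)` of a finite list of integer vectors (independent of `p` and `u`) the
coordinates of `u` are rational functions of `T = mu . u`.
-/

namespace Pool.Agent.QC.Elim

open MvPolynomial

variable {σ κ : Type*}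

/-- `r(mu, T)` for an integer vector `mu`. -/
noncomputable def atMu (rr : Polynomial (MvPolynomial κ (MvPolynomial σ ℤ))) (mu : κ → ℤ) :
    Polynomial (MvPolynomial σ ℤ) :=
  rr.map (eval fun k => (mu k : MvPolynomial σ ℤ))

/-- `r(p; mu, T)` for a real point `p`. -/
noncomputable def atP (rr : Polynomial (MvPolynomial κ (MvPolynomial σ ℤ))) (p : σ → ℝ) :
    Polynomial (MvPolynomial κ ℝ) :=
  rr.map (map (evHom p))

/-- The linear form `mu . u`. -/
noncomputable def lin [Fintype κ] (u : κ → ℝ) : MvPolynomial κ ℝ := ∑ k, C (u k) * X k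

/-- The denominator of the coordinates. -/
noncomputable def denG (rr : Polynomial (MvPolynomial κ (MvPolynomial σ ℤ))) (L : ℤ)
    (mu : κ → ℤ) (k : ℕ) : Polynomial (MvPolynomial σ ℤ) :=
  Polynomial.C (C L) * Polynomial.derivative^[k] (atMu rr mu)

/-- The numerators of the coordinates. -/
noncomputable def numN [DecidableEq κ] (rr : Polynomial (MvPolynomial κ (MvPolynomial σ ℤ)))
    (M : ℕ) (c : ℕ → ℤ) (mu : κ → ℤ) (k : ℕ) (j : κ) : Polynomial (MvPolynomial σ ℤ) :=
  -∑ h ∈ Finset.range (M + 1), Polynomial.C (C (c h)) *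
    Polynomial.derivative^[k - 1] (atMu rr (mu + Pi.single j (h : ℤ)))

lemma spec_atMu (rr : Polynomial (MvPolynomial κ (MvPolynomial σ ℤ))) (mu : κ → ℤ) (p : σ → ℝ) :
    spec (atMu rr mu) p = (atP rr p).map (eval fun k => (mu k : ℝ)) := by
  rw [spec, atMu, atP, Polynomial.map_map, Polynomial.map_map]
  congr 1
  refine ringHom_ext (fun a => ?_) (fun k => ?_)
  · simp
  · simp

lemma eval_lin [Fintype κ] (u x : κ → ℝ) : eval x (lin u) = ∑ k, x k * u k := by
  simp [lin, mul_comm]

lemma totalDegree_map_le' {R S : Type*} [CommSemiring R] [CommSemiring S] (f : R →+* S)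
    (p : MvPolynomial κ R) : (map f p).totalDegree ≤ p.totalDegree := by
  rw [totalDegree, totalDegree]
  exact Finset.sup_mono (support_map_subset _ _)

/-- The formula for the coordinates. -/
theorem coord [Fintype κ] [DecidableEq κ] {M : ℕ} {L : ℤ} {c : ℕ → ℤ}
    (hLc : ∀ b : Polynomial ℝ, b.natDegree ≤ M →
      (L : ℝ) * (Polynomial.derivative b).eval 0 =
        ∑ h ∈ Finset.range (M + 1), (c h : ℝ) * b.eval (h : ℝ))
    (rr : Polynomial (MvPolynomial κ (MvPolynomial σ ℤ)))
    (hM : ∀ i, (rr.coeff i).totalDegree ≤ M) (p : σ → ℝ) (u : κ → ℝ) (k : ℕ) (hk : 1 ≤ k)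
    (hroot : (Polynomial.derivative^[k - 1] (atP rr p)).eval (lin u) = 0) (mu : κ → ℤ) (j : κ) :
    (spec (numN rr M c mu k j) p).eval (∑ i, (mu i : ℝ) * u i) =
      u j * (spec (denG rr L mu k) p).eval (∑ i, (mu i : ℝ) * u i) := by
  -- the line through `mu` in the direction `e_j`
  let g : κ → Polynomial ℝ := fun i =>
    Polynomial.C (mu i : ℝ) + Polynomial.C ((Pi.single j 1 : κ → ℝ) i) * Polynomial.X
  have hg : ∀ i, (g i).natDegree ≤ 1 := by
    intro i
    refine (Polynomial.natDegree_add_le _ _).trans (max_le (by simp) ?_)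
    exact (Polynomial.natDegree_C_mul_le _ _).trans Polynomial.natDegree_X_le
  let ψ : MvPolynomial κ ℝ →+* Polynomial ℝ := (aeval g).toRingHom
  have hψ : ∀ f, ψ f = aeval g f := fun f => rfl
  set φ : Polynomial (Polynomial ℝ) := (Polynomial.derivative^[k - 1] (atP rr p)).map ψ with hφ
  have hdeg : ∀ i, (φ.coeff i).natDegree ≤ M := by
    intro i
    rw [hφ, Polynomial.coeff_map, hψ]
    refine (aeval_natDegree_le _ (m := M) ?_ g (n := 1) hg).trans (by simp)
    rw [Polynomial.coeff_iterate_derivative]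
    refine (totalDegree_smul_le _ _).trans ?_
    rw [atP, Polynomial.coeff_map]
    exact (totalDegree_map_le' _ _).trans (hM _)
  have hmapeval : ∀ (h : ℝ), (Polynomial.evalRingHom h).comp ψ =
      (eval fun i => (mu i : ℝ) + (Pi.single j h : κ → ℝ) i : MvPolynomial κ ℝ →+* ℝ) := by
    intro h
    refine ringHom_ext (fun a => ?_) (fun i => ?_)
    · rw [RingHom.comp_apply, hψ, aeval_C, eval_C]
      simp
    · rw [RingHom.comp_apply, hψ, aeval_X, eval_X]
      simp only [g, Polynomial.coe_evalRingHom, Polynomial.eval_add, Polynomial.eval_C,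
        Polynomial.eval_mul, Polynomial.eval_X]
      congr 1
      rcases eq_or_ne i j with rfl | hij
      · simp
      · simp [Pi.single_eq_of_ne hij]
  have hspec : ∀ h : ℕ, (φ.map (Polynomial.evalRingHom (h : ℝ))) =
      Polynomial.derivative^[k - 1] (spec (atMu rr (mu + Pi.single j (h : ℤ))) p) := by
    intro h
    have h5 : (fun i => (mu i : ℝ) + (Pi.single j (h : ℝ) : κ → ℝ) i) =
        fun i => (((mu + Pi.single j (h : ℤ) : κ → ℤ) i : ℤ) : ℝ) := by
      funext i
      rcases eq_or_ne i j with rfl | hij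
      · simp
      · simp [Pi.single_eq_of_ne hij]
    rw [hφ, Polynomial.map_map, hmapeval, ← Polynomial.iterate_derivative_map, spec_atMu, h5]
  have ht0 : (ψ (lin u)).eval 0 = ∑ i, (mu i : ℝ) * u i := by
    have h1 := congrArg (fun f : MvPolynomial κ ℝ →+* ℝ => f (lin u)) (hmapeval 0)
    simp only [RingHom.comp_apply, Polynomial.coe_evalRingHom] at h1
    rw [h1, eval_lin]
    simp
  have hdt : (Polynomial.derivative (ψ (lin u))).eval 0 = u j := by
    rw [hψ, lin, map_sum, Polynomial.derivative_sum, Polynomial.eval_finsetSum]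
    rw [Finset.sum_eq_single j]
    · simp [g]
    · intro i _ hij
      simp [g, Pi.single_eq_of_ne hij]
    · intro h
      exact absurd (Finset.mem_univ j) h
  have h0 : φ.eval (ψ (lin u)) = 0 := by
    rw [hφ, Polynomial.eval_map, Polynomial.eval₂_at_apply, hroot, map_zero]
  have h1 := chain hLc φ hdeg (ψ (lin u))
  rw [h0, Polynomial.derivative_zero, Polynomial.eval_zero, mul_zero, ht0, hdt] at h1
  have h2 : (Polynomial.derivative φ).map (Polynomial.evalRingHom (0 : ℝ)) =
      Polynomial.derivative^[k] (spec (atMu rr mu) p) := by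
    have h3 := hspec 0
    rw [Nat.cast_zero, Nat.cast_zero, Pi.single_zero, add_zero] at h3
    rw [← Polynomial.derivative_map, h3, ← Function.iterate_succ_apply' Polynomial.derivative]
    congr 2
    omega
  rw [h2] at h1
  have h3 : (spec (numN rr M c mu k j) p).eval (∑ i, (mu i : ℝ) * u i) =
      -∑ h ∈ Finset.range (M + 1), (c h : ℝ) *
        (φ.map (Polynomial.evalRingHom (h : ℝ))).eval (∑ i, (mu i : ℝ) * u i) := by
    rw [numN, spec, Polynomial.map_neg, Polynomial.map_sum, Polynomial.eval_neg,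
      Polynomial.eval_finsetSum]
    congr 1
    refine Finset.sum_congr rfl fun h _ => ?_
    rw [hspec, Polynomial.map_mul, Polynomial.eval_mul, ← Polynomial.iterate_derivative_map]
    simp [spec]
  have h4 : (spec (denG rr L mu k) p).eval (∑ i, (mu i : ℝ) * u i) =
      (L : ℝ) * (Polynomial.derivative^[k] (spec (atMu rr mu) p)).eval
        (∑ i, (mu i : ℝ) * u i) := by
    rw [denG, spec, Polynomial.map_mul, Polynomial.eval_mul, ← Polynomial.iterate_derivative_map]
    simp [spec]
  rw [h3, h4]
  linarith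

/-- All points are among finitely many candidates. -/
theorem candidates [Fintype σ] [Fintype κ] [DecidableEq κ]
    (rr : Polynomial (MvPolynomial κ (MvPolynomial σ ℤ))) {d : ℕ} (hd : rr.natDegree ≤ d) :
    ∃ H : Finset ((κ → ℤ) × ℕ),
      H.card ≤ d * (Fintype.card σ + Fintype.card κ + 1) ∧
      (∀ I ∈ H, 1 ≤ I.2 ∧ I.2 ≤ d) ∧
      ∀ (p : σ → ℝ) (u : κ → ℝ), atP rr p ≠ 0 → (atP rr p).eval (lin u) = 0 →
        ∃ I ∈ H, (Polynomial.derivative^[I.2 - 1] (atP rr p)).eval (lin u) = 0 ∧
          (spec (atMu rr I.1) p).eval (∑ i, (I.1 i : ℝ) * u i) = 0 ∧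
          (Polynomial.derivative^[I.2] (spec (atMu rr I.1) p)).eval
            (∑ i, (I.1 i : ℝ) * u i) ≠ 0 := by
  classical
  -- the universal point
  let ι := σ ⊕ κ
  let Φ : MvPolynomial κ (MvPolynomial σ ℤ) →+* MvPolynomial κ (MvPolynomial ι ℝ) :=
    map (eval₂Hom (Int.castRingHom (MvPolynomial ι ℝ)) (fun i => X (Sum.inl i)))
  let t : MvPolynomial κ (MvPolynomial ι ℝ) := ∑ k, C (X (Sum.inr k)) * X k
  let hk : ℕ → MvPolynomial κ (MvPolynomial ι ℝ) := fun k =>
    (Polynomial.derivative^[k] (rr.map Φ)).eval t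
  choose Hk hHk1 hHk2 using fun k => hitting (hk k)
  have h1 : ∀ (p : σ → ℝ) (u : κ → ℝ) (k : ℕ), map (eval (Sum.elim p u)) (hk k) =
      (Polynomial.derivative^[k] (atP rr p)).eval (lin u) := by
    intro p u k
    have e1 : (map (eval (Sum.elim p u)) : MvPolynomial κ (MvPolynomial ι ℝ) →+* _).comp Φ =
        map (evHom p) := by
      refine ringHom_ext (fun a => ?_) (fun i => ?_)
      · simp only [Φ, RingHom.comp_apply, map_C]
        congr 1
        have : (eval (Sum.elim p u)).comp (eval₂Hom (Int.castRingHom (MvPolynomial ι ℝ))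
            (fun i => X (Sum.inl i))) = evHom p := by
          refine ringHom_ext (fun a => ?_) (fun i => ?_)
          · simp
          · simp
        exact congrArg (fun f : MvPolynomial σ ℤ →+* ℝ => f a) this
      · simp [Φ]
    have e2 : map (eval (Sum.elim p u)) t = lin u := by
      simp [t, lin, map_sum]
    rw [show hk k = (Polynomial.derivative^[k] (rr.map Φ)).eval t from rfl,
      ← Polynomial.eval₂_at_apply, ← Polynomial.eval_map, e2, ← Polynomial.iterate_derivative_map,
      Polynomial.map_map, e1]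
    rfl
  have h2 : ∀ (p : σ → ℝ) (u : κ → ℝ) (k : ℕ) (mu : κ → ℤ),
      eval (Sum.elim p u) (eval (fun i => (mu i : MvPolynomial ι ℝ)) (hk k)) =
      (Polynomial.derivative^[k] (spec (atMu rr mu) p)).eval (∑ i, (mu i : ℝ) * u i) := by
    intro p u k mu
    have e1 : ((eval (Sum.elim p u)).comp (eval (fun i => (mu i : MvPolynomial ι ℝ)))).comp Φ =
        (evHom p).comp (eval (fun i => (mu i : MvPolynomial σ ℤ))) := by
      refine ringHom_ext (fun a => ?_) (fun i => ?_)
      · simp only [Φ, RingHom.comp_apply, map_C, eval_C]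
        have : (eval (Sum.elim p u)).comp (eval₂Hom (Int.castRingHom (MvPolynomial ι ℝ))
            (fun i => X (Sum.inl i))) = evHom p := by
          refine ringHom_ext (fun a => ?_) (fun i => ?_)
          · simp
          · simp
        exact congrArg (fun f : MvPolynomial σ ℤ →+* ℝ => f a) this
      · simp [Φ]
    have e2 : ((eval (Sum.elim p u)).comp (eval (fun i => (mu i : MvPolynomial ι ℝ)))) t =
        ∑ i, (mu i : ℝ) * u i := by
      simp [t, map_sum, mul_comm]
    have e3 : eval (Sum.elim p u) (eval (fun i => (mu i : MvPolynomial ι ℝ)) (hk k)) =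
        ((eval (Sum.elim p u)).comp (eval (fun i => (mu i : MvPolynomial ι ℝ)))) (hk k) := rfl
    rw [e3, show hk k = (Polynomial.derivative^[k] (rr.map Φ)).eval t from rfl,
      ← Polynomial.eval₂_at_apply, ← Polynomial.eval_map, e2, ← Polynomial.iterate_derivative_map,
      Polynomial.map_map, e1, spec, atMu, Polynomial.map_map]
  refine ⟨(Finset.Icc 1 d).biUnion fun k => (Hk k).image fun mu => (mu, k), ?_, ?_, ?_⟩
  · refine (Finset.card_biUnion_le_card_mul _ _ (Fintype.card σ + Fintype.card κ + 1)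
      fun k _ => ?_).trans (by simp)
    refine Finset.card_image_le.trans ((hHk1 k).trans ?_)
    simp [ι]
  · intro I hI
    rw [Finset.mem_biUnion] at hI
    obtain ⟨k, hk1, hk2⟩ := hI
    obtain ⟨mu, -, rfl⟩ := Finset.mem_image.1 hk2
    exact Finset.mem_Icc.1 hk1
  · intro p u hne hroot
    set k := (atP rr p).rootMultiplicity (lin u) with hkdef
    have hk1 : 1 ≤ k := (Polynomial.rootMultiplicity_pos hne).2 hroot
    have hkd : k ≤ d := by
      rw [hkdef, ← Polynomial.count_roots]
      refine (Multiset.count_le_card _ _).trans ((Polynomial.card_roots' _).trans ?_)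
      exact Polynomial.natDegree_map_le.trans hd
    have hder : (Polynomial.derivative^[k] (atP rr p)).eval (lin u) ≠ 0 := by
      rw [hkdef, Polynomial.eval_iterate_derivative_rootMultiplicity, nsmul_eq_mul]
      refine mul_ne_zero (by exact_mod_cast Nat.factorial_ne_zero _) ?_
      exact Polynomial.eval_divByMonic_pow_rootMultiplicity_ne_zero _ hne
    have hex : ∃ mu ∈ Hk k, eval (Sum.elim p u)
        (eval (fun i => (mu i : MvPolynomial ι ℝ)) (hk k)) ≠ 0 := by
      by_contra hcon
      push Not at hcon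
      have := hHk2 k (Sum.elim p u) hcon
      rw [h1] at this
      exact hder this
    obtain ⟨mu, hmu, hmu2⟩ := hex
    refine ⟨(mu, k), ?_, ?_, ?_, ?_⟩
    · rw [Finset.mem_biUnion]
      exact ⟨k, Finset.mem_Icc.2 ⟨hk1, hkd⟩, Finset.mem_image.2 ⟨mu, hmu, rfl⟩⟩
    · exact Polynomial.isRoot_iterate_derivative_of_lt_rootMultiplicity (by
        rw [← hkdef]; simp only; omega)
    · have h5 := congrArg (eval fun i => (mu i : ℝ)) hroot
      rw [map_zero, ← Polynomial.eval₂_at_apply, ← Polynomial.eval_map, eval_lin,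
        ← spec_atMu] at h5
      exact h5
    · rw [← h2]
      exact hmu2

end Pool.Agent.QC.Elim
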