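import Pool.Agent.QC.Elim.Res

/-!
# Degrees and cost of the resolvent polynomials
-/

namespace Pool.Agent.QC.Elim

open MvPolynomial Filter Topology

section Degree

/-- Degrees in `mu` of the coefficients of a characteristic polynomial. -/
theorem totalDegree_charpoly_coeff_coeff {κ R ι : Type*} [CommRing R] [Fintype ι] [DecidableEq ι]
    (W : Matrix ι ι (Polynomial (MvPolynomial κ R)))
    (hW : ∀ a b j, ((W a b).coeff j).totalDegree ≤ 1) (i j : ℕ) :
    ((W.charpoly.coeff i).coeff j).totalDegree ≤ Fintype.card ι := by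
  classical
  have key : ∀ (s : Finset ι) (f : ι → Polynomial (Polynomial (MvPolynomial κ R))),
      (∀ a ∈ s, ∀ i j, (((f a).coeff i).coeff j).totalDegree ≤ 1) →
      ∀ i j, (((∏ a ∈ s, f a).coeff i).coeff j).totalDegree ≤ s.card := by
    intro s f
    induction s using Finset.induction_on with
    | empty =>
      intro _ i j
      rw [Finset.prod_empty, Polynomial.coeff_one]
      split_ifs
      · rw [Polynomial.coeff_one]
        split_ifs <;> simp
      · simp
    | @insert a s ha ih =>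
      intro hf i j
      rw [Finset.prod_insert ha, Finset.card_insert_of_notMem ha, Polynomial.coeff_mul,
        Polynomial.finsetSum_coeff]
      refine totalDegree_finsetSum_le fun x _ => ?_
      rw [Polynomial.coeff_mul]
      refine totalDegree_finsetSum_le fun y _ => (totalDegree_mul _ _).trans ?_
      have h1 := hf a (Finset.mem_insert_self _ _) x.1 y.1
      have h2 := ih (fun i hi => hf i (Finset.mem_insert_of_mem hi)) x.2 y.2
      omega
  rw [Matrix.charpoly, Matrix.det_apply, Polynomial.finsetSum_coeff, Polynomial.finsetSum_coeff]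
  refine totalDegree_finsetSum_le fun τ _ => ?_
  rw [Polynomial.coeff_smul, Polynomial.coeff_smul]
  refine (totalDegree_smul_le _ _).trans ?_
  have := key Finset.univ (fun a => W.charmatrix (τ a) a) (fun a _ i j => ?_) i j
  · simpa using this
  · rw [Matrix.charmatrix_apply, Polynomial.coeff_sub, Matrix.diagonal_apply,
      Polynomial.coeff_sub]
    refine (totalDegree_sub _ _).trans (max_le ?_ ?_)
    · split_ifs
      · rw [Polynomial.coeff_X]
        split_ifs
        · rw [Polynomial.coeff_one]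
          split_ifs <;> simp
        · simp
      · simp
    · rw [Polynomial.coeff_C]
      split_ifs
      · exact hW _ _ _
      · simp

variable {σ κ : Type*} [Fintype κ] [DecidableEq κ]

/-- Degrees in `mu` of the coefficients of `rr`. -/
theorem Sq.totalDegree_rr (S : Sq σ κ) (i : ℕ) : (S.rr.coeff i).totalDegree ≤ S.size := by
  rw [Sq.rr, Polynomial.leadingCoeff, Sq.uni, pchi_coeff]
  refine totalDegree_charpoly_coeff_coeff _ (fun a b j => ?_) _ _
  rw [sMat, Matrix.add_apply, Matrix.smul_apply, Matrix.map_apply, Matrix.map_apply,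
    Polynomial.coeff_add, smul_eq_mul]
  have hA : ∀ a b, ((S.penA X) a b : MvPolynomial κ (MvPolynomial σ ℤ)).totalDegree ≤ 1 := by
    intro a b
    rw [Sq.penA, Matrix.sum_apply]
    refine totalDegree_finsetSum_le fun k _ => ?_
    rw [Matrix.smul_apply, smul_eq_mul, matA]
    refine (totalDegree_mul _ _).trans ?_
    have : ((if ∑ i, a.ex i < Dt S.N ∧ b.ex = upk a.ex k then 1 else 0 :
        MvPolynomial κ (MvPolynomial σ ℤ))).totalDegree = 0 := by split_ifs <;> simp
    rw [this, totalDegree_X]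
  have hB : ∀ a b, ((S.penB C X) a b : MvPolynomial κ (MvPolynomial σ ℤ)).totalDegree ≤ 1 := by
    intro a b
    rw [Sq.penB, Matrix.sum_apply]
    refine totalDegree_finsetSum_le fun k _ => ?_
    rw [Matrix.smul_apply, smul_eq_mul, Matrix.map_apply]
    refine (totalDegree_mul _ _).trans ?_
    rw [totalDegree_X, totalDegree_C]
  refine (totalDegree_add _ _).trans (max_le ?_ ?_)
  · rw [Polynomial.coeff_C]
    split_ifs
    · exact hA _ _
    · simp
  · rcases j with _ | j
    · simp
    · rw [Polynomial.coeff_X_mul, Polynomial.coeff_C]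
      split_ifs
      · exact hB _ _
      · simp

theorem Sq.atMu_rr (S : Sq σ κ) (mu : κ → ℤ) :
    atMu S.rr mu = (pchi (S.penA (fun k => (mu k : MvPolynomial σ ℤ)))
      (S.penB (RingHom.id _) (fun k => (mu k : MvPolynomial σ ℤ)))).coeff S.uni.natDegree := by
  have h1 : S.rr = S.uni.coeff S.uni.natDegree := rfl
  have h2 : (S.uni.map (Polynomial.mapRingHom (eval fun k => (mu k : MvPolynomial σ ℤ)))) =
      pchi (S.penA (fun k => (mu k : MvPolynomial σ ℤ)))
      (S.penB (RingHom.id _) (fun k => (mu k : MvPolynomial σ ℤ))) := by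
    rw [Sq.uni, pchi_map, S.penA_map, S.penB_map]
    have h3 : (eval fun k => (mu k : MvPolynomial σ ℤ)).comp C =
        RingHom.id (MvPolynomial σ ℤ) := by
      ext <;> simp
    rw [h3]
    simp
  rw [atMu, h1, ← h2, Polynomial.coeff_map]
  rfl

end Degree

section Cost

variable {σ : Type*}

/-- `zpoly` as a ring homomorphism. -/
noncomputable def zHom (σ : Type*) : MvPolynomial (Option σ) ℤ →+*
    Polynomial (MvPolynomial σ ℤ) :=
  (optionEquivLeft ℤ σ).toRingEquiv

lemma zHom_apply (g : MvPolynomial (Option σ) ℤ) : zHom σ g = zpoly g := rfl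

variable {ι : Type*} [Fintype ι] [DecidableEq ι]

/-- The matrix `A + s B` over `MvPolynomial (Option σ) ℤ`. -/
noncomputable def oMat (A B : Matrix ι ι (MvPolynomial σ ℤ)) :
    Matrix ι ι (MvPolynomial (Option σ) ℤ) :=
  A.map (rename some) + (X none : MvPolynomial (Option σ) ℤ) • B.map (rename some)

theorem oMat_map (A B : Matrix ι ι (MvPolynomial σ ℤ)) :
    (oMat A B).map (zHom σ) = sMat A B := by
  ext1 i j
  rw [Matrix.map_apply, oMat, sMat, Matrix.add_apply, Matrix.add_apply, Matrix.smul_apply,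
    Matrix.smul_apply, Matrix.map_apply, Matrix.map_apply, Matrix.map_apply, Matrix.map_apply,
    map_add, smul_eq_mul, map_mul, smul_eq_mul, zHom_apply, zHom_apply, zHom_apply, zpoly_rename,
    zpoly_rename, zpoly_none]

theorem pchi_coeff_zc (A B : Matrix ι ι (MvPolynomial σ ℤ)) (i j : ℕ) :
    ((pchi A B).coeff j).coeff i = zc ((oMat A B).charpoly.coeff i) j := by
  rw [pchi_coeff, ← oMat_map, Matrix.charpoly_map, Polynomial.coeff_map]
  rfl

lemma zc_rename (a : MvPolynomial σ ℤ) (i : ℕ) : zc (rename some a) i = if i = 0 then a else 0 := by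
  rw [zc, zpoly_rename, Polynomial.coeff_C]

lemma zc_X_none (i : ℕ) : zc (X none : MvPolynomial (Option σ) ℤ) i = if i = 1 then 1 else 0 := by
  rw [zc, zpoly_none, Polynomial.coeff_X]
  simp [eq_comm]

/-- Cost of the coefficient of `s ^ J` of `det (Z - A - s B)`. -/
theorem calc_pchi {M m : ℕ} {K : Set (MvPolynomial σ ℤ)}
    {A B : Matrix ι ι (MvPolynomial σ ℤ)} (hA : ∀ i j, A i j ∈ K) (hB : ∀ i j, B i j ∈ K)
    (hdA : ∀ i j, (A i j).totalDegree ≤ m) (hdB : ∀ i j, (B i j).totalDegree ≤ m)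
    (hM : (Fintype.card ι + 1) * (m + 1) ≤ M) (J : ℕ) :
    Calc M (4 * (Fintype.card ι + 1) ^ 4 * (3 * (M + 1) ^ 2)) K
      (Set.range ((pchi A B).coeff J).coeff) := by
  classical
  set n := Fintype.card ι with hn
  let K₀ : Set (MvPolynomial σ ℤ) := {q | ∃ i j, q = A i j ∨ q = B i j}
  let K' : Set (MvPolynomial (Option σ) ℤ) := insert (X none) ((rename some) '' K₀)
  have hm1M : m + 1 ≤ M := by nlinarith
  have hrd : ∀ q : MvPolynomial σ ℤ, (rename (some : σ → Option σ) q).totalDegree ≤
      q.totalDegree := fun q => totalDegree_rename_le _ _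
  have hK₀d : ∀ q ∈ K₀, q.totalDegree ≤ m := by
    rintro q ⟨i, j, rfl | rfl⟩
    · exact hdA i j
    · exact hdB i j
  have hXd : (X none : MvPolynomial (Option σ) ℤ).totalDegree ≤ 1 := by
    rw [totalDegree_X]
  -- the matrix entries
  have hdW : ∀ i j, (oMat A B i j).totalDegree ≤ m + 1 := by
    intro i j
    rw [oMat, Matrix.add_apply, Matrix.smul_apply, smul_eq_mul, Matrix.map_apply,
      Matrix.map_apply]
    refine (totalDegree_add _ _).trans (max_le ?_ ((totalDegree_mul _ _).trans ?_))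
    · exact (hrd _).trans ((hdA i j).trans (by omega))
    · have := (hrd (B i j)).trans (hdB i j)
      omega
  have h1 : ∀ x : ι × ι, Calc M 2 K' {oMat A B x.1 x.2} := by
    intro x
    have hB' : rename some (B x.1 x.2) ∈ K' := Or.inr ⟨_, ⟨x.1, x.2, Or.inr rfl⟩, rfl⟩
    have hA' : rename some (A x.1 x.2) ∈ K' := Or.inr ⟨_, ⟨x.1, x.2, Or.inl rfl⟩, rfl⟩
    have h2 : Calc M 1 K' {X none * rename some (B x.1 x.2)} := by
      refine Calc.mul (Or.inl rfl) hB' ((totalDegree_mul _ _).trans ?_)
      have := (hrd (B x.1 x.2)).trans (hdB x.1 x.2)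
      omega
    have h3 : Calc M 1 (K' ∪ {X none * rename some (B x.1 x.2)})
        {rename some (A x.1 x.2) + X none * rename some (B x.1 x.2)} := by
      refine Calc.add (Or.inl hA') (Or.inr rfl) ?_
      have h4 := hdW x.1 x.2
      rw [oMat, Matrix.add_apply, Matrix.smul_apply, smul_eq_mul, Matrix.map_apply,
        Matrix.map_apply] at h4
      omega
    have h4 := h2.trans' h3
    rw [oMat, Matrix.add_apply, Matrix.smul_apply, smul_eq_mul, Matrix.map_apply,
      Matrix.map_apply]
    exact h4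
  have h2 := Calc.range h1
  have h3 : Calc M (2 * (n + 1) ^ 4) (K' ∪ Set.range fun x : ι × ι => oMat A B x.1 x.2)
      {q | ∃ i, q = (oMat A B).charpoly.coeff i} :=
    Calc.charpoly (fun i j => Or.inr ⟨(i, j), rfl⟩) hdW
      ((Nat.mul_le_mul_right _ (by omega)).trans hM)
  have h4 := h2.trans' h3
  have hcost : Fintype.card (ι × ι) * 2 + 2 * (n + 1) ^ 4 ≤ 4 * (n + 1) ^ 4 := by
    rw [Fintype.card_prod, ← hn]
    have : n * n ≤ (n + 1) ^ 4 := by
      have h5 : (n + 1) ^ 4 = (n + 1) ^ 2 * (n + 1) ^ 2 := by ring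
      have h6 : 1 ≤ (n + 1) ^ 2 := Nat.one_le_pow _ _ (by omega)
      nlinarith
    omega
  have h5 := h4.mono_c hcost
  -- extraction of the coefficients
  have h6 : Calc M (4 * (n + 1) ^ 4 * (3 * (M + 1) ^ 2)) (K ∪ {0, 1})
      {q | ∃ g ∈ {q | ∃ i, q = (oMat A B).charpoly.coeff i}, ∃ i, q = zc g i} := by
    refine Calc.lift h5 ?_ ?_
    · rintro g (rfl | ⟨q, hq, rfl⟩)
      · exact hXd.trans (by omega)
      · exact (hrd _).trans ((hK₀d q hq).trans (by omega))
    · rintro g (rfl | ⟨q, hq, rfl⟩) i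
      · rw [zc_X_none]
        split_ifs
        · exact Or.inr (Or.inr rfl)
        · exact Or.inr (Or.inl rfl)
      · rw [zc_rename]
        split_ifs
        · obtain ⟨a, b, rfl | rfl⟩ := hq
          · exact Or.inl (hA _ _)
          · exact Or.inl (hB _ _)
        · exact Or.inr (Or.inl rfl)
  have h7 := (Calc.zero_one (M := M) (K := K)).trans' h6
  refine h7.mono le_rfl (by omega) subset_rfl ?_
  rintro _ ⟨i, rfl⟩
  exact ⟨_, ⟨i, rfl⟩, J, pchi_coeff_zc A B i J⟩

end Cost

section Lincomb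

variable {σ : Type*}

/-- Integer linear combinations. -/
theorem calc_lincomb {M : ℕ} {K : Set (MvPolynomial σ ℤ)} {ι : Type*} [Fintype ι]
    (z : ι → ℤ) {g : ι → MvPolynomial σ ℤ} (hg : ∀ i, g i ∈ K)
    (hd : ∀ i, (g i).totalDegree ≤ M) :
    Calc M (2 * Fintype.card ι) K {∑ i, C (z i) * g i} := by
  have h1 : Calc M (Fintype.card ι * 0) K (Set.range fun i => (C (z i) : MvPolynomial σ ℤ)) :=
    Calc.range fun i => Calc.const (z i)
  have h2 : Calc M (2 * (Finset.univ : Finset ι).card)
      (K ∪ Set.range fun i => (C (z i) : MvPolynomial σ ℤ)) {∑ i, C (z i) * g i} := by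
    refine Calc.dot Finset.univ (fun i _ => Or.inr ⟨i, rfl⟩) (fun i _ => Or.inl (hg i))
      (fun i _ => (totalDegree_mul _ _).trans ?_)
    rw [totalDegree_C, zero_add]
    exact hd i
  have h3 := h1.trans' h2
  rw [Finset.card_univ] at h3
  exact h3.mono_c (by omega)

variable {κ : Type*} [Fintype κ] [DecidableEq κ]

/-- The entries of `matB`. -/
theorem matB_mem (S : Sq σ κ) (k : κ) (b c : Mon κ (Dt S.N)) :
    ∃ (z : ℤ) (j : κ) (δ : κ →₀ ℕ), matB S.N S.e k b c = C z * coeff δ (S.e j) := by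
  by_cases h1 : ∑ i, b.ex i < Dt S.N
  · exact ⟨0, k, 0, by rw [matB]; simp [h1]⟩
  · by_cases h2 : ∀ i, (upk b.ex k - Pi.single (pick S.N (upk b.ex k) k)
        (S.N (pick S.N (upk b.ex k) k)) : κ → ℕ) i ≤ c.ex i
    · refine ⟨-1, pick S.N (upk b.ex k) k, Finsupp.equivFunOnFinite.symm (c.ex -
        (upk b.ex k - Pi.single (pick S.N (upk b.ex k) k) (S.N (pick S.N (upk b.ex k) k)))), ?_⟩
      rw [matB]
      simp only [h1, if_false, if_pos h2]
      simp
    · refine ⟨0, k, 0, ?_⟩
      rw [matB]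
      simp only [h1, if_false, if_neg h2]
      simp

/-- The coefficients of `r(mu, Z)`, `mu` an integer vector. -/
theorem Sq.calc_atMu (S : Sq σ κ) {M m : ℕ} {K : Set (MvPolynomial σ ℤ)}
    (hK : ∀ j δ, coeff δ (S.e j) ∈ K) (hd : ∀ j δ, (coeff δ (S.e j)).totalDegree ≤ m)
    (hM : (S.size + 1) * (m + 1) ≤ M) (mu : κ → ℤ) (J : ℕ) :
    Calc M (2 * Fintype.card κ * S.size ^ 2 + 4 * (S.size + 1) ^ 4 * (3 * (M + 1) ^ 2)) K
      (Set.range ((pchi (S.penA (fun k => (mu k : MvPolynomial σ ℤ)))
        (S.penB (RingHom.id _) (fun k => (mu k : MvPolynomial σ ℤ)))).coeff J).coeff) := by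
  classical
  set A := S.penA (fun k => (mu k : MvPolynomial σ ℤ)) with hA
  set B := S.penB (RingHom.id (MvPolynomial σ ℤ)) (fun k => (mu k : MvPolynomial σ ℤ)) with hB
  have hmM : m ≤ M := by nlinarith
  choose z q δ hz using matB_mem S
  have hAe : ∀ b c, ∃ y : ℤ, A b c = C y := by
    intro b c
    refine ⟨∑ k, mu k * (if ∑ i, b.ex i < Dt S.N ∧ c.ex = upk b.ex k then 1 else 0), ?_⟩
    rw [hA, Sq.penA, Matrix.sum_apply, map_sum]
    refine Finset.sum_congr rfl fun k _ => ?_
    rw [Matrix.smul_apply, matA]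
    split_ifs <;> simp
  choose y hy using hAe
  have hBe : ∀ b c, B b c = ∑ k, C (mu k * z k b c) * coeff (δ k b c) (S.e (q k b c)) := by
    intro b c
    rw [hB, Sq.penB, Matrix.sum_apply]
    refine Finset.sum_congr rfl fun k _ => ?_
    rw [Matrix.smul_apply, Matrix.map_apply, RingHom.id_apply, hz, smul_eq_mul]
    simp [mul_assoc]
  -- the entries of A
  have h1 : Calc M (Fintype.card (Mon κ (Dt S.N) × Mon κ (Dt S.N)) * 0) K
      (Set.range fun x : Mon κ (Dt S.N) × Mon κ (Dt S.N) => A x.1 x.2) :=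
    Calc.range fun x => by
      rw [hy]
      exact Calc.const _
  -- the entries of B
  have h2 : Calc M (Fintype.card (Mon κ (Dt S.N) × Mon κ (Dt S.N)) * (2 * Fintype.card κ)) K
      (Set.range fun x : Mon κ (Dt S.N) × Mon κ (Dt S.N) => B x.1 x.2) :=
    Calc.range fun x => by
      rw [hBe]
      exact calc_lincomb (fun k => mu k * z k x.1 x.2) (fun k => hK _ _)
        (fun k => (hd _ _).trans hmM)
  have h3 := h1.union h2
  have hdA : ∀ i j, (A i j).totalDegree ≤ m := by
    intro i j
    rw [hy, totalDegree_C]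
    exact Nat.zero_le _
  have hdB : ∀ i j, (B i j).totalDegree ≤ m := by
    intro i j
    rw [hBe]
    refine totalDegree_finsetSum_le fun k _ => (totalDegree_mul _ _).trans ?_
    rw [totalDegree_C, zero_add]
    exact hd _ _
  have h4 := calc_pchi (M := M) (m := m)
    (K := K ∪ ((Set.range fun x : Mon κ (Dt S.N) × Mon κ (Dt S.N) => A x.1 x.2) ∪
      Set.range fun x : Mon κ (Dt S.N) × Mon κ (Dt S.N) => B x.1 x.2)) (A := A) (B := B)
    (fun i j => Or.inr (Or.inl ⟨(i, j), rfl⟩)) (fun i j => Or.inr (Or.inr ⟨(i, j), rfl⟩))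
    hdA hdB hM J
  refine (h3.trans' h4).mono_c ?_
  rw [Fintype.card_prod]
  have : Fintype.card (Mon κ (Dt S.N)) = S.size := rfl
  rw [this]
  have h5 : S.size * S.size * 0 + S.size * S.size * (2 * Fintype.card κ) =
    2 * Fintype.card κ * S.size ^ 2 := by ring
  omega

end Lincomb

end Pool.Agent.QC.Elim
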