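import Pool.Agent.QC.Rec

/-!
# The square systems for critical and singular points

`eqC q lam z`: the equations for `lam m = 1 / P_m(w)`, `z = w_n`, `w` a critical point of `x_n` on
`f_q = 0`; `eqS q lam t`: the equations for `lam m = 1 / P_m(v)` and `t`, `v` a singular point of
`f_{q+t} = 0`.  Everything is defined over an arbitrary commutative ring.
-/

namespace Pool.Agent.QC.Elim

open MvPolynomial

section Ring

variable {T : Type*} [CommRing T]

/-- The homogenised quadratic polynomial `P^h(d; y)`, equal to `d^2 P(y / d)`. -/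
def qh {N : ℕ} (p : QP T N) (d : T) (y : Fin N → T) : T :=
  (∑ i, ∑ j, p.1 i j * y i * y j) + d * (∑ i, p.2.1 i * y i) + d ^ 2 * p.2.2

/-- The value of a quadratic polynomial. -/
def qvT {N : ℕ} (p : QP T N) (y : Fin N → T) : T :=
  (∑ i, ∑ j, p.1 i j * y i * y j) + (∑ i, p.2.1 i * y i) + p.2.2

/-- The derivative of a quadratic polynomial. -/
def qgT {N : ℕ} (p : QP T N) (k : Fin N) (y : Fin N → T) : T :=
  (∑ j, (p.1 k j + p.1 j k) * y j) + p.2.1 k

/-- Image of a quadratic polynomial under a ring homomorphism. -/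
def mapQ {T' : Type*} [CommRing T'] (ψ : T →+* T') {N : ℕ} (p : QP T N) : QP T' N :=
  (fun i j => ψ (p.1 i j), fun i => ψ (p.2.1 i), ψ p.2.2)

variable {n l : ℕ}

/-- The matrix `A(lam)`. -/
def matL (q : Fin (l + 1) → QP T (n + 1)) (lam : Fin (l + 1) → T) :
    Matrix (Fin (n + 1)) (Fin (n + 1)) T :=
  fun i j => ∑ m, lam m * ((q m).1 i j + (q m).1 j i)

/-- The matrix `A'(lam)`. -/
def matL' (q : Fin (l + 1) → QP T (n + 1)) (lam : Fin (l + 1) → T) : Matrix (Fin n) (Fin n) T :=
  (matL q lam).submatrix Fin.castSucc Fin.castSucc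

/-- The right hand side of the linear system for `w'`. -/
def vecL' (q : Fin (l + 1) → QP T (n + 1)) (lam : Fin (l + 1) → T) (z : T) : Fin n → T :=
  fun i => matL q lam i.castSucc (Fin.last n) * z + ∑ m, lam m * (q m).2.1 i.castSucc

/-- `det A'(lam) * w`. -/
def solC (q : Fin (l + 1) → QP T (n + 1)) (lam : Fin (l + 1) → T) (z : T) : Fin (n + 1) → T :=
  Fin.snoc (fun i => -((matL' q lam).adjugate.mulVec (vecL' q lam z)) i)
    ((matL' q lam).det * z)

/-- The system for critical points. -/
def eqC (q : Fin (l + 1) → QP T (n + 1)) (lam : Fin (l + 1) → T) (z : T) :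
    Option (Fin (l + 1)) → T
  | none => (∏ m, lam m) - 1
  | some m => lam m * qh (q m) (matL' q lam).det (solC q lam z) - (matL' q lam).det ^ 2

/-- The right hand side of the linear system for `v`. -/
def vecL (q : Fin (l + 1) → QP T (n + 1)) (lam : Fin (l + 1) → T) : Fin (n + 1) → T :=
  fun i => ∑ m, lam m * (q m).2.1 i

/-- `det A(lam) * v`. -/
def solS (q : Fin (l + 1) → QP T (n + 1)) (lam : Fin (l + 1) → T) : Fin (n + 1) → T :=
  fun i => -((matL q lam).adjugate.mulVec (vecL q lam)) i

/-- The system for singular points. -/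
def eqS (q : Fin (l + 1) → QP T (n + 1)) (lam : Fin (l + 1) → T) (t : T) :
    Option (Fin (l + 1)) → T
  | none => (∏ m, lam m) - 1
  | some m => lam m * (qh (q m) (matL q lam).det (solS q lam) +
      if m = 0 then (matL q lam).det ^ 2 * t else 0) - (matL q lam).det ^ 2

end Ring

section Maps

variable {T T' : Type*} [CommRing T] [CommRing T'] (ψ : T →+* T') {n l : ℕ}

lemma map_qh {N : ℕ} (p : QP T N) (d : T) (y : Fin N → T) :
    ψ (qh p d y) = qh (mapQ ψ p) (ψ d) (fun i => ψ (y i)) := by
  simp [qh, mapQ]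

lemma map_matL (q : Fin (l + 1) → QP T (n + 1)) (lam : Fin (l + 1) → T) :
    (matL q lam).map ψ = matL (fun m => mapQ ψ (q m)) (fun m => ψ (lam m)) := by
  ext i j
  simp [matL, mapQ]

lemma map_matL' (q : Fin (l + 1) → QP T (n + 1)) (lam : Fin (l + 1) → T) :
    (matL' q lam).map ψ = matL' (fun m => mapQ ψ (q m)) (fun m => ψ (lam m)) := by
  rw [matL', matL', ← map_matL]
  rfl

lemma map_det {ι : Type*} [Fintype ι] [DecidableEq ι] (A : Matrix ι ι T) :
    ψ A.det = (A.map ψ).det := by
  rw [RingHom.map_det]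
  rfl

lemma map_adj {ι : Type*} [Fintype ι] [DecidableEq ι] (A : Matrix ι ι T) (v : ι → T) (i : ι) :
    ψ ((A.adjugate.mulVec v) i) = ((A.map ψ).adjugate.mulVec fun j => ψ (v j)) i := by
  have h := RingHom.map_adjugate ψ A
  rw [RingHom.mapMatrix_apply, RingHom.mapMatrix_apply] at h
  rw [← h]
  simp [Matrix.mulVec, dotProduct]

lemma map_solC (q : Fin (l + 1) → QP T (n + 1)) (lam : Fin (l + 1) → T) (z : T)
    (i : Fin (n + 1)) :
    ψ (solC q lam z i) = solC (fun m => mapQ ψ (q m)) (fun m => ψ (lam m)) (ψ z) i := by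
  refine Fin.lastCases ?_ (fun j => ?_) i
  · simp only [solC, Fin.snoc_last, map_mul, map_det, map_matL']
  · simp only [solC, Fin.snoc_castSucc, map_neg, map_adj, map_matL']
    congr 3
    funext k
    have h := congrFun (congrFun (map_matL ψ q lam) k.castSucc) (Fin.last n)
    rw [Matrix.map_apply] at h
    simp [vecL', h, mapQ]

lemma map_solS (q : Fin (l + 1) → QP T (n + 1)) (lam : Fin (l + 1) → T) (i : Fin (n + 1)) :
    ψ (solS q lam i) = solS (fun m => mapQ ψ (q m)) (fun m => ψ (lam m)) i := by
  simp only [solS, map_neg, map_adj, map_matL]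
  congr 3
  funext k
  simp [vecL, mapQ]

theorem map_eqC (q : Fin (l + 1) → QP T (n + 1)) (lam : Fin (l + 1) → T) (z : T)
    (o : Option (Fin (l + 1))) :
    ψ (eqC q lam z o) = eqC (fun m => mapQ ψ (q m)) (fun m => ψ (lam m)) (ψ z) o := by
  cases o with
  | none => simp [eqC]
  | some m =>
    simp only [eqC, map_sub, map_mul, map_pow, map_qh, map_det, map_matL', map_solC]

theorem map_eqS (q : Fin (l + 1) → QP T (n + 1)) (lam : Fin (l + 1) → T) (t : T)
    (o : Option (Fin (l + 1))) :
    ψ (eqS q lam t o) = eqS (fun m => mapQ ψ (q m)) (fun m => ψ (lam m)) (ψ t) o := by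
  cases o with
  | none => simp [eqS]
  | some m =>
    simp only [eqS, map_sub, map_mul, map_add, map_pow, map_qh, map_det, map_matL, map_solS]
    split_ifs <;> simp [map_det, map_matL]

end Maps

section Complex

variable {n l : ℕ}

/-- The system for critical points as polynomials in the unknowns. -/
noncomputable def eC (q : Tup n l) : Option (Fin (l + 1)) →
    MvPolynomial (Option (Fin (l + 1))) ℂ :=
  eqC (fun m => mapQ C (q m)) (fun m => X (some m)) (X none)

/-- The system for singular points as polynomials in the unknowns. -/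
noncomputable def eS (q : Tup n l) : Option (Fin (l + 1)) →
    MvPolynomial (Option (Fin (l + 1))) ℂ :=
  eqS (fun m => mapQ C (q m)) (fun m => X (some m)) (X none)

/-- The unknowns belonging to a critical point. -/
noncomputable def uC (q : Tup n l) (w : Fin (n + 1) → ℂ) : Option (Fin (l + 1)) → ℂ
  | none => w (Fin.last n)
  | some m => (eval w (qpol (q m)))⁻¹

/-- The unknowns belonging to a singular point of `q + t`. -/
noncomputable def uS (q : Tup n l) (t : ℂ) (v : Fin (n + 1) → ℂ) : Option (Fin (l + 1)) → ℂ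
  | none => t
  | some m => (eval v (qpol (addT q t m)))⁻¹

end Complex

end Pool.Agent.QC.Elim
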