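import Pool.Agent.QC.Elim.Inst
import Pool.Agent.QC.Size
import Pool.Agent.QC.EasyMat

/-!
# The coefficients of the systems and the sizes are `k ^ O(l)`
-/

namespace Pool.Agent.QC.Elim

open MvPolynomial

/-! ### Sizes -/

section Size

lemma Dt_NN (n l : ℕ) : Dt (NN n l) = (l + 1) * (2 * n + 6) := by
  rw [Dt, Fintype.sum_option]
  simp [NN]
  ring

lemma card_opt (l : ℕ) : Fintype.card (Option (Fin (l + 1))) = l + 2 := by
  simp

theorem bd_size : Bd LL (fun p => Fintype.card (Mon (Option (Fin (p.l + 1))) (Dt (NN p.n p.l)))) := by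
  have h1 : BdN (fun p => 2 * p.n + 7) := ((BdN.const 2).mul BdN.n).add (BdN.const 7)
  have h2 : BdLin (fun p => p.l + 2) := BdLin.l.add (BdLin.const 2)
  refine (Bd.chooseNL (N := fun p => p.l + 2 + (p.l + 1) * (2 * p.n + 6)) h1 h2 fun p => ?_).mono
    fun p => ?_
  · nlinarith
  · have h3 := card_mons_le (Option (Fin (p.l + 1))) (Dt (NN p.n p.l))
    rw [card_opt, Dt_NN] at h3
    rw [Dt_NN]
    exact h3

theorem bd_sizeC : Bd LL (fun p => (sysC p.n p.l).size) := bd_size

theorem bd_sizeS : Bd LL (fun p => (sysS p.n p.l).size) := bd_size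

end Size

/-! ### Generic equations, independent of `l` -/

section Generic

variable {T : Type*} [CommRing T]

/-- The vector for critical points. -/
def yC {n : ℕ} (W : Matrix (Fin n) (Fin n) T) (b : Fin n → T) (z : T) : Fin (n + 1) → T :=
  Fin.snoc (fun i => -(W.adjugate.mulVec b) i) (W.det * z)

/-- Generic equation for critical points. -/
def gC {n : ℕ} (W : Matrix (Fin n) (Fin n) T) (b : Fin n → T) (p : QP T (n + 1)) (lam z : T) : T :=
  lam * qh p W.det (yC W b z) - W.det ^ 2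

/-- Generic equation for singular points. -/
def gS {n : ℕ} (c : ℤ) (W : Matrix (Fin (n + 1)) (Fin (n + 1)) T) (b : Fin (n + 1) → T)
    (p : QP T (n + 1)) (lam t : T) : T :=
  lam * (qh p W.det (fun i => -(W.adjugate.mulVec b) i) + (c : T) * (W.det ^ 2 * t)) - W.det ^ 2

variable {n l : ℕ}

lemma eqC_some (q : Fin (l + 1) → QP T (n + 1)) (lam : Fin (l + 1) → T) (z : T)
    (m : Fin (l + 1)) :
    eqC q lam z (some m) = gC (matL' q lam) (vecL' q lam z) (q m) (lam m) z := rfl

lemma eqS_some (q : Fin (l + 1) → QP T (n + 1)) (lam : Fin (l + 1) → T) (t : T)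
    (m : Fin (l + 1)) :
    eqS q lam t (some m) =
      gS (if m = 0 then 1 else 0) (matL q lam) (vecL q lam) (q m) (lam m) t := by
  rw [eqS, gS]
  split_ifs
  · rw [Int.cast_one, one_mul]
    rfl
  · rw [Int.cast_zero, zero_mul]
    rfl

/-- Variables of the generic equations, matrix size `k`, points in dimension `n + 1`. -/
abbrev GV (k n : ℕ) := (Fin k × Fin k) ⊕ (Fin k ⊕ ((Fin (n + 1) × Fin (n + 1)) ⊕
  (Fin (n + 1) ⊕ Fin 3)))

/-- The generic matrix. -/
noncomputable def gW (k n : ℕ) : Matrix (Fin k) (Fin k) (MvPolynomial (GV k n) ℤ) :=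
  fun i j => X (Sum.inl (i, j))

/-- The generic vector. -/
noncomputable def gb (k n : ℕ) : Fin k → MvPolynomial (GV k n) ℤ :=
  fun i => X (Sum.inr (Sum.inl i))

/-- The generic quadratic polynomial. -/
noncomputable def gp (k n : ℕ) : QP (MvPolynomial (GV k n) ℤ) (n + 1) :=
  (fun i j => X (Sum.inr (Sum.inr (Sum.inl (i, j)))),
    fun i => X (Sum.inr (Sum.inr (Sum.inr (Sum.inl i)))),
    X (Sum.inr (Sum.inr (Sum.inr (Sum.inr 0)))))

/-- The generic `lam` and `z`. -/
noncomputable def gl (k n : ℕ) (i : Fin 3) : MvPolynomial (GV k n) ℤ :=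
  X (Sum.inr (Sum.inr (Sum.inr (Sum.inr i))))

section EasyG

variable {k : ℕ → ℕ}

private abbrev Ln : ℕ → ℕ := fun n => n

lemma easy_W : EasyP Ln (σ := fun n => GV (k n) n) (fun n => {q | ∃ r s, q = gW (k n) n r s}) :=
  EasyP.vars.mono fun n => by
    rintro _ ⟨r, s, rfl⟩
    exact ⟨_, rfl⟩

lemma easy_gl (i : Fin 3) : EasyP Ln (σ := fun n => GV (k n) n) (fun n => {gl (k n) n i}) :=
  EasyP.vars.mono fun n => by
    rintro _ rfl
    exact ⟨_, rfl⟩

lemma easy_adjb (hk : Bd Ln k) : EasyP Ln (σ := fun n => GV (k n) n)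
    (fun n => Set.range fun i => -((gW (k n) n).adjugate.mulVec (gb (k n) n)) i) := by
  have hκ : Bd Ln (fun n => Fintype.card (Fin (k n))) := hk.mono fun n => by simp
  have h1 := EasyP.adjugate (L := Ln) (σ := fun n => GV (k n) n) (A := fun n => gW (k n) n) hκ
    easy_W
  have h2 : EasyP Ln (σ := fun n => GV (k n) n)
      (fun n => {q | ∃ r s, q = (fun i (_ : Fin 1) => gb (k n) n i :
        Matrix (Fin (k n)) (Fin 1) _) r s}) :=
    EasyP.vars.mono fun n => by
      rintro _ ⟨r, s, rfl⟩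
      exact ⟨_, rfl⟩
  have h3 := EasyP.matMul hκ hκ (κ₃ := fun _ => Fin 1) ((Bd.const 1).mono fun n => by simp) h1 h2
  refine EasyP.range (κ := fun n => Fin (k n)) hκ ?_
  refine EasyP.neg ?_
  refine EasyP.of_range (κ := fun n => Fin (k n)) (f := fun n i =>
    ((gW (k n) n).adjugate.mulVec (gb (k n) n)) i) ?_
  refine h3.mono fun n => ?_
  rintro _ ⟨i, rfl⟩
  exact ⟨i, 0, rfl⟩

/-- The homogenised quadratic polynomial is easy. -/
lemma easy_qh {d : ∀ n, MvPolynomial (GV (k n) n) ℤ} {y : ∀ n, Fin (n + 1) →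
    MvPolynomial (GV (k n) n) ℤ} (hd : EasyP Ln (σ := fun n => GV (k n) n) (fun n => {d n}))
    (hy : EasyP Ln (σ := fun n => GV (k n) n) (fun n => Set.range (y n))) :
    EasyP Ln (σ := fun n => GV (k n) n) (fun n => {qh (gp (k n) n) (d n) (y n)}) := by
  have hb1 : Bd Ln (fun n => Fintype.card (Fin (n + 1))) :=
    (Bd.self.add (Bd.const 1)).mono fun n => by simp
  have hb2 : Bd Ln (fun n => Fintype.card (Fin (n + 1) × Fin (n + 1))) :=
    (hb1.mul hb1).mono fun n => by simp
  -- quadratic part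
  have ha : EasyP Ln (σ := fun n => GV (k n) n)
      (fun n => Set.range fun x : Fin (n + 1) × Fin (n + 1) => (gp (k n) n).1 x.1 x.2) :=
    EasyP.vars.mono fun n => by
      rintro _ ⟨x, rfl⟩
      exact ⟨_, rfl⟩
  have hy1 : EasyP Ln (σ := fun n => GV (k n) n)
      (fun n => Set.range fun x : Fin (n + 1) × Fin (n + 1) => y n x.1) :=
    hy.mono fun n => by
      rintro _ ⟨x, rfl⟩
      exact ⟨_, rfl⟩
  have hy2 : EasyP Ln (σ := fun n => GV (k n) n)
      (fun n => Set.range fun x : Fin (n + 1) × Fin (n + 1) => y n x.2) :=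
    hy.mono fun n => by
      rintro _ ⟨x, rfl⟩
      exact ⟨_, rfl⟩
  have h1 := EasyP.sum (κ := fun n => Fin (n + 1) × Fin (n + 1)) hb2
    (EasyP.range (κ := fun n => Fin (n + 1) × Fin (n + 1)) (f := fun n x =>
      (gp (k n) n).1 x.1 x.2 * y n x.1 * y n x.2) hb2
      (EasyP.mul (EasyP.mul ha.of_range hy1.of_range) hy2.of_range))
  -- linear part
  have hb : EasyP Ln (σ := fun n => GV (k n) n)
      (fun n => Set.range fun i : Fin (n + 1) => (gp (k n) n).2.1 i) :=
    EasyP.vars.mono fun n => by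
      rintro _ ⟨x, rfl⟩
      exact ⟨_, rfl⟩
  have h2 := EasyP.mul hd (EasyP.dot hb1 hb hy)
  have hc : EasyP Ln (σ := fun n => GV (k n) n) (fun n => {(gp (k n) n).2.2}) :=
    EasyP.vars.mono fun n => by
      rintro _ rfl
      exact ⟨_, rfl⟩
  have h3 := EasyP.mul (EasyP.pow hd (Bd.const 2)) hc
  have h4 := EasyP.add (EasyP.add h1 h2) h3
  refine h4.mono fun n => ?_
  rintro _ rfl
  rw [Set.mem_singleton_iff, qh, Fintype.sum_prod_type]

end EasyG

theorem easy_gC : EasyP Ln (σ := fun n => GV n n)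
    (fun n => {gC (gW n n) (gb n n) (gp n n) (gl n n 1) (gl n n 2)}) := by
  have hκ : Bd Ln (fun n => Fintype.card (Fin n)) := Bd.self.mono fun n => by simp
  have hdet := EasyP.det (L := Ln) (σ := fun n => GV n n) (A := fun n => gW n n) hκ
    (easy_W (k := fun n => n))
  have hy : EasyP Ln (σ := fun n => GV n n)
      (fun n => Set.range (yC (gW n n) (gb n n) (gl n n 2))) := by
    refine ((easy_adjb (k := fun n => n) Bd.self).union
      (EasyP.mul hdet (easy_gl (k := fun n => n) 2))).mono fun n => ?_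
    rintro _ ⟨i, rfl⟩
    refine Fin.lastCases ?_ (fun j => ?_) i
    · right
      rw [yC, Fin.snoc_last]
      rfl
    · left
      rw [yC, Fin.snoc_castSucc]
      exact ⟨j, rfl⟩
  exact EasyP.sub (EasyP.mul (easy_gl (k := fun n => n) 1) (easy_qh (k := fun n => n) hdet hy))
    (EasyP.pow hdet (Bd.const 2))

theorem easy_gS (c : ℤ) : EasyP Ln (σ := fun n => GV (n + 1) n)
    (fun n => {gS c (gW (n + 1) n) (gb (n + 1) n) (gp (n + 1) n) (gl (n + 1) n 1)
      (gl (n + 1) n 2)}) := by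
  have hk : Bd Ln (fun n => n + 1) := Bd.self.add (Bd.const 1)
  have hκ : Bd Ln (fun n => Fintype.card (Fin (n + 1))) := hk.mono fun n => by simp
  have hdet := EasyP.det (L := Ln) (σ := fun n => GV (n + 1) n) (A := fun n => gW (n + 1) n) hκ
    (easy_W (k := fun n => n + 1))
  have h2 : EasyP Ln (σ := fun n => GV (n + 1) n)
      (fun n => {(c : MvPolynomial (GV (n + 1) n) ℤ) * ((gW (n + 1) n).det ^ 2 *
        gl (n + 1) n 2)}) := by
    refine (EasyP.mul (EasyP.const fun _ => c) (EasyP.mul (EasyP.pow hdet (Bd.const 2))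
      (easy_gl (k := fun n => n + 1) 2))).mono fun n => ?_
    rintro _ rfl
    simp
  exact EasyP.sub (EasyP.mul (easy_gl (k := fun n => n + 1) 1)
    (EasyP.add (easy_qh (k := fun n => n + 1) hdet (easy_adjb (k := fun n => n + 1) hk)) h2))
    (EasyP.pow hdet (Bd.const 2))

end Generic

end Pool.Agent.QC.Elim
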