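import Pool.Agent.QC.Elim.EasyE

/-!
# The coefficients of the systems are easy
-/

namespace Pool.Agent.QC.Elim

open MvPolynomial

section Maps

variable {T T' : Type*} [CommRing T] [CommRing T'] (ψ : T →+* T') {n : ℕ}

lemma map_yC (W : Matrix (Fin n) (Fin n) T) (b : Fin n → T) (z : T) (i : Fin (n + 1)) :
    ψ (yC W b z i) = yC (W.map ψ) (fun i => ψ (b i)) (ψ z) i := by
  refine Fin.lastCases ?_ (fun j => ?_) i
  · simp only [yC, Fin.snoc_last, map_mul, map_det]
  · simp only [yC, Fin.snoc_castSucc, map_neg, map_adj]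

lemma map_gC (W : Matrix (Fin n) (Fin n) T) (b : Fin n → T) (p : QP T (n + 1)) (lam z : T) :
    ψ (gC W b p lam z) = gC (W.map ψ) (fun i => ψ (b i)) (mapQ ψ p) (ψ lam) (ψ z) := by
  simp only [gC, map_sub, map_mul, map_pow, map_qh, map_det, map_yC]

lemma map_gS (c : ℤ) (W : Matrix (Fin (n + 1)) (Fin (n + 1)) T) (b : Fin (n + 1) → T)
    (p : QP T (n + 1)) (lam t : T) :
    ψ (gS c W b p lam t) = gS c (W.map ψ) (fun i => ψ (b i)) (mapQ ψ p) (ψ lam) (ψ t) := by
  simp only [gS, map_sub, map_mul, map_add, map_pow, map_qh, map_det, map_neg, map_adj,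
    map_intCast]

end Maps

section Subst

variable (n l : ℕ)

/-- Variables of the universal equations. -/
abbrev VU (n l : ℕ) := Ix n l ⊕ Option (Fin (l + 1))

/-- The universal `lam`. -/
noncomputable def lU (m : Fin (l + 1)) : MvPolynomial (VU n l) ℤ := X (Sum.inr (some m))

/-- The universal `z`. -/
noncomputable def zU : MvPolynomial (VU n l) ℤ := X (Sum.inr none)

/-- Substitution for the equation `m` (critical points). -/
noncomputable def uCm (m : Fin (l + 1)) : GV n n → MvPolynomial (VU n l) ℤ :=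
  Sum.elim (fun x => matL' (qU n l) (lU n l) x.1 x.2)
    (Sum.elim (fun i => vecL' (qU n l) (lU n l) (zU n l) i)
      (Sum.elim (fun x => (qU n l m).1 x.1 x.2)
        (Sum.elim (fun i => (qU n l m).2.1 i) ![(qU n l m).2.2, lU n l m, zU n l])))

/-- Substitution for the equation `m` (singular points). -/
noncomputable def uSm (m : Fin (l + 1)) : GV (n + 1) n → MvPolynomial (VU n l) ℤ :=
  Sum.elim (fun x => matL (qU n l) (lU n l) x.1 x.2)
    (Sum.elim (fun i => vecL (qU n l) (lU n l) i)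
      (Sum.elim (fun x => (qU n l m).1 x.1 x.2)
        (Sum.elim (fun i => (qU n l m).2.1 i) ![(qU n l m).2.2, lU n l m, zU n l])))

variable {n l}

theorem bind_gC (m : Fin (l + 1)) :
    bind₁ (uCm n l m) (gC (gW n n) (gb n n) (gp n n) (gl n n 1) (gl n n 2)) =
      eCU n l (some m) := by
  have h := map_gC (bind₁ (uCm n l m) : MvPolynomial (GV n n) ℤ →ₐ[ℤ] _).toRingHom
    (gW n n) (gb n n) (gp n n) (gl n n 1) (gl n n 2)
  have h1 : (bind₁ (uCm n l m) : MvPolynomial (GV n n) ℤ →ₐ[ℤ] _).toRingHom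
    (gC (gW n n) (gb n n) (gp n n) (gl n n 1) (gl n n 2)) =
    bind₁ (uCm n l m) (gC (gW n n) (gb n n) (gp n n) (gl n n 1) (gl n n 2)) := rfl
  rw [← h1, h, eCU, eqC_some]
  congr 1
  · ext1 i j
    simp [gW, uCm, lU]
    rfl
  · funext i
    simp [gb, uCm]
    rfl
  · refine Prod.ext ?_ (Prod.ext ?_ ?_)
    · funext i j
      simp [mapQ, gp, uCm]
    · funext i
      simp [mapQ, gp, uCm]
    · simp [mapQ, gp, uCm]
  · simp [gl, uCm, lU]
  · simp [gl, uCm, zU]

theorem bind_gS (m : Fin (l + 1)) :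
    bind₁ (uSm n l m) (gS (if m = 0 then 1 else 0) (gW (n + 1) n) (gb (n + 1) n) (gp (n + 1) n)
      (gl (n + 1) n 1) (gl (n + 1) n 2)) = eSU n l (some m) := by
  have h := map_gS (bind₁ (uSm n l m) : MvPolynomial (GV (n + 1) n) ℤ →ₐ[ℤ] _).toRingHom
    (if m = 0 then 1 else 0) (gW (n + 1) n) (gb (n + 1) n) (gp (n + 1) n) (gl (n + 1) n 1)
    (gl (n + 1) n 2)
  have h1 : (bind₁ (uSm n l m) : MvPolynomial (GV (n + 1) n) ℤ →ₐ[ℤ] _).toRingHom
    (gS (if m = 0 then 1 else 0) (gW (n + 1) n) (gb (n + 1) n) (gp (n + 1) n)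
      (gl (n + 1) n 1) (gl (n + 1) n 2)) =
    bind₁ (uSm n l m) (gS (if m = 0 then 1 else 0) (gW (n + 1) n) (gb (n + 1) n) (gp (n + 1) n)
      (gl (n + 1) n 1) (gl (n + 1) n 2)) := rfl
  rw [← h1, h, eSU, eqS_some]
  congr 1
  · ext1 i j
    simp [gW, uSm, lU]
    rfl
  · funext i
    simp [gb, uSm]
    rfl
  · refine Prod.ext ?_ (Prod.ext ?_ ?_)
    · funext i j
      simp [mapQ, gp, uSm]
    · funext i
      simp [mapQ, gp, uSm]
    · simp [mapQ, gp, uSm]
  · simp [gl, uSm, lU]
  · simp [gl, uSm, zU]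

/-! ### Cost of the substituted polynomials -/

lemma tdX' {τ : Type*} (i : τ) : (X i : MvPolynomial τ ℤ).totalDegree = 1 := totalDegree_X _

lemma td_matLU (i j : Fin (n + 1)) : (matL (qU n l) (lU n l) i j).totalDegree ≤ 2 := by
  rw [matL]
  refine totalDegree_finsetSum_le fun m _ => (totalDegree_mul _ _).trans ?_
  have h1 : (lU n l m).totalDegree = 1 := tdX' _
  have h2 : ((qU n l m).1 i j + (qU n l m).1 j i).totalDegree ≤ 1 :=
    (totalDegree_add _ _).trans (max_le (tdX' _).le (tdX' _).le)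
  omega

lemma td_vecLU (i : Fin (n + 1)) : (vecL (qU n l) (lU n l) i).totalDegree ≤ 2 := by
  rw [vecL]
  refine totalDegree_finsetSum_le fun m _ => (totalDegree_mul _ _).trans ?_
  have h1 : (lU n l m).totalDegree = 1 := tdX' _
  have h2 : ((qU n l m).2.1 i).totalDegree = 1 := tdX' _
  omega

lemma td_vecLU' (i : Fin n) : (vecL' (qU n l) (lU n l) (zU n l) i).totalDegree ≤ 3 := by
  rw [vecL']
  refine (totalDegree_add _ _).trans (max_le ((totalDegree_mul _ _).trans ?_) ?_)
  · have h1 := td_matLU (l := l) i.castSucc (Fin.last n)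
    have h2 : (zU n l).totalDegree = 1 := tdX' _
    omega
  · exact (td_vecLU (n := n) (l := l) i.castSucc).trans (by omega)

/-- The entries of the matrices and vectors. -/
def UU (n l : ℕ) : Set (MvPolynomial (VU n l) ℤ) :=
  Set.range (fun x : Fin (n + 1) × Fin (n + 1) => matL (qU n l) (lU n l) x.1 x.2) ∪
    (Set.range (vecL (qU n l) (lU n l)) ∪ Set.range (vecL' (qU n l) (lU n l) (zU n l)))

theorem calc_UU (n l : ℕ) : Calc 3 (20 * (n + 1) ^ 2 * (l + 1)) (Set.range X) (UU n l) := by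
  classical
  -- matrix entries
  have h1 : ∀ x : Fin (n + 1) × Fin (n + 1), Calc 3 (3 * (l + 1))
      (Set.range (X : VU n l → MvPolynomial (VU n l) ℤ)) {matL (qU n l) (lU n l) x.1 x.2} := by
    intro x
    have e1 : ∀ m : Fin (l + 1), Calc 3 2 (Set.range (X : VU n l → MvPolynomial (VU n l) ℤ))
        {lU n l m * ((qU n l m).1 x.1 x.2 + (qU n l m).1 x.2 x.1)} := by
      intro m
      have hd : ((qU n l m).1 x.1 x.2 + (qU n l m).1 x.2 x.1).totalDegree ≤ 1 :=
        (totalDegree_add _ _).trans (max_le (tdX' _).le (tdX' _).le)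
      have e2 : Calc 3 1 (Set.range (X : VU n l → MvPolynomial (VU n l) ℤ))
          {(qU n l m).1 x.1 x.2 + (qU n l m).1 x.2 x.1} :=
        Calc.add ⟨_, rfl⟩ ⟨_, rfl⟩ (hd.trans (by omega))
      refine e2.trans' (Calc.mul (Or.inl ⟨_, rfl⟩) (Or.inr rfl) ((totalDegree_mul _ _).trans ?_))
      have h1 : (X (Sum.inr (some m)) : MvPolynomial (VU n l) ℤ).totalDegree = 1 := tdX' _
      omega
    have e3 := Calc.range e1
    have e4 : Calc 3 (Finset.univ : Finset (Fin (l + 1))).card
        (Set.range (X : VU n l → MvPolynomial (VU n l) ℤ) ∪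
        Set.range fun m : Fin (l + 1) => lU n l m * ((qU n l m).1 x.1 x.2 + (qU n l m).1 x.2 x.1))
        {matL (qU n l) (lU n l) x.1 x.2} := by
      refine Calc.sum Finset.univ (fun m _ => Or.inr ⟨m, rfl⟩) (fun m _ => ?_)
      refine (totalDegree_mul _ _).trans ?_
      have h1 : (lU n l m).totalDegree = 1 := tdX' _
      have h2 : ((qU n l m).1 x.1 x.2 + (qU n l m).1 x.2 x.1).totalDegree ≤ 1 :=
        (totalDegree_add _ _).trans (max_le (tdX' _).le (tdX' _).le)
      omega
    have e5 := e3.trans' e4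
    rw [Fintype.card_fin, Finset.card_univ, Fintype.card_fin] at e5
    exact e5.mono_c (by omega)
  have h2 := Calc.range h1
  -- vector entries
  have h3 : ∀ i : Fin (n + 1), Calc 3 (2 * (l + 1))
      (Set.range (X : VU n l → MvPolynomial (VU n l) ℤ)) {vecL (qU n l) (lU n l) i} := by
    intro i
    have := Calc.dot (M := 3) (K := Set.range (X : VU n l → MvPolynomial (VU n l) ℤ))
      (Finset.univ : Finset (Fin (l + 1))) (f := fun m => lU n l m)
      (g := fun m => (qU n l m).2.1 i) (fun m _ => ⟨_, rfl⟩) (fun m _ => ⟨_, rfl⟩)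
      (fun m _ => (totalDegree_mul _ _).trans ?_)
    · rwa [Finset.card_univ, Fintype.card_fin] at this
    · have h1 : (lU n l m).totalDegree = 1 := tdX' _
      have h2 : ((qU n l m).2.1 i).totalDegree = 1 := tdX' _
      omega
  have h4 := Calc.range h3
  have h5 := h2.union h4
  -- the vector for critical points
  set K₁ : Set (MvPolynomial (VU n l) ℤ) := Set.range X ∪
    ((Set.range fun x : Fin (n + 1) × Fin (n + 1) => matL (qU n l) (lU n l) x.1 x.2) ∪
      Set.range fun i => vecL (qU n l) (lU n l) i) with hK₁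
  have h6 : ∀ i : Fin n, Calc 3 2 K₁ {vecL' (qU n l) (lU n l) (zU n l) i} := by
    intro i
    have e1 : Calc 3 1 K₁ {matL (qU n l) (lU n l) i.castSucc (Fin.last n) * zU n l} := by
      refine Calc.mul (Or.inr (Or.inl ⟨(i.castSucc, Fin.last n), rfl⟩)) (Or.inl ⟨_, rfl⟩)
        ((totalDegree_mul _ _).trans ?_)
      have h1 := td_matLU (l := l) i.castSucc (Fin.last n)
      have h2 : (zU n l).totalDegree = 1 := tdX' _
      omega
    refine e1.trans' (Calc.add (Or.inr rfl)
      (Or.inl (Or.inr (Or.inr ⟨i.castSucc, rfl⟩))) ?_)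
    exact td_vecLU' i
  have h7 := Calc.range h6
  have h8 := h5.trans h7
  rw [Fintype.card_prod, Fintype.card_fin, Fintype.card_fin] at h8
  refine h8.mono le_rfl ?_ subset_rfl ?_
  · nlinarith [Nat.zero_le n, Nat.zero_le l, Nat.zero_le (n * l), Nat.zero_le (n * n * l),
      Nat.zero_le (n * n)]
  · rintro q (hq | hq | hq)
    · exact Or.inl (Or.inl hq)
    · exact Or.inl (Or.inr hq)
    · exact Or.inr hq

end Subst

end Pool.Agent.QC.Elim
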