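import Pool.Agent.QC.Elim.EasyK

/-!
# The coefficients of the two systems are easy
-/

namespace Pool.Agent.QC.Elim

open MvPolynomial

section ConstCoef

variable {n l : ℕ}

lemma coeff_prod_sub {σ : Type*} (δ : Option (Fin (l + 1)) →₀ ℕ) :
    coeff δ ((∏ m, X (some m)) - 1 :
      MvPolynomial (Option (Fin (l + 1))) (MvPolynomial σ ℤ)) ∈
      ({C 0, C 1, C (-1)} : Set (MvPolynomial σ ℤ)) := by
  classical
  have h1 : (∏ m, X (some m) : MvPolynomial (Option (Fin (l + 1))) (MvPolynomial σ ℤ)) =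
      monomial (∑ m, Finsupp.single (some m) 1) 1 := by
    rw [monomial_sum_one]
    rfl
  rw [h1, coeff_sub, coeff_monomial, coeff_one]
  split_ifs <;> simp

end ConstCoef

section CoefC

variable {n l : ℕ}

/-- Substitutions of degree at most three. -/
lemma td_uCm (m : Fin (l + 1)) (i : GV n n) : (uCm n l m i).totalDegree ≤ 3 := by
  rcases i with ⟨i, j⟩ | i | ⟨i, j⟩ | i | i
  · exact (td_matLU (l := l) i.castSucc j.castSucc).trans (by omega)
  · exact td_vecLU' i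
  · exact (tdX' _).le.trans (by omega)
  · exact (tdX' _).le.trans (by omega)
  · fin_cases i
    · exact (tdX' _).le.trans (by omega)
    · exact (tdX' _).le.trans (by omega)
    · exact (tdX' _).le.trans (by omega)

lemma td_uSm (m : Fin (l + 1)) (i : GV (n + 1) n) : (uSm n l m i).totalDegree ≤ 3 := by
  rcases i with ⟨i, j⟩ | i | ⟨i, j⟩ | i | i
  · exact (td_matLU (l := l) i j).trans (by omega)
  · exact (td_vecLU (l := l) i).trans (by omega)
  · exact (tdX' _).le.trans (by omega)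
  · exact (tdX' _).le.trans (by omega)
  · fin_cases i
    · exact (tdX' _).le.trans (by omega)
    · exact (tdX' _).le.trans (by omega)
    · exact (tdX' _).le.trans (by omega)

lemma uCm_mem (m : Fin (l + 1)) (i : GV n n) : uCm n l m i ∈ Set.range X ∪ UU n l := by
  rcases i with ⟨i, j⟩ | i | ⟨i, j⟩ | i | i
  · exact Or.inr (Or.inl ⟨(i.castSucc, j.castSucc), rfl⟩)
  · exact Or.inr (Or.inr (Or.inr ⟨i, rfl⟩))
  · exact Or.inl ⟨_, rfl⟩
  · exact Or.inl ⟨_, rfl⟩
  · fin_cases i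
    · exact Or.inl ⟨_, rfl⟩
    · exact Or.inl ⟨_, rfl⟩
    · exact Or.inl ⟨_, rfl⟩

lemma uSm_mem (m : Fin (l + 1)) (i : GV (n + 1) n) : uSm n l m i ∈ Set.range X ∪ UU n l := by
  rcases i with ⟨i, j⟩ | i | ⟨i, j⟩ | i | i
  · exact Or.inr (Or.inl ⟨(i, j), rfl⟩)
  · exact Or.inr (Or.inr (Or.inl ⟨i, rfl⟩))
  · exact Or.inl ⟨_, rfl⟩
  · exact Or.inl ⟨_, rfl⟩
  · fin_cases i
    · exact Or.inl ⟨_, rfl⟩
    · exact Or.inl ⟨_, rfl⟩
    · exact Or.inl ⟨_, rfl⟩

/-- Transfer of costs from the generic equations. -/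
lemma calc_subst_all {k a : ℕ} (ha : 1 ≤ a) {u : Fin (l + 1) → GV k n → MvPolynomial (VU n l) ℤ}
    {g : Fin (l + 1) → MvPolynomial (GV k n) ℤ}
    (hu : ∀ m i, (u m i).totalDegree ≤ 3) (hu' : ∀ m i, u m i ∈ Set.range X ∪ UU n l)
    (hg : ∀ m, Calc a a (Set.range X) {g m}) (hd : ∀ m, (g m).totalDegree ≤ a) :
    Calc (a * 3) (20 * (n + 1) ^ 2 * (l + 1) + (l + 1) * a) (Set.range X)
      (Set.range fun m => bind₁ (u m) (g m)) ∧
    ∀ p ∈ Set.range fun m => bind₁ (u m) (g m), p.totalDegree ≤ a * 3 := by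
  refine ⟨?_, ?_⟩
  · have h1 : ∀ m, Calc (a * 3) a (Set.range X ∪ UU n l) {bind₁ (u m) (g m)} := by
      intro m
      have := (hg m).subst (hu m) (K' := Set.range X ∪ UU n l) (by
        rintro _ ⟨i, rfl⟩
        rw [bind₁_X_right]
        exact hu' m i)
      rwa [Set.image_singleton] at this
    have h2 := Calc.range h1
    rw [Fintype.card_fin] at h2
    exact ((calc_UU n l).mono_M (by omega)).trans' h2
  · rintro _ ⟨m, rfl⟩
    exact (totalDegree_bind₁_le (hu m) _).trans (Nat.mul_le_mul_right _ (hd m))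

end CoefC

section Easy

lemma bdN_pow2 (A : ℕ) : BdN (fun p => (p.n + 2) ^ A) := (BdN.n.add (BdN.const 2)).pow A

lemma easy_aux {k : ℕ → ℕ} {u : ∀ p : NL, Fin (p.l + 1) → GV (k p.n) p.n →
      MvPolynomial (VU p.n p.l) ℤ} {A : ℕ}
    {g : ∀ p : NL, Fin (p.l + 1) → MvPolynomial (GV (k p.n) p.n) ℤ}
    (hu : ∀ p m i, (u p m i).totalDegree ≤ 3)
    (hu' : ∀ p m i, u p m i ∈ Set.range X ∪ UU p.n p.l)
    (hg : ∀ p m, Calc ((p.n + 2) ^ A) ((p.n + 2) ^ A) (Set.range X) {g p m})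
    (hd : ∀ p m, (g p m).totalDegree ≤ (p.n + 2) ^ A)
    {e : ∀ p : NL, Option (Fin (p.l + 1)) →
      MvPolynomial (Option (Fin (p.l + 1))) (MvPolynomial (Ix p.n p.l) ℤ)}
    (h0 : ∀ p, e p none = (∏ m, X (some m)) - 1)
    (h1 : ∀ p m, e p (some m) = kpoly (bind₁ (u p m) (g p m))) :
    EasyP LL (σ := fun p => Ix p.n p.l) (fun p => {q | ∃ o δ, q = coeff δ (e p o)}) := by
  have hc : Bd LL (fun p => 20 * (p.n + 1) ^ 2 * (p.l + 1) + (p.l + 1) * (p.n + 2) ^ A) := by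
    have b1 : BdN (fun p => 20 * (p.n + 1) ^ 2) :=
      (BdN.const 20).mul ((BdN.n.add (BdN.const 1)).pow 2)
    have b2 : BdLin (fun p => p.l + 1) := BdLin.l.add (BdLin.const 1)
    exact (b1.bd.mul b2.bd).add (b2.bd.mul (bdN_pow2 A).bd)
  have hM : BdN (fun p => (p.n + 2) ^ A * 3) := (bdN_pow2 A).mul (BdN.const 3)
  have hκ : Bd LL (fun p => ((p.n + 2) ^ A * 3 + 1) ^ Fintype.card (Option (Fin (p.l + 1)))) := by
    refine Bd.powNL (hM.add (BdN.const 1)) ?_
    exact (BdLin.l.add (BdLin.const 2)).mono fun p => by simp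
  have key := EasyP.kc (L := LL) (σ := fun p : NL => Ix p.n p.l)
    (κ := fun p : NL => Option (Fin (p.l + 1)))
    (P := fun p => Set.range fun m => bind₁ (u p m) (g p m)) hM.bd hc hκ
    (fun p => (calc_subst_all (Nat.one_le_pow _ _ (by omega)) (hu p) (hu' p) (hg p) (hd p)).1)
    (fun p => (calc_subst_all (Nat.one_le_pow _ _ (by omega)) (hu p) (hu' p) (hg p) (hd p)).2)
  have key2 := (((EasyP.const (L := LL) (σ := fun p : NL => Ix p.n p.l) fun _ => 0).union
    (EasyP.const fun _ => 1)).union (EasyP.const fun _ => -1)).union key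
  refine key2.mono fun p => ?_
  rintro _ ⟨o, δ, rfl⟩
  cases o with
  | none =>
    rw [h0]
    left
    rcases coeff_prod_sub (σ := Ix p.n p.l) δ with h | h | h
    · rw [h]; exact Or.inl (Or.inl rfl)
    · rw [h]; exact Or.inl (Or.inr rfl)
    · rw [h]; exact Or.inr rfl
  | some m =>
    rw [h1]
    right
    exact ⟨_, ⟨m, rfl⟩, δ, rfl⟩

theorem easy_coefC : EasyP LL (σ := fun p => Ix p.n p.l)
    (fun p => {q | ∃ o δ, q = coeff δ ((sysC p.n p.l).e o)}) := by
  obtain ⟨A, hA⟩ := easy_gC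
  refine easy_aux (k := fun n => n) (u := fun p => uCm p.n p.l) (A := A)
    (g := fun p _ => gC (gW p.n p.n) (gb p.n p.n) (gp p.n p.n) (gl p.n p.n 1) (gl p.n p.n 2))
    (fun p m i => td_uCm m i) (fun p m i => uCm_mem m i) (fun p _ => (hA p.n).1)
    (fun p _ => (hA p.n).2 _ rfl) (e := fun p => (sysC p.n p.l).e) (fun p => ?_) (fun p m => ?_)
  · show kpoly (eCU p.n p.l none) = _
    rw [kpoly_eCU]
    rfl
  · show kpoly (eCU p.n p.l (some m)) = _
    rw [bind_gC]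

theorem easy_coefS : EasyP LL (σ := fun p => Ix p.n p.l)
    (fun p => {q | ∃ o δ, q = coeff δ ((sysS p.n p.l).e o)}) := by
  obtain ⟨A, hA⟩ := easy_gS 0
  obtain ⟨B, hB⟩ := easy_gS 1
  have hm : ∀ (p : NL), (p.n + 2) ^ A ≤ (p.n + 2) ^ (A + B) := fun p =>
    Nat.pow_le_pow_right (by omega) (by omega)
  have hm' : ∀ (p : NL), (p.n + 2) ^ B ≤ (p.n + 2) ^ (A + B) := fun p =>
    Nat.pow_le_pow_right (by omega) (by omega)
  refine easy_aux (k := fun n => n + 1) (u := fun p => uSm p.n p.l) (A := A + B)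
    (g := fun p m => gS (if m = 0 then 1 else 0) (gW (p.n + 1) p.n) (gb (p.n + 1) p.n)
      (gp (p.n + 1) p.n) (gl (p.n + 1) p.n 1) (gl (p.n + 1) p.n 2))
    (fun p m i => td_uSm m i) (fun p m i => uSm_mem m i) (fun p m => ?_)
    (fun p m => ?_) (e := fun p => (sysS p.n p.l).e) (fun p => ?_) (fun p m => ?_)
  · split_ifs
    · exact (hB p.n).1.mono (hm' p) (hm' p) subset_rfl subset_rfl
    · exact (hA p.n).1.mono (hm p) (hm p) subset_rfl subset_rfl
  · split_ifs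
    · exact ((hB p.n).2 _ rfl).trans (hm' p)
    · exact ((hA p.n).2 _ rfl).trans (hm p)
  · show kpoly (eSU p.n p.l none) = _
    rw [kpoly_eSU]
    rfl
  · show kpoly (eSU p.n p.l (some m)) = _
    rw [bind_gS]

end Easy

end Pool.Agent.QC.Elim
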