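import Pool.Agent.QC.Elim.EasyS

/-!
# Easy families of coefficients of polynomials in one variable
-/

namespace Pool.Agent.QC

open MvPolynomial Filter Topology

section Deg

variable {σ : Type*}

/-- In some leaf everything new has degree at most `M`. -/
theorem Run.leaf_deg {M c : ℕ} {K : Set (MvPolynomial σ ℤ)} {D : Set (σ → ℝ)}
    {Q : Set (MvPolynomial σ ℤ) → Set (σ → ℝ) → Prop} (h : Run M Q c K D) :
    ∃ K₀ D₀, Q K₀ D₀ ∧ ∀ p ∈ K₀, p ∈ K ∨ p.totalDegree ≤ M := by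
  induction h with
  | ret K₀ D₀ h1 h2 h3 => exact ⟨K₀, D₀, h3, fun p hp => Or.inl (h1 hp)⟩
  | cst z _ ih =>
    obtain ⟨K₀, D₀, h1, h2⟩ := ih
    refine ⟨K₀, D₀, h1, fun p hp => ?_⟩
    rcases h2 p hp with (rfl | h) | h
    · exact Or.inr (by rw [totalDegree_C]; exact Nat.zero_le _)
    · exact Or.inl h
    · exact Or.inr h
  | op h1 h2 _ ih =>
    obtain ⟨K₀, D₀, h3, h4⟩ := ih
    refine ⟨K₀, D₀, h3, fun p hp => ?_⟩
    rcases h4 p hp with (rfl | h) | h
    · exact Or.inr h2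
    · exact Or.inl h
    · exact Or.inr h
  | sgn h1 _ _ _ ih1 _ _ => exact ih1

theorem Calc.deg {M c : ℕ} {K P : Set (MvPolynomial σ ℤ)} (h : Calc M c K P)
    (hK : ∀ p ∈ K, p.totalDegree ≤ M) : ∀ p ∈ P, p.totalDegree ≤ M := by
  obtain ⟨K₀, D₀, h1, h2⟩ := (h.to_run ∅).leaf_deg
  intro p hp
  rcases h2 p (h1 hp) with h | h
  · exact hK p h
  · exact h

/-- Finitely many sets of polynomials. -/
theorem Calc.iUnion {M c : ℕ} {K : Set (MvPolynomial σ ℤ)} {ι : Type*} [Fintype ι]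
    {P : ι → Set (MvPolynomial σ ℤ)} (h : ∀ i, Calc M c K (P i)) :
    Calc M (Fintype.card ι * c) K (⋃ i, P i) := by
  classical
  have key : ∀ s : Finset ι, Calc M (s.card * c) K (⋃ i ∈ s, P i) := by
    intro s
    induction s using Finset.induction_on with
    | empty => simpa using Calc.refl (M := M) (Set.empty_subset K)
    | @insert a s ha ih =>
      rw [Finset.card_insert_of_notMem ha, Nat.add_mul, one_mul]
      refine (ih.union (h a)).mono_P ?_
      intro p hp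
      simp only [Set.mem_iUnion, Finset.mem_insert] at hp
      obtain ⟨i, rfl | hi, hp⟩ := hp
      · exact Or.inr hp
      · exact Or.inl (Set.mem_iUnion₂.2 ⟨i, hi, hp⟩)
  have := key Finset.univ
  rw [Finset.card_univ] at this
  simpa using this

end Deg

section EasyP

variable {ι : Type*} {L : ι → ℕ} {σ : ι → Type*}

/-- Degrees need not be checked separately. -/
theorem EasyP.of_calc {P : ∀ i, Set (MvPolynomial (σ i) ℤ)} {M c : ι → ℕ}
    (hM : Bd L M) (hc : Bd L c)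
    (h : ∀ i, Calc (M i) (c i) (Set.range (X : σ i → MvPolynomial (σ i) ℤ)) (P i)) :
    EasyP L P := by
  refine EasyP.of_bd (M := fun i => M i + 1) (hM.add (Bd.const 1)) hc
    (fun i => (h i).mono_M (Nat.le_succ _)) (fun i => ?_)
  refine ((h i).mono_M (Nat.le_succ _)).deg ?_
  rintro _ ⟨j, rfl⟩
  rw [totalDegree_X]
  exact Nat.succ_le_succ (Nat.zero_le _)

/-- The chain rule without degrees. -/
theorem EasyP.chain' {P P' : ∀ i, Set (MvPolynomial (σ i) ℤ)} (h : EasyP L P)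
    (h' : ∀ a : ι → ℕ, Bd L a → (∀ i, ∀ p ∈ P i, p.totalDegree ≤ a i) →
      ∃ M c : ι → ℕ, Bd L M ∧ Bd L c ∧ ∀ i, Calc (M i) (c i) (P i) (P' i)) : EasyP L P' := by
  obtain ⟨a, ha, ha1, h1, h2⟩ := h.bd
  obtain ⟨M, c, hM, hc, h3⟩ := h' a ha h2
  refine EasyP.of_calc (M := fun i => a i + M i) (c := fun i => a i + c i) (ha.add hM)
    (ha.add hc) (fun i => ?_)
  exact ((h1 i).mono_M (Nat.le_add_right _ _)).trans'
    (((h3 i).mono_M (Nat.le_add_left _ _)).mono_K Set.subset_union_right)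

theorem EasyP.iUnion {κ : ι → Type*} [∀ i, Fintype (κ i)]
    {P : ∀ i, κ i → Set (MvPolynomial (σ i) ℤ)} (hκ : Bd L (fun i => Fintype.card (κ i)))
    (h : EasyP (fun p : Σ i, κ i => L p.1) (σ := fun p => σ p.1) (fun p => P p.1 p.2)) :
    EasyP L (fun i => ⋃ j, P i j) := by
  obtain ⟨A, hA⟩ := h
  refine EasyP.of_calc (M := fun i => (L i + 2) ^ A)
    (c := fun i => Fintype.card (κ i) * (L i + 2) ^ A) (Bd.powA A) (hκ.mul (Bd.powA A))
    (fun i => Calc.iUnion fun j => (hA ⟨i, j⟩).1)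

/-- Integer linear combinations of polynomials of an easy family. -/
theorem EasyP.lincomb {P : ∀ i, Set (MvPolynomial (σ i) ℤ)} (hP : EasyP L P)
    {κ τ : ι → Type*} [∀ i, Fintype (κ i)] [∀ i, Fintype (τ i)]
    (hκ : Bd L (fun i => Fintype.card (κ i))) (hτ : Bd L (fun i => Fintype.card (τ i)))
    {f : ∀ i, κ i → MvPolynomial (σ i) ℤ}
    (hf : ∀ i j, ∃ (z : τ i → ℤ) (g : τ i → MvPolynomial (σ i) ℤ),
      (∀ h, g h ∈ P i) ∧ f i j = ∑ h, C (z h) * g h) :
    EasyP L (fun i => Set.range (f i)) := by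
  refine hP.chain' fun a ha h2 => ⟨a, fun i => Fintype.card (κ i) * (2 * Fintype.card (τ i)), ha,
    hκ.mul ((Bd.const 2).mul hτ), fun i => Calc.range fun j => ?_⟩
  obtain ⟨z, g, hg, hz⟩ := hf i j
  rw [hz]
  exact Elim.calc_lincomb z hg fun h => h2 i _ (hg h)

/-- The coefficients of polynomials in one variable. -/
theorem EasyP.coeffs {P : ∀ i, Set (MvPolynomial (σ i) ℤ)} (hP : EasyP L P)
    {τ : ι → Type*} [∀ i, Fintype (τ i)] (hτ : Bd L (fun i => Fintype.card (τ i)))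
    {B : ∀ i, Polynomial (MvPolynomial (σ i) ℤ)} (hB : Bd L (fun i => (B i).natDegree))
    (hf : ∀ i m, ∃ (z : τ i → ℤ) (g : τ i → MvPolynomial (σ i) ℤ),
      (∀ h, g h ∈ P i) ∧ (B i).coeff m = ∑ h, C (z h) * g h) :
    EasyP L (fun i => Set.range (B i).coeff) := by
  have h1 := EasyP.lincomb (κ := fun i => Fin ((B i).natDegree + 2)) hP
    ((hB.add (Bd.const 2)).mono fun i => by simp) hτ (f := fun i m => (B i).coeff m)
    (fun i m => hf i m)
  refine h1.mono fun i => ?_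
  rintro _ ⟨m, rfl⟩
  by_cases hm : m < (B i).natDegree + 2
  · exact ⟨⟨m, hm⟩, rfl⟩
  · refine ⟨⟨(B i).natDegree + 1, by omega⟩, ?_⟩
    simp only
    rw [Polynomial.coeff_eq_zero_of_natDegree_lt (by omega),
      Polynomial.coeff_eq_zero_of_natDegree_lt (by omega)]

end EasyP

namespace Elim

section RZ

variable {σ κ : Type*} [Fintype κ] [DecidableEq κ]

/-- The coefficients of `rz`. -/
theorem Sq.calc_rz (S : Sq σ κ) {M m : ℕ} {K : Set (MvPolynomial σ ℤ)}
    (hK : ∀ j δ, coeff δ (S.e j) ∈ K) (hd : ∀ j δ, (coeff δ (S.e j)).totalDegree ≤ m)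
    (hM : (S.size + 1) * (m + 1) ≤ M) (z : κ) :
    Calc M (2 * Fintype.card κ * S.size ^ 2 + 4 * (S.size + 1) ^ 4 * (3 * (M + 1) ^ 2)) K
      (Set.range (S.rz z).coeff) := by
  have hA : S.penA (fun k => (((Pi.single z 1 : κ → ℤ) k : ℤ) : MvPolynomial σ ℤ)) =
      matA (MvPolynomial σ ℤ) S.N z := by
    rw [Sq.penA, Finset.sum_eq_single z]
    · simp
    · intro k _ hk
      simp [Pi.single_eq_of_ne hk]
    · intro h
      exact absurd (Finset.mem_univ z) h
  have hB : S.penB (RingHom.id _)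
      (fun k => (((Pi.single z 1 : κ → ℤ) k : ℤ) : MvPolynomial σ ℤ)) = matB S.N S.e z := by
    rw [Sq.penB, Finset.sum_eq_single z]
    · ext b c
      simp
    · intro k _ hk
      simp [Pi.single_eq_of_ne hk]
    · intro h
      exact absurd (Finset.mem_univ z) h
  have h1 := S.calc_atMu hK hd hM (Pi.single z 1)
    (pchi (matA (MvPolynomial σ ℤ) S.N z) (matB S.N S.e z)).natDegree
  rw [hA, hB] at h1
  exact h1

/-- The coefficients of `r(mu, Z)`. -/
theorem Sq.calc_atMu' (S : Sq σ κ) {M m : ℕ} {K : Set (MvPolynomial σ ℤ)}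
    (hK : ∀ j δ, coeff δ (S.e j) ∈ K) (hd : ∀ j δ, (coeff δ (S.e j)).totalDegree ≤ m)
    (hM : (S.size + 1) * (m + 1) ≤ M) (mu : κ → ℤ) :
    Calc M (2 * Fintype.card κ * S.size ^ 2 + 4 * (S.size + 1) ^ 4 * (3 * (M + 1) ^ 2)) K
      (Set.range (atMu S.rr mu).coeff) := by
  rw [S.atMu_rr]
  exact S.calc_atMu hK hd hM mu _

lemma Sq.natDegree_atMu (S : Sq σ κ) (mu : κ → ℤ) : (atMu S.rr mu).natDegree ≤ S.size :=
  Polynomial.natDegree_map_le.trans S.natDegree_rr

end RZ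

section Final

/-- The cost function. -/
def cst (s k M : ℕ) : ℕ := 2 * k * s ^ 2 + 4 * (s + 1) ^ 4 * (3 * (M + 1) ^ 2)

lemma bd_cst {ι : Type*} {L s k M : ι → ℕ} (hs : Bd L s) (hk : Bd L k) (hM : Bd L M) :
    Bd L (fun i => cst (s i) (k i) (M i)) :=
  (((Bd.const 2).mul hk).mul (hs.pow 2)).add (((Bd.const 4).mul
    ((hs.add (Bd.const 1)).pow 4)).mul ((Bd.const 3).mul
      ((hM.add (Bd.const 1)).pow 2)))

lemma bd_opt : Bd LL (fun p => Fintype.card (Option (Fin (p.l + 1)))) :=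
  (bd_l.add (Bd.const 2)).mono fun p => by rw [card_opt]

/-- The resolvent polynomial for critical points is easy. -/
theorem easy_rZ' : EasyP LL (σ := fun p => Ix p.n p.l)
    (fun p => Set.range ((sysC p.n p.l).rz none).coeff) := by
  refine easy_coefC.chain' fun a ha h2 => ?_
  have hM : Bd LL (fun p => ((sysC p.n p.l).size + 1) * (a p + 1)) :=
    (bd_sizeC.add (Bd.const 1)).mul (ha.add (Bd.const 1))
  exact ⟨_, _, hM, bd_cst bd_sizeC bd_opt hM, fun p =>
    (sysC p.n p.l).calc_rz (K := {q | ∃ o δ, q = coeff δ ((sysC p.n p.l).e o)})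
      (fun j δ => ⟨j, δ, rfl⟩) (fun j δ => h2 p _ ⟨j, δ, rfl⟩) le_rfl none⟩

theorem bd_rZ' : Bd LL (fun p => ((sysC p.n p.l).rz none).natDegree) :=
  bd_sizeC.mono fun p => (sysC p.n p.l).natDegree_rz none

variable {ι : Type*} (P : ι → NL)

/-- The resolvent polynomials for integer vectors `mu` are uniformly easy. -/
theorem easy_atMu (mu : ∀ i, Option (Fin ((P i).l + 1)) → ℤ) :
    EasyP (fun i => LL (P i)) (σ := fun i => Ix (P i).n (P i).l)
      (fun i => Set.range (atMu (sysS (P i).n (P i).l).rr (mu i)).coeff) := by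
  refine (easy_coefS.comap P).chain' fun a ha h2 => ?_
  have hs := bd_sizeS.comap P
  have hM : Bd (fun i => LL (P i)) (fun i => ((sysS (P i).n (P i).l).size + 1) * (a i + 1)) :=
    (hs.add (Bd.const 1)).mul (ha.add (Bd.const 1))
  exact ⟨_, _, hM, bd_cst hs (bd_opt.comap P) hM, fun i =>
    (sysS (P i).n (P i).l).calc_atMu' (K := {q | ∃ o δ, q = coeff δ ((sysS (P i).n (P i).l).e o)})
      (fun j δ => ⟨j, δ, rfl⟩) (fun j δ => h2 i _ ⟨j, δ, rfl⟩) le_rfl (mu i)⟩

theorem bd_atMu (mu : ∀ i, Option (Fin ((P i).l + 1)) → ℤ) :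
    Bd (fun i => LL (P i)) (fun i => (atMu (sysS (P i).n (P i).l).rr (mu i)).natDegree) :=
  (bd_sizeS.comap P).mono fun i => (sysS (P i).n (P i).l).natDegree_atMu (mu i)

/-- The denominators. -/
theorem easy_denG (mu : ∀ i, Option (Fin ((P i).l + 1)) → ℤ) (k : ι → ℕ) (Li : ι → ℤ) :
    EasyP (fun i => LL (P i)) (σ := fun i => Ix (P i).n (P i).l)
      (fun i => Set.range (denG (sysS (P i).n (P i).l).rr (Li i) (mu i) (k i)).coeff) ∧
    Bd (fun i => LL (P i))
      (fun i => (denG (sysS (P i).n (P i).l).rr (Li i) (mu i) (k i)).natDegree) := by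
  have hB : Bd (fun i => LL (P i))
      (fun i => (denG (sysS (P i).n (P i).l).rr (Li i) (mu i) (k i)).natDegree) := by
    refine (bd_sizeS.comap P).mono fun i => ?_
    refine (Polynomial.natDegree_C_mul_le _ _).trans ?_
    refine (Polynomial.natDegree_iterate_derivative _ _).trans ?_
    exact (Nat.sub_le _ _).trans ((sysS (P i).n (P i).l).natDegree_atMu (mu i))
  refine ⟨?_, hB⟩
  refine EasyP.coeffs (easy_atMu P mu) (τ := fun _ => Unit) ((Bd.const 1).mono fun i => by simp)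
    hB (fun i m => ?_)
  refine ⟨fun _ => Li i * ((m + k i).descFactorial (k i) : ℤ),
    fun _ => (atMu (sysS (P i).n (P i).l).rr (mu i)).coeff (m + k i), fun _ => ⟨_, rfl⟩, ?_⟩
  rw [denG, Polynomial.coeff_C_mul, Polynomial.coeff_iterate_derivative]
  simp [mul_assoc, nsmul_eq_mul]

end Final

end Elim

end Pool.Agent.QC
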