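import Pool.Agent.QC.Elim.Ez

/-!
# The numerators are easy
-/

namespace Pool.Agent.QC.Elim

open MvPolynomial Filter Topology

section

variable {σ κ : Type*} [DecidableEq κ]

lemma coeff_numN (rr : Polynomial (MvPolynomial κ (MvPolynomial σ ℤ))) (M : ℕ) (c : ℕ → ℤ)
    (mu : κ → ℤ) (k : ℕ) (j : κ) (m : ℕ) :
    (numN rr M c mu k j).coeff m = ∑ h : Fin (M + 1),
      C (-(c h) * ((m + (k - 1)).descFactorial (k - 1) : ℤ)) *
        (atMu rr (mu + Pi.single j (((h : ℕ) : ℤ)))).coeff (m + (k - 1)) := by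
  rw [numN, Polynomial.coeff_neg, Polynomial.finsetSum_coeff, ← Finset.sum_neg_distrib,
    Finset.sum_range]
  refine Finset.sum_congr rfl fun h _ => ?_
  rw [Polynomial.coeff_C_mul, Polynomial.coeff_iterate_derivative]
  simp [mul_assoc, nsmul_eq_mul]

lemma natDegree_numN (rr : Polynomial (MvPolynomial κ (MvPolynomial σ ℤ))) (M : ℕ) (c : ℕ → ℤ)
    (mu : κ → ℤ) (k : ℕ) (j : κ) : (numN rr M c mu k j).natDegree ≤ rr.natDegree := by
  rw [numN, Polynomial.natDegree_neg]
  refine Polynomial.natDegree_sum_le_of_forall_le _ _ fun h _ => ?_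
  refine (Polynomial.natDegree_C_mul_le _ _).trans ?_
  refine (Polynomial.natDegree_iterate_derivative _ _).trans ?_
  exact (Nat.sub_le _ _).trans Polynomial.natDegree_map_le

end

section

variable {ι : Type*} (P : ι → NL)

lemma bd_sizeS1 : Bd (fun i => LL (P i))
    (fun i => Fintype.card (Fin ((sysS (P i).n (P i).l).size + 1))) :=
  ((bd_sizeS.comap P).add (Bd.const 1)).mono fun i => by rw [Fintype.card_fin]

/-- The family of all shifted resolvents. -/
def shF (mu : ∀ i, Option (Fin ((P i).l + 1)) → ℤ) (o : ∀ i, Option (Fin ((P i).l + 1)))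
    (i : ι) (h : Fin ((sysS (P i).n (P i).l).size + 1)) :
    Set (MvPolynomial (Ix (P i).n (P i).l) ℤ) :=
  Set.range (atMu (sysS (P i).n (P i).l).rr (mu i + Pi.single (o i) (((h : ℕ) : ℤ)))).coeff

lemma easy_shF (mu : ∀ i, Option (Fin ((P i).l + 1)) → ℤ)
    (o : ∀ i, Option (Fin ((P i).l + 1))) :
    EasyP (fun i => LL (P i)) (σ := fun i => Ix (P i).n (P i).l)
      (fun i => ⋃ h, shF P mu o i h) := by
  let P' : (Σ i, Fin ((sysS (P i).n (P i).l).size + 1)) → NL := fun x => P x.1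
  let mu' : ∀ x : (Σ i, Fin ((sysS (P i).n (P i).l).size + 1)), Option (Fin ((P' x).l + 1)) → ℤ :=
    fun x => mu x.1 + Pi.single (o x.1) (((x.2 : ℕ) : ℤ))
  have h1 := easy_atMu P' mu'
  have h2 : EasyP (fun x : Σ i, Fin ((sysS (P i).n (P i).l).size + 1) => LL (P x.1))
      (σ := fun x => Ix (P x.1).n (P x.1).l) (fun x => shF P mu o x.1 x.2) := by
    refine h1.mono ?_
    rintro x _ ⟨j, rfl⟩
    exact ⟨j, rfl⟩
  exact EasyP.iUnion (bd_sizeS1 P) h2

/-- The numerators. -/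
theorem easy_numN (mu : ∀ i, Option (Fin ((P i).l + 1)) → ℤ) (k : ι → ℕ) (c : ι → ℕ → ℤ)
    (o : ∀ i, Option (Fin ((P i).l + 1))) :
    EasyP (fun i => LL (P i)) (σ := fun i => Ix (P i).n (P i).l)
      (fun i => Set.range (numN (sysS (P i).n (P i).l).rr (sysS (P i).n (P i).l).size (c i)
        (mu i) (k i) (o i)).coeff) ∧
    Bd (fun i => LL (P i))
      (fun i => (numN (sysS (P i).n (P i).l).rr (sysS (P i).n (P i).l).size (c i)
        (mu i) (k i) (o i)).natDegree) := by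
  have hB : Bd (fun i => LL (P i))
      (fun i => (numN (sysS (P i).n (P i).l).rr (sysS (P i).n (P i).l).size (c i)
        (mu i) (k i) (o i)).natDegree) :=
    (bd_sizeS.comap P).mono fun i =>
      (natDegree_numN _ _ _ _ _ _).trans (sysS (P i).n (P i).l).natDegree_rr
  refine ⟨?_, hB⟩
  refine EasyP.coeffs (easy_shF P mu o) (bd_sizeS1 P) hB (fun i m => ?_)
  exact ⟨_, _, fun h => Set.mem_iUnion.2 ⟨h, _, rfl⟩, coeff_numN _ _ _ _ _ _ _⟩

end

end Pool.Agent.QC.Elim
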