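import Pool.Agent.QC.Elim.HS

/-!
# Coordinates from a pencil of matrices

`A_1, ..., A_n` are `M x M` matrices with a common eigenvector for the eigenvalues
`delta v_1, ..., delta v_n`.  The polynomial `r(mu, T) = det(delta T - sum mu_j A_j)` has the root
`T_v = mu . v` for all `mu`; if its generic multiplicity is `k`, then
`(D^{k-1} d_{mu_j} r) + v_j (D^k r) = 0` at `(mu, mu . v)`, `D = d/dT`.
The derivative in `mu_j` is expressed by the values at `mu + h e_j`, `h = 0, ..., M`.
-/

namespace Pool.Agent.QC.Elim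

open MvPolynomial

/-- Integer formula for the derivative at zero of a polynomial of degree at most `M`. -/
theorem interp (M : ℕ) : ∃ (L : ℤ) (c : ℕ → ℤ), L ≠ 0 ∧
    ∀ b : Polynomial ℝ, b.natDegree ≤ M →
      (L : ℝ) * (Polynomial.derivative b).eval 0 =
        ∑ h ∈ Finset.range (M + 1), (c h : ℝ) * b.eval (h : ℝ) := by
  classical
  let V : Matrix (Fin (M + 1)) (Fin (M + 1)) ℚ := Matrix.vandermonde fun i => (i : ℚ)
  have hV : V.det ≠ 0 := by
    rw [Matrix.det_vandermonde_ne_zero_iff]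
    intro i j hij
    have : (i : ℚ) = (j : ℚ) := hij
    exact Fin.ext (by exact_mod_cast this)
  let e : Fin (M + 1) → ℚ := fun i => if (i : ℕ) = 1 then 1 else 0
  -- `x V^T`-equation in the form `sum_h y_h h^i = e_i`
  obtain ⟨y, hy⟩ : ∃ y : Fin (M + 1) → ℚ, ∀ i : Fin (M + 1),
      ∑ h : Fin (M + 1), y h * (h : ℚ) ^ (i : ℕ) = e i := by
    refine ⟨Matrix.vecMul e V⁻¹, fun i => ?_⟩
    have h1 : Matrix.vecMul (Matrix.vecMul e V⁻¹) V = e := by
      rw [Matrix.vecMul_vecMul, Matrix.nonsing_inv_mul V (isUnit_iff_ne_zero.2 hV),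
        Matrix.vecMul_one]
    have h2 := congrFun h1 i
    rw [Matrix.vecMul, dotProduct] at h2
    simpa [V, Matrix.vandermonde_apply] using h2
  let L : ℕ := ∏ h, (y h).den
  have hL : L ≠ 0 := Finset.prod_ne_zero_iff.2 fun h _ => (y h).den_ne_zero
  have hc : ∀ h : Fin (M + 1), ∃ z : ℤ, (z : ℚ) = (L : ℚ) * y h := by
    intro h
    have h1 : (y h).den ∣ L := Finset.dvd_prod_of_mem _ (Finset.mem_univ h)
    obtain ⟨q, hq⟩ := h1
    refine ⟨q * (y h).num, ?_⟩
    rw [hq]
    push_cast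
    have h2 := Rat.mul_den_eq_num (y h)
    calc (q : ℚ) * ((y h).num : ℚ) = q * (y h * (y h).den) := by rw [h2]
      _ = _ := by ring
  choose z hz using hc
  refine ⟨L, fun h => if hh : h < M + 1 then z ⟨h, hh⟩ else 0, by exact_mod_cast hL, ?_⟩
  intro b hb
  have h1 : ∑ h ∈ Finset.range (M + 1),
      (((if hh : h < M + 1 then z ⟨h, hh⟩ else 0 : ℤ)) : ℝ) * b.eval (h : ℝ) =
      ∑ h : Fin (M + 1), (z h : ℝ) * b.eval (h : ℝ) := by
    rw [← Fin.sum_univ_eq_sum_range
      (fun h => (((if hh : h < M + 1 then z ⟨h, hh⟩ else 0 : ℤ)) : ℝ) * b.eval (h : ℝ)) (M + 1)]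
    refine Finset.sum_congr rfl fun h _ => ?_
    rw [dif_pos h.2]
  rw [h1]
  have h2 : ∀ h : Fin (M + 1), b.eval (h : ℝ) =
      ∑ i : Fin (M + 1), b.coeff i * (h : ℝ) ^ (i : ℕ) := by
    intro h
    rw [Polynomial.eval_eq_sum_range' (Nat.lt_succ_of_le hb),
      ← Fin.sum_univ_eq_sum_range (fun i => b.coeff i * ((h : ℕ) : ℝ) ^ i) (M + 1)]
  have h3 : ∀ i : Fin (M + 1), ∑ h : Fin (M + 1), (z h : ℝ) * (h : ℝ) ^ (i : ℕ) =
      (L : ℝ) * (if (i : ℕ) = 1 then 1 else 0) := by
    intro i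
    have h4 := congrArg (fun q : ℚ => (L : ℚ) * q) (hy i)
    simp only [Finset.mul_sum, ← mul_assoc, ← hz] at h4
    have h5 := congrArg (fun q : ℚ => (q : ℝ)) h4
    simp only [e] at h5
    push_cast at h5
    rw [h5]
    split_ifs <;> simp
  have h4 : (Polynomial.derivative b).eval 0 =
      ∑ i : Fin (M + 1), b.coeff i * (if (i : ℕ) = 1 then 1 else 0) := by
    rw [← Polynomial.coeff_zero_eq_eval_zero, Polynomial.coeff_derivative]
    rw [Fin.sum_univ_eq_sum_range (fun i => b.coeff i * (if i = 1 then (1 : ℝ) else 0)) (M + 1)]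
    simp only [mul_ite, mul_one, mul_zero, Nat.cast_zero, zero_add]
    rw [Finset.sum_ite_eq' (Finset.range (M + 1)) 1 (fun i => b.coeff i)]
    split_ifs with h5
    · rfl
    · refine Polynomial.coeff_eq_zero_of_natDegree_lt ?_
      rw [Finset.mem_range] at h5
      omega
  rw [h4, Finset.mul_sum]
  simp only [h2, Finset.mul_sum]
  rw [Finset.sum_comm]
  refine Finset.sum_congr rfl fun i _ => ?_
  have h5 := h3 i
  calc (L : ℝ) * (b.coeff i * (if (i : ℕ) = 1 then 1 else 0)) =
        b.coeff i * ((L : ℝ) * (if (i : ℕ) = 1 then 1 else 0)) := by ring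
    _ = b.coeff i * ∑ h : Fin (M + 1), (z h : ℝ) * (h : ℝ) ^ (i : ℕ) := by rw [h5]
    _ = _ := by
      rw [Finset.mul_sum]
      exact Finset.sum_congr rfl fun h _ => by ring

/-- Differentiation of `phi(eps, t(eps))` at `eps = 0`. -/
theorem chain {M : ℕ} {L : ℤ} {c : ℕ → ℤ}
    (hLc : ∀ b : Polynomial ℝ, b.natDegree ≤ M →
      (L : ℝ) * (Polynomial.derivative b).eval 0 =
        ∑ h ∈ Finset.range (M + 1), (c h : ℝ) * b.eval (h : ℝ))
    (φ : Polynomial (Polynomial ℝ)) (hφ : ∀ i, (φ.coeff i).natDegree ≤ M) (t : Polynomial ℝ) :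
    (L : ℝ) * (Polynomial.derivative (φ.eval t)).eval 0 =
      ∑ h ∈ Finset.range (M + 1), (c h : ℝ) *
        (φ.map (Polynomial.evalRingHom (h : ℝ))).eval (t.eval 0) +
      (L : ℝ) * ((Polynomial.derivative φ).map (Polynomial.evalRingHom (0 : ℝ))).eval (t.eval 0) *
        (Polynomial.derivative t).eval 0 := by
  have key : ∀ (n : ℕ), (L : ℝ) * (Polynomial.derivative
      ((Polynomial.C (φ.coeff n) * Polynomial.X ^ n).eval t)).eval 0 =
      ∑ h ∈ Finset.range (M + 1), (c h : ℝ) *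
        ((Polynomial.C (φ.coeff n) * Polynomial.X ^ n).map
          (Polynomial.evalRingHom (h : ℝ))).eval (t.eval 0) +
      (L : ℝ) * ((Polynomial.derivative (Polynomial.C (φ.coeff n) * Polynomial.X ^ n)).map
        (Polynomial.evalRingHom (0 : ℝ))).eval (t.eval 0) *
        (Polynomial.derivative t).eval 0 := by
    intro n
    have h1 := hLc _ (hφ n)
    simp only [Polynomial.eval_mul, Polynomial.eval_C, Polynomial.eval_pow, Polynomial.eval_X,
      Polynomial.derivative_mul, Polynomial.derivative_C, Polynomial.derivative_X,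
      Polynomial.derivative_pow, zero_mul, zero_add, Polynomial.map_mul, Polynomial.map_C,
      Polynomial.map_pow, Polynomial.map_X, Polynomial.coe_evalRingHom, Polynomial.eval_add,
      Polynomial.eval_natCast, Polynomial.map_one, Polynomial.eval_one, mul_one]
    have h2 : ∑ x ∈ Finset.range (M + 1), (c x : ℝ) *
        (Polynomial.eval (x : ℝ) (φ.coeff n) * Polynomial.eval 0 t ^ n) =
        (∑ x ∈ Finset.range (M + 1), (c x : ℝ) *
        Polynomial.eval (x : ℝ) (φ.coeff n)) * Polynomial.eval 0 t ^ n := by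
      rw [Finset.sum_mul]
      exact Finset.sum_congr rfl fun _ _ => by ring
    rw [h2, ← h1]
    ring
  have hsum := φ.as_sum_range_C_mul_X_pow
  set s := Finset.range (φ.natDegree + 1)
  have e1 : φ.eval t = ∑ n ∈ s, (Polynomial.C (φ.coeff n) * Polynomial.X ^ n).eval t := by
    conv_lhs => rw [hsum]
    rw [Polynomial.eval_finsetSum]
  have e2 : ∀ h : ℝ, (φ.map (Polynomial.evalRingHom h)).eval (t.eval 0) =
      ∑ n ∈ s, ((Polynomial.C (φ.coeff n) * Polynomial.X ^ n).map
          (Polynomial.evalRingHom h)).eval (t.eval 0) := by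
    intro h
    conv_lhs => rw [hsum]
    rw [Polynomial.map_sum, Polynomial.eval_finsetSum]
  have e3 : ((Polynomial.derivative φ).map (Polynomial.evalRingHom (0 : ℝ))).eval (t.eval 0) =
      ∑ n ∈ s, ((Polynomial.derivative (Polynomial.C (φ.coeff n) * Polynomial.X ^ n)).map
        (Polynomial.evalRingHom (0 : ℝ))).eval (t.eval 0) := by
    conv_lhs => rw [hsum]
    rw [Polynomial.derivative_sum, Polynomial.map_sum, Polynomial.eval_finsetSum]
  rw [e1, e3, Polynomial.derivative_sum, Polynomial.eval_finsetSum, Finset.mul_sum]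
  simp only [e2, Finset.mul_sum, Finset.sum_mul]
  rw [Finset.sum_comm, ← Finset.sum_add_distrib]
  refine Finset.sum_congr rfl fun n _ => ?_
  rw [key n]

end Pool.Agent.QC.Elim
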