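import Mathlib

/-!
# Generic number of distinct roots; continuity of roots
-/

namespace Pool.Agent.QC.Elim

open MvPolynomial Filter Topology

/-- For a nonzero polynomial in `Z` over polynomials in the parameters, the number of distinct
roots is constant outside a hypersurface. -/
theorem generic_roots {σ : Type*} (r : Polynomial (MvPolynomial σ ℂ)) (hr : r ≠ 0) :
    ∃ (M : ℕ) (δ : MvPolynomial σ ℂ), δ ≠ 0 ∧ ∀ p : σ → ℂ, eval p δ ≠ 0 →
      r.map (eval p) ≠ 0 ∧ (r.map (eval p)).natDegree = r.natDegree ∧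
      {z | (r.map (eval p)).eval z = 0}.ncard = M := by
  classical
  let A := MvPolynomial σ ℂ
  let K := FractionRing A
  have hinj : Function.Injective (algebraMap A K) := IsFractionRing.injective A K
  have : CharZero K := charZero_of_injective_algebraMap hinj
  have hinjP : Function.Injective (Polynomial.map (algebraMap A K)) :=
    Polynomial.map_injective _ hinj
  set rK : Polynomial K := r.map (algebraMap A K) with hrK
  have hrK0 : rK ≠ 0 := fun h => hr (hinjP (by rw [← hrK, h, Polynomial.map_zero]))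
  -- the squarefree part
  set ρ := UniqueFactorizationMonoid.radical rK with hρ
  obtain ⟨S, hS⟩ := UniqueFactorizationMonoid.radical_dvd_self (a := rK)
  obtain ⟨N, T, hT⟩ := UniqueFactorizationMonoid.exists_dvd_radical_self_pow hrK0
  have hsep : ρ.Separable :=
    PerfectField.separable_iff_squarefree.2 UniqueFactorizationMonoid.squarefree_radical
  obtain ⟨a, b, hab⟩ := hsep
  -- clearing denominators
  have clear : ∀ f : Polynomial K, ∃ (F : Polynomial A) (c : A), c ≠ 0 ∧
      F.map (algebraMap A K) = Polynomial.C (algebraMap A K c) * f := by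
    intro f
    obtain ⟨c, hc, h⟩ := IsLocalization.integerNormalization_spec (nonZeroDivisors A) f
    refine ⟨IsLocalization.integerNormalization (nonZeroDivisors A) f, c,
      nonZeroDivisors.ne_zero hc, ?_⟩
    rw [h, Algebra.smul_def]
    rfl
  obtain ⟨R, c1, hc1, hR⟩ := clear ρ
  obtain ⟨S', c2, hc2, hS'⟩ := clear S
  obtain ⟨T', c3, hc3, hT'⟩ := clear T
  obtain ⟨a', c4, hc4, ha'⟩ := clear a
  obtain ⟨b', c5, hc5, hb'⟩ := clear b
  -- identities over A
  have e1 : R * S' = Polynomial.C (c1 * c2) * r := by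
    apply hinjP
    simp only [Polynomial.map_mul, Polynomial.map_C, hR, hS', ← hrK, map_mul]
    rw [hS]
    ring
  have e2 : Polynomial.C (c1 ^ N) * (r * T') = Polynomial.C c3 * R ^ N := by
    apply hinjP
    simp only [Polynomial.map_mul, Polynomial.map_C, Polynomial.map_pow, hR, hT', ← hrK, map_mul,
      map_pow, mul_pow]
    rw [← hρ] at hT
    rw [hT]
    ring
  have e3 : Polynomial.C c5 * (a' * R) + Polynomial.C c4 * (b' * Polynomial.derivative R) =
      Polynomial.C (c1 * c4 * c5) := by
    apply hinjP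
    have hR' : (Polynomial.derivative R).map (algebraMap A K) =
        Polynomial.C (algebraMap A K c1) * Polynomial.derivative ρ := by
      rw [← Polynomial.derivative_map, hR, Polynomial.derivative_C_mul]
    simp only [Polynomial.map_mul, Polynomial.map_C, Polynomial.map_add, hR, hR', ha', hb',
      map_mul]
    linear_combination Polynomial.C (algebraMap A K c1) * Polynomial.C (algebraMap A K c4) *
      Polynomial.C (algebraMap A K c5) * hab
  have hR0 : R ≠ 0 := by
    intro h
    have h1 := hR
    rw [h, Polynomial.map_zero] at h1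
    have h2 : ρ ≠ 0 := UniqueFactorizationMonoid.radical_ne_zero
    have h3 : algebraMap A K c1 ≠ 0 := fun h4 => hc1 (hinj (by rw [h4, map_zero]))
    exact mul_ne_zero (Polynomial.C_ne_zero.2 h3) h2 h1.symm
  refine ⟨R.natDegree, c1 * c2 * c3 * c4 * c5 * R.leadingCoeff * r.leadingCoeff, ?_, ?_⟩
  · simp [hc1, hc2, hc3, hc4, hc5, hR0, hr]
  intro p hp
  simp only [map_mul, mul_ne_zero_iff] at hp
  obtain ⟨⟨⟨⟨⟨⟨h1, h2⟩, h3⟩, h4⟩, h5⟩, h6⟩, h7⟩ := hp
  have hdegr : (r.map (eval p)).natDegree = r.natDegree :=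
    Polynomial.natDegree_map_of_leadingCoeff_ne_zero _ h7
  have hr0 : r.map (eval p) ≠ 0 := by
    intro h
    have := congrArg (fun f => Polynomial.coeff f r.natDegree) h
    simp only [Polynomial.coeff_map, Polynomial.coeff_natDegree, Polynomial.coeff_zero] at this
    exact h7 this
  refine ⟨hr0, hdegr, ?_⟩
  have f1 := congrArg (Polynomial.map (eval p)) e1
  have f2 := congrArg (Polynomial.map (eval p)) e2
  have f3 := congrArg (Polynomial.map (eval p)) e3
  simp only [Polynomial.map_mul, Polynomial.map_C, Polynomial.map_pow, Polynomial.map_add,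
    ← Polynomial.derivative_map, map_mul] at f1 f2 f3
  set Rp := R.map (eval p) with hRp
  set rp := r.map (eval p) with hrp
  have hRp0 : Rp ≠ 0 := by
    intro h
    have := congrArg (fun f => Polynomial.coeff f R.natDegree) h
    simp only [hRp, Polynomial.coeff_map, Polynomial.coeff_natDegree, Polynomial.coeff_zero] at this
    exact h6 this
  have hset : {z | rp.eval z = 0} = {z | Rp.eval z = 0} := by
    ext z
    simp only [Set.mem_ofPred_eq]
    constructor
    · intro hz
      have g := congrArg (Polynomial.eval z) f2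
      simp only [Polynomial.eval_mul, Polynomial.eval_C, Polynomial.eval_pow, hz, zero_mul,
        mul_zero] at g
      have g2 := (mul_eq_zero.1 g.symm).resolve_left h3
      by_contra hne
      exact pow_ne_zero N hne g2
    · intro hz
      have g := congrArg (Polynomial.eval z) f1
      simp only [Polynomial.eval_mul, Polynomial.eval_C, hz, zero_mul] at g
      exact (mul_eq_zero.1 g.symm).resolve_left (mul_ne_zero h1 h2)
  have hsepR : Rp.Separable := by
    have hk : eval p c1 * eval p c4 * eval p c5 ≠ 0 := mul_ne_zero (mul_ne_zero h1 h4) h5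
    refine ⟨Polynomial.C ((eval p c1 * eval p c4 * eval p c5)⁻¹) * (Polynomial.C (eval p c5) *
      a'.map (eval p)), Polynomial.C ((eval p c1 * eval p c4 * eval p c5)⁻¹) *
      (Polynomial.C (eval p c4) * b'.map (eval p)), ?_⟩
    have g : Polynomial.C ((eval p c1 * eval p c4 * eval p c5)⁻¹) *
        (Polynomial.C (eval p c1) * Polynomial.C (eval p c4) * Polynomial.C (eval p c5)) = 1 := by
      rw [← Polynomial.C_mul, ← Polynomial.C_mul, ← Polynomial.C_mul, inv_mul_cancel₀ hk,
        Polynomial.C_1]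
    rw [← g, ← f3]
    ring
  rw [hset]
  have hroots : {z | Rp.eval z = 0} = (Rp.roots.toFinset : Set ℂ) := by
    ext z
    simp [hRp0]
  rw [hroots, Set.ncard_coe_finset, Multiset.toFinset_card_of_nodup
    (Polynomial.nodup_roots hsepR), IsAlgClosed.card_roots_eq_natDegree]
  exact Polynomial.natDegree_map_of_leadingCoeff_ne_zero _ h6

/-- Roots are lower semicontinuous if the degree is locally constant. -/
theorem roots_lsc {X : Type*} [TopologicalSpace X] {x₀ : X} (f : X → Polynomial ℂ) (d : ℕ)
    (hd : ∀ᶠ x in 𝓝 x₀, (f x).natDegree = d) (h0 : (f x₀).coeff d ≠ 0)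
    (hc : ∀ i, ContinuousAt (fun x => (f x).coeff i) x₀) {z : ℂ} (hz : (f x₀).eval z = 0)
    {O : Set ℂ} (hO : O ∈ 𝓝 z) : ∀ᶠ x in 𝓝 x₀, ∃ w ∈ O, (f x).eval w = 0 := by
  obtain ⟨ε, hε, hεO⟩ := Metric.mem_nhds_iff.1 hO
  -- values at z
  have hcont : ContinuousAt (fun x => ∑ i ∈ Finset.range (d + 1), (f x).coeff i * z ^ i) x₀ :=
    tendsto_finsetSum _ fun i _ => (hc i).mul tendsto_const_nhds
  have hval : ∀ᶠ x in 𝓝 x₀, (f x).eval z = ∑ i ∈ Finset.range (d + 1), (f x).coeff i * z ^ i := by
    filter_upwards [hd] with x hx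
    rw [Polynomial.eval_eq_sum_range, hx]
  have hz0 : ∑ i ∈ Finset.range (d + 1), (f x₀).coeff i * z ^ i = 0 := by
    rw [← hval.self_of_nhds, hz]
  have hlead : ∀ᶠ x in 𝓝 x₀, ‖(f x₀).coeff d‖ / 2 < ‖(f x).coeff d‖ := by
    have h1 : ContinuousAt (fun x => ‖(f x).coeff d‖) x₀ := (hc d).norm
    have h2 : 0 < ‖(f x₀).coeff d‖ := norm_pos_iff.2 h0
    exact h1.eventually (lt_mem_nhds (by linarith))
  have hsmall : ∀ᶠ x in 𝓝 x₀, ‖∑ i ∈ Finset.range (d + 1), (f x).coeff i * z ^ i‖ <
      ‖(f x₀).coeff d‖ / 2 * ε ^ d := by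
    have h1 : ContinuousAt (fun x => ‖∑ i ∈ Finset.range (d + 1), (f x).coeff i * z ^ i‖) x₀ :=
      hcont.norm
    have h2 : 0 < ‖(f x₀).coeff d‖ := norm_pos_iff.2 h0
    refine h1.eventually (gt_mem_nhds ?_)
    show ‖∑ i ∈ Finset.range (d + 1), (f x₀).coeff i * z ^ i‖ < ‖(f x₀).coeff d‖ / 2 * ε ^ d
    rw [hz0, norm_zero]
    positivity
  filter_upwards [hd, hval, hlead, hsmall] with x h1 h2 h3 h4
  by_contra hcon
  push Not at hcon
  have hsplit := IsAlgClosed.splits (f x)
  have h5 : (f x).eval z = (f x).leadingCoeff * ((f x).roots.map fun a => z - a).prod := by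
    have := hsplit.eval_eq_prod_roots z
    exact this
  have h6 : ε ^ d ≤ ‖((f x).roots.map fun a => z - a).prod‖ := by
    have h7 : ∀ s : Multiset ℂ, (∀ a ∈ s, ε ≤ ‖z - a‖) → ε ^ s.card ≤ ‖(s.map fun a => z - a).prod‖ := by
      intro s
      induction s using Multiset.induction_on with
      | empty => simp
      | cons a s ih =>
        intro hs
        rw [Multiset.map_cons, Multiset.prod_cons, norm_mul, Multiset.card_cons, pow_succ,
          mul_comm]
        exact mul_le_mul (hs a (Multiset.mem_cons_self a s))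
          (ih fun b hb => hs b (Multiset.mem_cons_of_mem hb)) (by positivity) (norm_nonneg _)
    have h8 := h7 (f x).roots fun a ha => by
      by_contra hlt
      push Not at hlt
      refine hcon a (hεO ?_) (Polynomial.isRoot_of_mem_roots ha)
      rw [Metric.mem_ball, dist_comm, dist_eq_norm]
      exact hlt
    rwa [IsAlgClosed.card_roots_eq_natDegree, h1] at h8
  rw [← h2, h5, norm_mul] at h4
  have h7 : (f x).leadingCoeff = (f x).coeff d := by rw [Polynomial.leadingCoeff, h1]
  rw [h7] at h4
  have h8 : ‖(f x₀).coeff d‖ / 2 * ε ^ d ≤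
      ‖(f x).coeff d‖ * ‖((f x).roots.map fun a => z - a).prod‖ :=
    mul_le_mul h3.le h6 (by positivity) (norm_nonneg _)
  linarith

end Pool.Agent.QC.Elim
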