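import Mathlib

/-!
# Hitting sets (Heintz and Schnorr)

For a polynomial `h` in variables `mu` whose coefficients are polynomials in `N` parameters
`theta`, there are `N + 1` integer vectors `mu` such that for every value of `theta`: if `h_theta`
vanishes at all of them, then `h_theta = 0`.
-/

namespace Pool.Agent.QC.Elim

open MvPolynomial

/-- Finitely many nonzero polynomials over quotients of a `K`-algebra have a common integer
non-root. -/
theorem exists_int_ne {τ : Type*} {K : Type*} [Field K] [CharZero K] {R : Type*}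
    [CommRing R] [Algebra K R] (h : MvPolynomial τ R) (S : Set (Ideal R)) (hS : S.Finite)
    (hne : ∀ P ∈ S, ∃ m, coeff m h ∉ P) :
    ∃ mu : τ → ℤ, ∀ P ∈ S, eval (fun i => (mu i : R)) h ∉ P := by
  classical
  have h1 : ∀ P ∈ S, ∃ f : R →ₗ[K] K, (∃ m, f (coeff m h) ≠ 0) ∧ ∀ x ∈ P, f x = 0 := by
    intro P hP
    obtain ⟨m, hm⟩ := hne P hP
    have hx : (P.restrictScalars K).mkQ (coeff m h) ≠ 0 := by
      rw [Submodule.mkQ_apply, Ne, Submodule.Quotient.mk_eq_zero]
      simpa using hm
    obtain ⟨f, hf⟩ := Module.Projective.exists_dual_ne_zero K hx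
    refine ⟨f.comp (P.restrictScalars K).mkQ, ⟨m, hf⟩, fun x hx => ?_⟩
    have : (P.restrictScalars K).mkQ x = 0 := by
      rw [Submodule.mkQ_apply, Submodule.Quotient.mk_eq_zero]
      simpa using hx
    rw [LinearMap.comp_apply, this, map_zero]
  choose! f hf hf0 using h1
  -- the polynomial over `K`
  let g : Ideal R → MvPolynomial τ K := fun P =>
    ∑ m ∈ h.support, monomial m (f P (coeff m h))
  have hg : ∀ P ∈ S, g P ≠ 0 := by
    intro P hP h0
    obtain ⟨m, hm⟩ := hf P hP
    have hms : m ∈ h.support := by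
      rw [mem_support_iff]
      intro h2
      rw [h2, map_zero] at hm
      exact hm rfl
    have h2 := congrArg (coeff m) h0
    rw [coeff_sum, coeff_zero, Finset.sum_eq_single m, coeff_monomial, if_pos rfl] at h2
    · exact hm h2
    · intro b _ hb
      rw [coeff_monomial, if_neg hb]
    · intro h3
      exact absurd hms h3
  have hprod : ∏ P ∈ hS.toFinset, g P ≠ 0 := by
    rw [Finset.prod_ne_zero_iff]
    intro P hP
    exact hg P (hS.mem_toFinset.1 hP)
  obtain ⟨x, hx, hx0⟩ : ∃ x : τ → K, (∀ i, x i ∈ Set.range (fun z : ℤ => (z : K))) ∧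
      eval x (∏ P ∈ hS.toFinset, g P) ≠ 0 := by
    by_contra hcon
    push Not at hcon
    apply hprod
    refine funext_set (fun _ => Set.range (fun z : ℤ => (z : K)))
      (fun _ => Set.infinite_range_of_injective Int.cast_injective) fun x hx => ?_
    rw [map_zero]
    exact hcon x fun i => hx i (Set.mem_univ i)
  choose mu hmu using hx
  refine ⟨mu, fun P hP hmem => ?_⟩
  have h2 : eval x (g P) ≠ 0 := by
    rw [map_prod, Finset.prod_ne_zero_iff] at hx0
    exact hx0 P (hS.mem_toFinset.2 hP)
  apply h2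
  have h3 := hf0 P hP _ hmem
  rw [← h3, eval_eq (fun i => (mu i : R)) h, map_sum]
  simp only [g, map_sum, eval_monomial]
  refine Finset.sum_congr rfl fun m _ => ?_
  have h4 : (∏ i ∈ m.support, ((mu i : R)) ^ m i) =
      algebraMap K R (∏ i ∈ m.support, ((mu i : K)) ^ m i) := by
    simp
  rw [h4, mul_comm (coeff m h), ← Algebra.smul_def, map_smul, smul_eq_mul, mul_comm,
    Finsupp.prod]
  congr 1
  exact Finset.prod_congr rfl fun i _ => by rw [← hmu i]

/-- Heintz and Schnorr, for one family of polynomials. -/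
theorem hitting {τ ι K : Type*} [Finite ι] [Field K] [CharZero K]
    (h : MvPolynomial τ (MvPolynomial ι K)) :
    ∃ H : Finset (τ → ℤ), H.card ≤ Nat.card ι + 1 ∧ ∀ θ : ι → K,
      (∀ mu ∈ H, eval θ (eval (fun i => (mu i : MvPolynomial ι K)) h) = 0) →
        map (eval θ) h = 0 := by
  classical
  -- bad primes have large height
  have key : ∀ n : ℕ, ∃ H : Finset (τ → ℤ), H.card ≤ n ∧ ∀ P : Ideal (MvPolynomial ι K),
      P.IsPrime → (∀ mu ∈ H, eval (fun i => (mu i : MvPolynomial ι K)) h ∈ P) →
      (∃ m, coeff m h ∉ P) → (n : ℕ∞) ≤ P.height := by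
    intro n
    induction n with
    | zero => exact ⟨∅, by simp, fun P _ _ _ => by simp⟩
    | succ n ih =>
      obtain ⟨H, hH, hH2⟩ := ih
      let I : Ideal (MvPolynomial ι K) :=
        Ideal.span {q | ∃ mu ∈ H, q = eval (fun i => (mu i : MvPolynomial ι K)) h}
      obtain ⟨mu, hmu⟩ := exists_int_ne (K := K) h
        {P | P ∈ I.minimalPrimes ∧ ∃ m, coeff m h ∉ P}
        ((I.finite_minimalPrimes_of_isNoetherianRing _).subset fun P hP => hP.1)
        (fun P hP => hP.2)
      refine ⟨insert mu H, (Finset.card_insert_le _ _).trans (by omega), ?_⟩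
      intro P hP hPH hPbad
      have hIP : I ≤ P := by
        refine Ideal.span_le.2 ?_
        rintro _ ⟨nu, hnu, rfl⟩
        exact hPH nu (Finset.mem_insert_of_mem hnu)
      obtain ⟨Q, hQ, hQP⟩ := Ideal.exists_minimalPrimes_le hIP
      have hQprime : Q.IsPrime := hQ.1.1
      have hQbad : ∃ m, coeff m h ∉ Q := by
        obtain ⟨m, hm⟩ := hPbad
        exact ⟨m, fun h2 => hm (hQP h2)⟩
      have hmuQ := hmu Q ⟨hQ, hQbad⟩
      have hlt : Q < P := lt_of_le_of_ne hQP fun h2 => by
        rw [h2] at hmuQ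
        exact hmuQ (hPH mu (Finset.mem_insert_self _ _))
      have h3 : (n : ℕ∞) ≤ Q.height := hH2 Q hQprime (fun nu hnu =>
        hQ.1.2 (Ideal.subset_span ⟨nu, hnu, rfl⟩)) hQbad
      have h4 := Ideal.height_add_one_le_of_lt_of_isPrime hlt
      calc ((n + 1 : ℕ) : ℕ∞) = (n : ℕ∞) + 1 := by push_cast; rfl
        _ ≤ Q.height + 1 := by gcongr
        _ ≤ P.height := h4
  obtain ⟨H, hH, hH2⟩ := key (Nat.card ι + 1)
  refine ⟨H, hH, fun θ hθ => ?_⟩
  by_contra hne
  have hprime : (RingHom.ker (eval θ : MvPolynomial ι K →+* K)).IsPrime :=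
    RingHom.ker_isPrime _
  have h1 := hH2 (RingHom.ker (eval θ : MvPolynomial ι K →+* K)) hprime
    (fun mu hmu => by
      rw [RingHom.mem_ker]
      exact hθ mu hmu) (by
      by_contra hcon
      push Not at hcon
      apply hne
      ext m
      rw [coeff_map, coeff_zero]
      exact hcon m)
  have h2 := Ideal.height_le_ringKrullDim_of_ne_top hprime.ne_top
  rw [MvPolynomial.ringKrullDim_of_isNoetherianRing, ringKrullDim_eq_zero_of_field, zero_add] at h2
  have h3 : ((Nat.card ι + 1 : ℕ) : WithBot ℕ∞) ≤ (Nat.card ι : WithBot ℕ∞) := by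
    refine le_trans ?_ h2
    exact_mod_cast h1
  have h4 : Nat.card ι + 1 ≤ Nat.card ι := by exact_mod_cast h3
  omega

end Pool.Agent.QC.Elim
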