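import Pool.Agent.QC.Elim.Def
import Pool.Agent.QC.Elim.Cost

/-!
# The systems for critical and singular points as instances of `Sq`
-/

namespace Pool.Agent.QC.Elim

open MvPolynomial

section Degrees

variable {κ R : Type*} [CommRing R]

lemma td_det {ι : Type*} [Fintype ι] [DecidableEq ι] {m : ℕ}
    {A : Matrix ι ι (MvPolynomial κ R)} (h : ∀ i j, (A i j).totalDegree ≤ m) :
    A.det.totalDegree ≤ Fintype.card ι * m := by
  rw [Matrix.det_apply]
  refine totalDegree_finsetSum_le fun τ _ => (totalDegree_smul_le _ _).trans ?_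
  refine (totalDegree_finsetProd _ _).trans ?_
  refine (Finset.sum_le_card_nsmul _ _ m fun i _ => h _ _).trans ?_
  simp

lemma td_adj {ι : Type*} [Fintype ι] [DecidableEq ι] {m : ℕ}
    {A : Matrix ι ι (MvPolynomial κ R)} (h : ∀ i j, (A i j).totalDegree ≤ m) (i j : ι) :
    (A.adjugate i j).totalDegree ≤ Fintype.card ι * m := by
  rw [Matrix.adjugate_apply]
  refine td_det fun k l => ?_
  rw [Matrix.updateRow_apply]
  split_ifs
  · rcases eq_or_ne l i with rfl | hl
    · simp
    · rw [Pi.single_eq_of_ne hl]
      simp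
  · exact h _ _

lemma td_adj_mulVec {ι : Type*} [Fintype ι] [DecidableEq ι] {m a N : ℕ}
    {A : Matrix ι ι (MvPolynomial κ R)} (h : ∀ i j, (A i j).totalDegree ≤ m)
    {v : ι → MvPolynomial κ R} (hv : ∀ i, (v i).totalDegree ≤ a)
    (hN : Fintype.card ι * m + a ≤ N) (i : ι) :
    ((A.adjugate.mulVec v) i).totalDegree ≤ N := by
  rw [Matrix.mulVec, dotProduct]
  refine totalDegree_finsetSum_le fun j _ => (totalDegree_mul _ _).trans ?_
  have h1 := td_adj h i j
  have h2 := hv j
  omega

lemma td_neg (p : MvPolynomial κ R) : (-p).totalDegree = p.totalDegree := totalDegree_neg p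

lemma td_qh {N a b m : ℕ} (p : QP R N) {d : MvPolynomial κ R} {y : Fin N → MvPolynomial κ R}
    (hd : d.totalDegree ≤ a) (hy : ∀ i, (y i).totalDegree ≤ b) (h1 : 2 * b ≤ m)
    (h2 : a + b ≤ m) (h3 : 2 * a ≤ m) : (qh (mapQ C p) d y).totalDegree ≤ m := by
  rw [qh]
  refine (totalDegree_add _ _).trans (max_le ((totalDegree_add _ _).trans (max_le ?_ ?_)) ?_)
  · refine totalDegree_finsetSum_le fun i _ => totalDegree_finsetSum_le fun j _ => ?_
    refine (totalDegree_mul _ _).trans ?_
    have e1 := totalDegree_mul ((mapQ C p : QP (MvPolynomial κ R) N).1 i j) (y i)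
    have e2 : ((mapQ C p : QP (MvPolynomial κ R) N).1 i j).totalDegree = 0 := totalDegree_C _
    have e3 := hy i
    have e4 := hy j
    omega
  · refine (totalDegree_mul _ _).trans ?_
    have e1 : (∑ i, (mapQ C p : QP (MvPolynomial κ R) N).2.1 i * y i).totalDegree ≤ b := by
      refine totalDegree_finsetSum_le fun i _ => (totalDegree_mul _ _).trans ?_
      have e2 : ((mapQ C p : QP (MvPolynomial κ R) N).2.1 i).totalDegree = 0 := totalDegree_C _
      have e3 := hy i
      omega
    omega
  · refine (totalDegree_mul _ _).trans ?_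
    have e1 := totalDegree_pow d 2
    have e2 : ((mapQ C p : QP (MvPolynomial κ R) N).2.2).totalDegree = 0 := totalDegree_C _
    omega

variable {n l : ℕ}

lemma td_matL (q : Fin (l + 1) → QP R (n + 1)) (i j : Fin (n + 1)) :
    (matL (fun m => mapQ C (q m)) (fun m => (X (some m) :
      MvPolynomial (Option (Fin (l + 1))) R)) i j).totalDegree ≤ 1 := by
  rw [matL]
  refine totalDegree_finsetSum_le fun m _ => (totalDegree_mul _ _).trans ?_
  have h1 : (X (some m) : MvPolynomial (Option (Fin (l + 1))) R).totalDegree ≤ 1 := by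
    rcases subsingleton_or_nontrivial R with h | h
    · rw [Subsingleton.elim (X (some m) : MvPolynomial (Option (Fin (l + 1))) R) 0]
      simp
    · rw [totalDegree_X]
  have h2 : (((mapQ C (q m) : QP (MvPolynomial (Option (Fin (l + 1))) R) (n + 1)).1 i j +
      (mapQ C (q m) : QP (MvPolynomial (Option (Fin (l + 1))) R) (n + 1)).1 j i)).totalDegree =
      0 := by
    show (C ((q m).1 i j) + C ((q m).1 j i) :
      MvPolynomial (Option (Fin (l + 1))) R).totalDegree = 0
    rw [← C_add, totalDegree_C]
  omega

lemma td_X (o : Option (Fin (l + 1))) :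
    (X o : MvPolynomial (Option (Fin (l + 1))) R).totalDegree ≤ 1 := by
  rcases subsingleton_or_nontrivial R with h | h
  · rw [Subsingleton.elim (X o : MvPolynomial (Option (Fin (l + 1))) R) 0]
    simp
  · rw [totalDegree_X]

lemma td_lin (q : Fin (l + 1) → QP R (n + 1)) (i : Fin (n + 1)) :
    (∑ m, (X (some m) : MvPolynomial (Option (Fin (l + 1))) R) *
      (mapQ C (q m) : QP (MvPolynomial (Option (Fin (l + 1))) R) (n + 1)).2.1 i).totalDegree ≤
      1 := by
  refine totalDegree_finsetSum_le fun m _ => (totalDegree_mul _ _).trans ?_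
  have h1 := td_X (R := R) (some m)
  have h2 : ((mapQ C (q m) : QP (MvPolynomial (Option (Fin (l + 1))) R) (n + 1)).2.1
      i).totalDegree = 0 := totalDegree_C _
  omega

/-- Exponents of the deformation. -/
def NN (n l : ℕ) : Option (Fin (l + 1)) → ℕ
  | none => l + 2
  | some _ => 2 * n + 6

lemma td_prod :
    ((∏ m : Fin (l + 1), (X (some m) : MvPolynomial (Option (Fin (l + 1))) R)) -
      1).totalDegree ≤ l + 1 := by
  refine (totalDegree_sub _ _).trans (max_le ?_ (by simp))
  refine (totalDegree_finsetProd _ _).trans ?_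
  refine (Finset.sum_le_card_nsmul _ _ 1 fun i _ => td_X _).trans ?_
  simp

/-- Degrees of the equations for critical points. -/
theorem td_eqC (q : Fin (l + 1) → QP R (n + 1)) (o : Option (Fin (l + 1))) :
    (eqC (fun m => mapQ C (q m)) (fun m => (X (some m) : MvPolynomial (Option (Fin (l + 1))) R))
      (X none) o).totalDegree < NN n l o := by
  cases o with
  | none =>
    rw [eqC, NN]
    exact Nat.lt_succ_of_le td_prod
  | some m =>
    rw [eqC, NN]
    have hdet : (matL' (fun m => mapQ C (q m)) (fun m => (X (some m) :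
        MvPolynomial (Option (Fin (l + 1))) R))).det.totalDegree ≤ n := by
      refine (td_det (m := 1) fun i j => td_matL q _ _).trans ?_
      simp
    have hv : ∀ i, (vecL' (fun m => mapQ C (q m)) (fun m => (X (some m) :
        MvPolynomial (Option (Fin (l + 1))) R)) (X none) i).totalDegree ≤ 2 := by
      intro i
      rw [vecL']
      refine (totalDegree_add _ _).trans (max_le ((totalDegree_mul _ _).trans ?_) ?_)
      · have h1 := td_matL q i.castSucc (Fin.last n)
        have h2 := td_X (R := R) (l := l) none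
        omega
      · exact (td_lin q _).trans (by omega)
    have hs : ∀ i, (solC (fun m => mapQ C (q m)) (fun m => (X (some m) :
        MvPolynomial (Option (Fin (l + 1))) R)) (X none) i).totalDegree ≤ n + 2 := by
      intro i
      refine Fin.lastCases ?_ (fun j => ?_) i
      · rw [solC, Fin.snoc_last]
        refine (totalDegree_mul _ _).trans ?_
        have h2 := td_X (R := R) (l := l) none
        omega
      · rw [solC, Fin.snoc_castSucc, td_neg]
        refine td_adj_mulVec (m := 1) (a := 2) (fun i j => td_matL q _ _) hv ?_ j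
        simp
    have hq := td_qh (q m) hdet hs (m := 2 * n + 4) (by omega) (by omega) (by omega)
    have h1 := td_X (R := R) (some m)
    have h2 := totalDegree_pow (matL' (fun m => mapQ C (q m)) (fun m => (X (some m) :
        MvPolynomial (Option (Fin (l + 1))) R))).det 2
    refine Nat.lt_of_le_of_lt ((totalDegree_sub _ _).trans (max_le ((totalDegree_mul _ _).trans
      (add_le_add h1 hq)) (h2.trans (by omega)))) ?_
    omega

/-- Degrees of the equations for singular points. -/
theorem td_eqS (q : Fin (l + 1) → QP R (n + 1)) (o : Option (Fin (l + 1))) :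
    (eqS (fun m => mapQ C (q m)) (fun m => (X (some m) : MvPolynomial (Option (Fin (l + 1))) R))
      (X none) o).totalDegree < NN n l o := by
  cases o with
  | none =>
    rw [eqS, NN]
    exact Nat.lt_succ_of_le td_prod
  | some m =>
    rw [eqS, NN]
    have hdet : (matL (fun m => mapQ C (q m)) (fun m => (X (some m) :
        MvPolynomial (Option (Fin (l + 1))) R))).det.totalDegree ≤ n + 1 := by
      refine (td_det (m := 1) fun i j => td_matL q _ _).trans ?_
      simp
    have hs : ∀ i, (solS (fun m => mapQ C (q m)) (fun m => (X (some m) :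
        MvPolynomial (Option (Fin (l + 1))) R)) i).totalDegree ≤ n + 2 := by
      intro i
      rw [solS, td_neg]
      refine td_adj_mulVec (m := 1) (a := 1) (fun i j => td_matL q _ _)
        (fun i => td_lin q i) ?_ i
      simp
    have hq := td_qh (q m) hdet hs (m := 2 * n + 4) (by omega) (by omega) (by omega)
    have h1 := td_X (R := R) (some m)
    have h2 := totalDegree_pow (matL (fun m => mapQ C (q m)) (fun m => (X (some m) :
        MvPolynomial (Option (Fin (l + 1))) R))).det 2
    have h3 : (if m = 0 then (matL (fun m => mapQ C (q m)) (fun m => (X (some m) :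
        MvPolynomial (Option (Fin (l + 1))) R))).det ^ 2 * X none else 0).totalDegree ≤
        2 * n + 4 := by
      split_ifs
      · refine (totalDegree_mul _ _).trans ?_
        have h4 := td_X (R := R) (l := l) none
        omega
      · simp
    refine Nat.lt_of_le_of_lt ((totalDegree_sub _ _).trans (max_le ((totalDegree_mul _ _).trans
      (add_le_add h1 ((totalDegree_add _ _).trans (max_le hq h3))))
      (h2.trans (by omega)))) ?_
    omega

end Degrees

section Univ

variable (n l : ℕ)

/-- The universal tuple. -/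
noncomputable def qU (m : Fin (l + 1)) :
    QP (MvPolynomial (Ix n l ⊕ Option (Fin (l + 1))) ℤ) (n + 1) :=
  (fun i j => X (Sum.inl (m, Sum.inl (i, j))), fun i => X (Sum.inl (m, Sum.inr (Sum.inl i))),
    X (Sum.inl (m, Sum.inr (Sum.inr ()))))

/-- The universal equations for critical points. -/
noncomputable def eCU (o : Option (Fin (l + 1))) :
    MvPolynomial (Ix n l ⊕ Option (Fin (l + 1))) ℤ :=
  eqC (qU n l) (fun m => X (Sum.inr (some m))) (X (Sum.inr none)) o

/-- The universal equations for singular points. -/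
noncomputable def eSU (o : Option (Fin (l + 1))) :
    MvPolynomial (Ix n l ⊕ Option (Fin (l + 1))) ℤ :=
  eqS (qU n l) (fun m => X (Sum.inr (some m))) (X (Sum.inr none)) o

/-- The universal tuple over `ℤ[p]`. -/
noncomputable def qP (m : Fin (l + 1)) : QP (MvPolynomial (Ix n l) ℤ) (n + 1) :=
  (fun i j => X (m, Sum.inl (i, j)), fun i => X (m, Sum.inr (Sum.inl i)),
    X (m, Sum.inr (Sum.inr ())))

theorem kpoly_eCU (o : Option (Fin (l + 1))) : kpoly (eCU n l o) =
    eqC (fun m => mapQ C (qP n l m)) (fun m => X (some m)) (X none) o := by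
  have h := map_eqC (kpoly : MvPolynomial (Ix n l ⊕ Option (Fin (l + 1))) ℤ →ₐ[ℤ] _).toRingHom
    (qU n l) (fun m => X (Sum.inr (some m))) (X (Sum.inr none)) o
  have h1 : (kpoly : MvPolynomial (Ix n l ⊕ Option (Fin (l + 1))) ℤ →ₐ[ℤ] _).toRingHom
      (eCU n l o) = kpoly (eCU n l o) := rfl
  rw [← h1, eCU, h]
  congr 1
  · funext m
    simp [mapQ, qU, qP, kpoly]
  · funext m
    simp [kpoly]
  · simp [kpoly]

theorem kpoly_eSU (o : Option (Fin (l + 1))) : kpoly (eSU n l o) =
    eqS (fun m => mapQ C (qP n l m)) (fun m => X (some m)) (X none) o := by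
  have h := map_eqS (kpoly : MvPolynomial (Ix n l ⊕ Option (Fin (l + 1))) ℤ →ₐ[ℤ] _).toRingHom
    (qU n l) (fun m => X (Sum.inr (some m))) (X (Sum.inr none)) o
  have h1 : (kpoly : MvPolynomial (Ix n l ⊕ Option (Fin (l + 1))) ℤ →ₐ[ℤ] _).toRingHom
      (eSU n l o) = kpoly (eSU n l o) := rfl
  rw [← h1, eSU, h]
  congr 1
  · funext m
    simp [mapQ, qU, qP, kpoly]
  · funext m
    simp [kpoly]
  · simp [kpoly]

/-- The system for critical points. -/
noncomputable def sysC : Sq (Ix n l) (Option (Fin (l + 1))) where
  N := NN n l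
  e := fun o => kpoly (eCU n l o)
  he := fun o => by
    rw [kpoly_eCU]
    exact td_eqC _ _

/-- The system for singular points. -/
noncomputable def sysS : Sq (Ix n l) (Option (Fin (l + 1))) where
  N := NN n l
  e := fun o => kpoly (eSU n l o)
  he := fun o => by
    rw [kpoly_eSU]
    exact td_eqS _ _

variable {n l}

theorem sysC_map (q : Tup n l) (o : Option (Fin (l + 1))) :
    map (evC (cfs q)) ((sysC n l).e o) = eC q o := by
  show map (evC (cfs q)) (kpoly (eCU n l o)) = eC q o
  rw [kpoly_eCU, map_eqC, eC]
  congr 1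
  · funext m
    refine Prod.ext ?_ (Prod.ext ?_ ?_)
    · funext i j
      simp [mapQ, qP, evC, cfs]
    · funext i
      simp [mapQ, qP, evC, cfs]
    · simp [mapQ, qP, evC, cfs]
  · funext m
    simp
  · simp

theorem sysS_map (q : Tup n l) (o : Option (Fin (l + 1))) :
    map (evC (cfs q)) ((sysS n l).e o) = eS q o := by
  show map (evC (cfs q)) (kpoly (eSU n l o)) = eS q o
  rw [kpoly_eSU, map_eqS, eS]
  congr 1
  · funext m
    refine Prod.ext ?_ (Prod.ext ?_ ?_)
    · funext i j
      simp [mapQ, qP, evC, cfs]
    · funext i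
      simp [mapQ, qP, evC, cfs]
    · simp [mapQ, qP, evC, cfs]
  · funext m
    simp
  · simp

end Univ

end Pool.Agent.QC.Elim
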