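import Pool.Agent.QC.Elim.Sys

/-!
# The resolvent polynomial of a square system

`pchi A B = det (Z - A - s B)` as a polynomial in `s` over polynomials in `Z`.  The coefficient of
the highest power of `s` vanishes at the limits of eigenvalues for `s → ∞`.
-/

namespace Pool.Agent.QC.Elim

open MvPolynomial Filter Topology

section Pchi

variable {ι : Type*} [Fintype ι] [DecidableEq ι]

/-- `det (Z - A - s B)`; outer variable `s`, inner variable `Z`. -/
noncomputable def pchi {R : Type*} [CommRing R] (A B : Matrix ι ι R) :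
    Polynomial (Polynomial R) :=
  (Matrix.scalar ι (Polynomial.C Polynomial.X) -
    A.map (Polynomial.C.comp Polynomial.C : R →+* Polynomial (Polynomial R)) -
    (Polynomial.X : Polynomial (Polynomial R)) •
      B.map (Polynomial.C.comp Polynomial.C : R →+* Polynomial (Polynomial R))).det

theorem pchi_map {R S : Type*} [CommRing R] [CommRing S] (ψ : R →+* S) (A B : Matrix ι ι R) :
    (pchi A B).map (Polynomial.mapRingHom ψ) = pchi (A.map ψ) (B.map ψ) := by
  rw [pchi, ← Polynomial.coe_mapRingHom, RingHom.map_det, pchi]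
  congr 1
  ext i j
  rcases eq_or_ne i j with rfl | hij
  · simp [Matrix.scalar_apply]
  · simp [Matrix.scalar_apply, Matrix.diagonal_apply_ne _ hij]

theorem pchi_eval {R : Type*} [CommRing R] (A B : Matrix ι ι R) (s z : R) :
    ((pchi A B).eval (Polynomial.C s)).eval z = (Matrix.scalar ι z - A - s • B).det := by
  have h1 : ((pchi A B).eval (Polynomial.C s)).eval z =
      ((Polynomial.evalRingHom z).comp (Polynomial.evalRingHom (Polynomial.C s))) (pchi A B) := rfl
  rw [h1, pchi, RingHom.map_det]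
  congr 1
  ext i j
  rcases eq_or_ne i j with rfl | hij
  · simp [Matrix.scalar_apply]
    ring
  · simp [Matrix.scalar_apply, Matrix.diagonal_apply_ne _ hij]
    ring

/-- The limit argument. -/
theorem lim_root {R : Type*} [CommRing R] (A B : Matrix ι ι R) (ψ : R →+* ℂ) {J : ℕ}
    (hJ : (pchi A B).natDegree ≤ J) {α : Type*} {l : Filter α} [l.NeBot] {ε z : α → ℂ} {z₀ : ℂ}
    (hε : Tendsto ε l (𝓝 0)) (hε0 : ∀ᶠ x in l, ε x ≠ 0) (hz : Tendsto z l (𝓝 z₀))
    (h : ∀ᶠ x in l, (Matrix.scalar ι (z x) - A.map ψ - (ε x)⁻¹ • B.map ψ).det = 0) :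
    (((pchi A B).coeff J).map ψ).eval z₀ = 0 := by
  set f := (pchi A B).map (Polynomial.mapRingHom ψ) with hf
  have hfJ : f.natDegree ≤ J := Polynomial.natDegree_map_le.trans hJ
  let g : ℂ → ℂ → ℂ := fun z ε => ∑ j ∈ Finset.range (J + 1), (f.coeff j).eval z * ε ^ (J - j)
  have hg0 : g z₀ 0 = (f.coeff J).eval z₀ := by
    simp only [g]
    rw [Finset.sum_eq_single J]
    · simp
    · intro j hj hjJ
      rw [Finset.mem_range] at hj
      rw [zero_pow (by omega), mul_zero]
    · intro h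
      exact absurd (Finset.mem_range.2 (Nat.lt_succ_self J)) h
  have hlim : Tendsto (fun x => g (z x) (ε x)) l (𝓝 (g z₀ 0)) := by
    refine tendsto_finsetSum _ fun j _ => ?_
    refine Tendsto.mul ?_ (hε.pow _)
    exact ((f.coeff j).continuous.tendsto z₀).comp hz
  have hzero : ∀ᶠ x in l, g (z x) (ε x) = 0 := by
    filter_upwards [h, hε0] with x hx hx0
    rw [← pchi_eval, ← pchi_map, ← hf] at hx
    rw [Polynomial.eval_eq_sum_range' (Nat.lt_succ_of_le hfJ), Polynomial.eval_finsetSum] at hx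
    have h1 : g (z x) (ε x) = ε x ^ J *
        ∑ j ∈ Finset.range (J + 1), (f.coeff j * Polynomial.C (ε x)⁻¹ ^ j).eval (z x) := by
      simp only [g]
      rw [Finset.mul_sum]
      refine Finset.sum_congr rfl fun j hj => ?_
      rw [Finset.mem_range] at hj
      rw [Polynomial.eval_mul, Polynomial.eval_pow, Polynomial.eval_C, inv_pow,
        pow_sub₀ _ hx0 (by omega)]
      ring
    rw [h1, hx, mul_zero]
  have h2 : Tendsto (fun x => g (z x) (ε x)) l (𝓝 0) :=
    Tendsto.congr' (EventuallyEq.symm hzero) tendsto_const_nhds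
  have h3 := tendsto_nhds_unique hlim h2
  rw [hg0, hf, Polynomial.coeff_map, Polynomial.coe_mapRingHom] at h3
  exact h3

end Pchi

section Ift

variable {κ : Type*} [Fintype κ]

/-- Polynomial functions are strictly differentiable. -/
theorem hasStrictFDerivAt_eval [DecidableEq κ] (f : MvPolynomial κ ℂ) (u : κ → ℂ) :
    HasStrictFDerivAt (fun x : κ → ℂ => eval x f)
      (∑ k, eval u (pderiv k f) • (ContinuousLinearMap.proj k : (κ → ℂ) →L[ℂ] ℂ)) u := by
  induction f using MvPolynomial.induction_on with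
  | C a =>
    have : (∑ k, eval u (pderiv k (C a : MvPolynomial κ ℂ)) •
        (ContinuousLinearMap.proj k : (κ → ℂ) →L[ℂ] ℂ)) = 0 := by
      ext x
      simp
    rw [this]
    simp only [eval_C]
    exact hasStrictFDerivAt_const _ _
  | add p q hp hq =>
    have h := hp.add hq
    refine (h.congr_fderiv ?_).congr_of_eventuallyEq (Eventually.of_forall fun x => by simp)
    ext x
    simp [add_mul, Finset.sum_add_distrib]
  | mul_X p i hp =>
    have hX : HasStrictFDerivAt (fun x : κ → ℂ => x i)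
        (ContinuousLinearMap.proj i : (κ → ℂ) →L[ℂ] ℂ) u :=
      (ContinuousLinearMap.proj i : (κ → ℂ) →L[ℂ] ℂ).hasStrictFDerivAt
    have h := hp.mul hX
    refine (h.congr_fderiv ?_).congr_of_eventuallyEq (Eventually.of_forall fun x => by simp)
    ext x
    simp only [add_apply, smul_apply,
      ContinuousLinearMap.proj_apply, sum_apply, smul_eq_mul,
      Derivation.leibniz, pderiv_X, map_add, map_mul, eval_X, add_mul, Finset.sum_add_distrib,
      Finset.mul_sum]
    congr 1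
    · rw [Finset.sum_eq_single i]
      · simp
      · intro k _ hk
        simp [Pi.single_eq_of_ne hk.symm, Pi.single_eq_of_ne hk]
      · intro h
        exact absurd (Finset.mem_univ i) h
    · exact Finset.sum_congr rfl fun k _ => by ring

/-- Zeros of the deformed system near a nondegenerate zero. -/
theorem exists_filter [DecidableEq κ] (e : κ → MvPolynomial κ ℂ) (N : κ → ℕ) (u : κ → ℂ)
    (hu : ∀ j, eval u (e j) = 0)
    (hJ : (Matrix.of fun j k => eval u (pderiv k (e j))).det ≠ 0) :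
    ∃ l : Filter (ℂ × (κ → ℂ)), l.NeBot ∧ l ≤ 𝓝 (0, u) ∧
      ∀ᶠ x in l, x.1 ≠ 0 ∧ ∀ j, x.2 j ^ N j = -(x.1⁻¹ * eval x.2 (e j)) := by
  let Φ : ℂ × (κ → ℂ) → ℂ × (κ → ℂ) := fun x =>
    (x.1, fun j => x.1 * x.2 j ^ N j + eval x.2 (e j))
  -- the derivative
  let Jm : Matrix κ κ ℂ := Matrix.of fun j k => eval u (pderiv k (e j))
  let D2 : κ → (ℂ × (κ → ℂ) →L[ℂ] ℂ) := fun j =>
    (u j ^ N j) • ContinuousLinearMap.fst ℂ ℂ (κ → ℂ) +
      (∑ k, eval u (pderiv k (e j)) • (ContinuousLinearMap.proj k : (κ → ℂ) →L[ℂ] ℂ)).comp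
        (ContinuousLinearMap.snd ℂ ℂ (κ → ℂ))
  have hD2 : ∀ j, HasStrictFDerivAt (fun x : ℂ × (κ → ℂ) => x.1 * x.2 j ^ N j + eval x.2 (e j))
      (D2 j) (0, u) := by
    intro j
    have h1 : HasStrictFDerivAt (fun x : ℂ × (κ → ℂ) => x.1)
        (ContinuousLinearMap.fst ℂ ℂ (κ → ℂ)) (0, u) := hasStrictFDerivAt_fst
    have h2 : HasStrictFDerivAt (fun x : ℂ × (κ → ℂ) => x.2 j)
        ((ContinuousLinearMap.proj j : (κ → ℂ) →L[ℂ] ℂ).comp
          (ContinuousLinearMap.snd ℂ ℂ (κ → ℂ))) (0, u) :=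
      ((ContinuousLinearMap.proj j : (κ → ℂ) →L[ℂ] ℂ).comp
          (ContinuousLinearMap.snd ℂ ℂ (κ → ℂ))).hasStrictFDerivAt
    have h3 := h1.mul (h2.pow (N j))
    have h4 : HasStrictFDerivAt (fun x : ℂ × (κ → ℂ) => eval x.2 (e j))
        ((∑ k, eval u (pderiv k (e j)) • (ContinuousLinearMap.proj k : (κ → ℂ) →L[ℂ] ℂ)).comp
        (ContinuousLinearMap.snd ℂ ℂ (κ → ℂ))) (0, u) := by
      have h5 : HasStrictFDerivAt (fun x : κ → ℂ => eval x (e j))
        (∑ k, eval u (pderiv k (e j)) • (ContinuousLinearMap.proj k : (κ → ℂ) →L[ℂ] ℂ))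
        ((0 : ℂ), u).2 := hasStrictFDerivAt_eval (e j) u
      exact h5.comp ((0 : ℂ), u) hasStrictFDerivAt_snd
    refine (h3.add h4).congr_fderiv ?_
    ext x <;> simp [D2]
  have hΦ : HasStrictFDerivAt Φ ((ContinuousLinearMap.fst ℂ ℂ (κ → ℂ)).prod
      (ContinuousLinearMap.pi D2)) (0, u) := by
    refine HasStrictFDerivAt.prodMk hasStrictFDerivAt_fst ?_
    exact hasStrictFDerivAt_pi.2 hD2
  have hsurj : ((ContinuousLinearMap.fst ℂ ℂ (κ → ℂ)).prod
      (ContinuousLinearMap.pi D2)).range = ⊤ := by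
    rw [eq_top_iff]
    rintro ⟨a, w⟩ -
    let w' : κ → ℂ := Jm⁻¹.mulVec (fun j => w j - u j ^ N j * a)
    refine ⟨(a, w'), ?_⟩
    have h1 : Jm.mulVec w' = fun j => w j - u j ^ N j * a := by
      rw [Matrix.mulVec_mulVec, Matrix.mul_nonsing_inv _ (isUnit_iff_ne_zero.2 hJ),
        Matrix.one_mulVec]
    refine Prod.ext rfl ?_
    funext j
    have h2 := congrFun h1 j
    simp only [Matrix.mulVec, dotProduct, Jm, Matrix.of_apply] at h2
    simp only [ContinuousLinearMap.coe_coe, ContinuousLinearMap.prod_apply,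
      ContinuousLinearMap.coe_pi', D2, add_apply,
      smul_apply, ContinuousLinearMap.coe_fst', smul_eq_mul,
      ContinuousLinearMap.comp_apply, ContinuousLinearMap.coe_snd', sum_apply,
      ContinuousLinearMap.proj_apply]
    rw [h2]
    ring
  have hmap := hΦ.map_nhds_eq_of_surj hsurj
  have hΦ0 : Φ (0, u) = (0, 0) := by
    refine Prod.ext rfl ?_
    funext j
    simp [Φ, hu j]
  rw [hΦ0] at hmap
  let F : Filter (ℂ × (κ → ℂ)) := map (fun ε : ℂ => (ε, (0 : κ → ℂ))) (𝓝[≠] 0)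
  have hF : F ≤ 𝓝 ((0 : ℂ), (0 : κ → ℂ)) := by
    have : Tendsto (fun ε : ℂ => (ε, (0 : κ → ℂ))) (𝓝[≠] 0) (𝓝 ((0 : ℂ), (0 : κ → ℂ))) :=
      ((continuous_id.prodMk continuous_const).tendsto' 0 _ rfl).mono_left nhdsWithin_le_nhds
    exact this
  refine ⟨𝓝 (0, u) ⊓ comap Φ F, ?_, inf_le_left, ?_⟩
  · have h1 : map Φ (𝓝 (0, u) ⊓ comap Φ F) = F := by
      rw [Filter.push_pull, hmap]
      exact inf_eq_right.2 hF
    have h2 : (map Φ (𝓝 (0, u) ⊓ comap Φ F)).NeBot := by
      rw [h1]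
      infer_instance
    exact h2.of_map
  · have h1 : ∀ᶠ y in F, y.1 ≠ 0 ∧ y.2 = 0 := by
      rw [eventually_map]
      filter_upwards [self_mem_nhdsWithin] with ε hε
      exact ⟨hε, rfl⟩
    have h2 : ∀ᶠ x in comap Φ F, (Φ x).1 ≠ 0 ∧ (Φ x).2 = 0 := h1.comap Φ
    filter_upwards [mem_inf_of_right h2] with x hx
    obtain ⟨hx1, hx2⟩ := hx
    have hx1' : x.1 ≠ 0 := hx1
    refine ⟨hx1', fun j => ?_⟩
    have h3 : x.1 * x.2 j ^ N j + eval x.2 (e j) = 0 := congrFun hx2 j
    field_simp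
    linear_combination h3

end Ift

end Pool.Agent.QC.Elim
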