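import Pool.Agent.QC.Elim.Def
import Pool.Agent.QCG.Thin

/-!
# Nondegenerate zeros of the systems `eC`, `eS`

A kernel vector of the Jacobian gives a zero over the dual numbers; the zero comes from a point
over the dual numbers, which has no infinitesimal part.
-/

set_option autoImplicit false

namespace Pool.Agent.QC.Elim

open MvPolynomial

/-! ## Polynomials over the dual numbers -/

section Dual

variable {κ : Type*} [Fintype κ]

omit [Fintype κ] in
theorem fst_aeval (y : κ → DualNumber ℂ) (f : MvPolynomial κ ℂ) :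
    (aeval y f).fst = eval (fun k => (y k).fst) f := by
  induction f using MvPolynomial.induction_on with
  | C a => simp [TrivSqZeroExt.algebraMap_eq_inl]
  | add p q hp hq => simp [hp, hq]
  | mul_X p i hp => simp [hp]

theorem snd_aeval [DecidableEq κ] (y : κ → DualNumber ℂ) (f : MvPolynomial κ ℂ) :
    (aeval y f).snd = ∑ k, eval (fun k => (y k).fst) (pderiv k f) * (y k).snd := by
  induction f using MvPolynomial.induction_on with
  | C a => simp [TrivSqZeroExt.algebraMap_eq_inl]
  | add p q hp hq => simp [hp, hq, add_mul, Finset.sum_add_distrib]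
  | mul_X p i hp =>
    have h1 : ∀ k, eval (fun k => (y k).fst) (pderiv k (p * X i)) * (y k).snd =
        (if k = i then eval (fun k => (y k).fst) p * (y k).snd else 0) +
          (y i).fst * (eval (fun k => (y k).fst) (pderiv k p) * (y k).snd) := by
      intro k
      rw [Derivation.leibniz, pderiv_X, smul_eq_mul, smul_eq_mul, map_add, map_mul, map_mul,
        eval_X, Pi.single_apply]
      by_cases h : i = k
      · rw [if_pos h, if_pos h.symm, map_one]
        ring
      · rw [if_neg h, if_neg (Ne.symm h), map_zero]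
        ring
    rw [map_mul, aeval_X, TrivSqZeroExt.snd_mul, hp, fst_aeval, Finset.sum_congr rfl
      fun k _ => h1 k, Finset.sum_add_distrib, Finset.sum_ite_eq', if_pos (Finset.mem_univ i),
      ← Finset.mul_sum]
    simp only [smul_eq_mul, MulOpposite.smul_eq_mul_unop, MulOpposite.unop_op]
    ring

/-- A singular Jacobian gives a nontrivial zero over the dual numbers. -/
theorem exists_dual [DecidableEq κ] (E : κ → MvPolynomial κ ℂ) (u : κ → ℂ)
    (hz : ∀ j, eval u (E j) = 0)
    (hdet : (Matrix.of fun j k => eval u (pderiv k (E j))).det = 0) :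
    ∃ y : κ → DualNumber ℂ, (∀ k, (y k).fst = u k) ∧ (∃ k, (y k).snd ≠ 0) ∧
      ∀ j, aeval y (E j) = 0 := by
  obtain ⟨v, hv, hv'⟩ := Matrix.exists_mulVec_eq_zero_iff.mpr hdet
  refine ⟨fun k => TrivSqZeroExt.inl (u k) + TrivSqZeroExt.inr (v k), fun k => by simp, ?_,
    fun j => ?_⟩
  · by_contra hcon
    push Not at hcon
    apply hv
    funext k
    simpa using hcon k
  · have hu : (fun k => (TrivSqZeroExt.inl (u k) + TrivSqZeroExt.inr (v k) :
        DualNumber ℂ).fst) = u := by
      funext k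
      simp
    apply TrivSqZeroExt.ext
    · rw [fst_aeval, hu, hz j]
      rfl
    · rw [snd_aeval, hu]
      have h1 := congrFun hv' j
      simpa [Matrix.mulVec, dotProduct] using h1

end Dual

/-! ## The systems over a commutative ring -/

section Ring

variable {T : Type*} [CommRing T] {n l : ℕ}

theorem qh_mul {N : ℕ} (p : QP T N) (d : T) (y : Fin N → T) :
    qh p d (fun i => d * y i) = d ^ 2 * qvT p y := by
  have h1 : ∑ i, ∑ j, p.1 i j * (d * y i) * (d * y j) = d ^ 2 * ∑ i, ∑ j, p.1 i j * y i * y j := by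
    rw [Finset.mul_sum]
    refine Finset.sum_congr rfl fun i _ => ?_
    rw [Finset.mul_sum]
    refine Finset.sum_congr rfl fun j _ => ?_
    ring
  have h2 : ∑ i, p.2.1 i * (d * y i) = d * ∑ i, p.2.1 i * y i := by
    rw [Finset.mul_sum]
    refine Finset.sum_congr rfl fun i _ => ?_
    ring
  rw [qh, h1, h2, qvT]
  ring

theorem sum_qgT (q : Fin (l + 1) → QP T (n + 1)) (lam : Fin (l + 1) → T) (y : Fin (n + 1) → T)
    (i : Fin (n + 1)) :
    ∑ m, lam m * qgT (q m) i y = (∑ j, matL q lam i j * y j) + ∑ m, lam m * (q m).2.1 i := by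
  have h1 : ∑ j, matL q lam i j * y j =
      ∑ m, lam m * ∑ j, ((q m).1 i j + (q m).1 j i) * y j := by
    simp only [matL, Finset.sum_mul, Finset.mul_sum]
    rw [Finset.sum_comm]
    refine Finset.sum_congr rfl fun m _ => Finset.sum_congr rfl fun j _ => ?_
    ring
  rw [h1, ← Finset.sum_add_distrib]
  refine Finset.sum_congr rfl fun m _ => ?_
  rw [qgT]
  ring

/-- The linear part of the system for critical points. -/
theorem sum_castSucc (q : Fin (l + 1) → QP T (n + 1)) (lam : Fin (l + 1) → T)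
    (y : Fin (n + 1) → T) (i : Fin n) : ∑ m, lam m * qgT (q m) i.castSucc y =
      ((matL' q lam).mulVec fun j => y j.castSucc) i + vecL' q lam (y (Fin.last n)) i := by
  rw [sum_qgT, Fin.sum_univ_castSucc, vecL', add_assoc]
  rfl

theorem sum_all (q : Fin (l + 1) → QP T (n + 1)) (lam : Fin (l + 1) → T)
    (y : Fin (n + 1) → T) (i : Fin (n + 1)) : ∑ m, lam m * qgT (q m) i y =
      ((matL q lam).mulVec y) i + vecL q lam i := by
  rw [sum_qgT, vecL]
  rfl

/-- The point of a zero of the system for critical points. -/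
theorem solC_eq (q : Fin (l + 1) → QP T (n + 1)) (lam : Fin (l + 1) → T) (y : Fin (n + 1) → T)
    (h : ∀ i : Fin n, ∑ m, lam m * qgT (q m) i.castSucc y = 0) (i : Fin (n + 1)) :
    solC q lam (y (Fin.last n)) i = (matL' q lam).det * y i := by
  have h1 : vecL' q lam (y (Fin.last n)) = -((matL' q lam).mulVec fun j => y j.castSucc) := by
    funext i
    have h2 := h i
    rw [sum_castSucc] at h2
    exact eq_neg_of_add_eq_zero_right h2
  refine Fin.lastCases ?_ (fun j => ?_) i
  · rw [solC, Fin.snoc_last]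
  · rw [solC, Fin.snoc_castSucc, h1, Matrix.mulVec_neg, Matrix.mulVec_mulVec,
      Matrix.adjugate_mul, Matrix.smul_mulVec, Matrix.one_mulVec]
    simp

theorem solS_eq (q : Fin (l + 1) → QP T (n + 1)) (lam : Fin (l + 1) → T) (y : Fin (n + 1) → T)
    (h : ∀ i, ∑ m, lam m * qgT (q m) i y = 0) (i : Fin (n + 1)) :
    solS q lam i = (matL q lam).det * y i := by
  have h1 : vecL q lam = -((matL q lam).mulVec y) := by
    funext i
    have h2 := h i
    rw [sum_all] at h2
    exact eq_neg_of_add_eq_zero_right h2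
  rw [solS, h1, Matrix.mulVec_neg, Matrix.mulVec_mulVec,
      Matrix.adjugate_mul, Matrix.smul_mulVec, Matrix.one_mulVec]
  simp

/-- Points give zeros of the system for critical points. -/
theorem eqC_of (q : Fin (l + 1) → QP T (n + 1)) (lam : Fin (l + 1) → T) (y : Fin (n + 1) → T)
    (h : ∀ i : Fin n, ∑ m, lam m * qgT (q m) i.castSucc y = 0)
    (h1 : ∀ m, lam m * qvT (q m) y = 1) (h2 : ∏ m, lam m = 1) (o : Option (Fin (l + 1))) :
    eqC q lam (y (Fin.last n)) o = 0 := by
  cases o with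
  | none => rw [eqC, h2, sub_self]
  | some m =>
    have h3 : solC q lam (y (Fin.last n)) = fun i => (matL' q lam).det * y i :=
      funext fun i => solC_eq q lam y h i
    rw [eqC, h3, qh_mul]
    linear_combination (matL' q lam).det ^ 2 * h1 m

theorem eqS_of (q : Fin (l + 1) → QP T (n + 1)) (lam : Fin (l + 1) → T) (t : T)
    (y : Fin (n + 1) → T) (h : ∀ i, ∑ m, lam m * qgT (q m) i y = 0)
    (h1 : ∀ m, lam m * (qvT (q m) y + if m = 0 then t else 0) = 1) (h2 : ∏ m, lam m = 1)
    (o : Option (Fin (l + 1))) : eqS q lam t o = 0 := by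
  cases o with
  | none => rw [eqS, h2, sub_self]
  | some m =>
    have h3 : solS q lam = fun i => (matL q lam).det * y i := funext fun i => solS_eq q lam y h i
    have h4 := h1 m
    rw [eqS, h3, qh_mul]
    split_ifs at h4 ⊢
    · linear_combination (matL q lam).det ^ 2 * h4
    · linear_combination (matL q lam).det ^ 2 * h4

/-- Zeros of the system for critical points come from points. -/
theorem of_eqC (q : Fin (l + 1) → QP T (n + 1)) (lam : Fin (l + 1) → T) (z : T)
    (h : ∀ o, eqC q lam z o = 0) (hd : IsUnit (matL' q lam).det) :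
    ∃ y : Fin (n + 1) → T, y (Fin.last n) = z ∧ (∀ i, solC q lam z i = (matL' q lam).det * y i) ∧
      (∀ m, lam m * qvT (q m) y = 1) ∧ (∏ m, lam m = 1) ∧
      ∀ i : Fin n, ∑ m, lam m * qgT (q m) i.castSucc y = 0 := by
  obtain ⟨d, hd⟩ := hd
  have hy : ∀ i, solC q lam z i = (matL' q lam).det * ((↑d⁻¹ : T) * solC q lam z i) := by
    intro i
    rw [← mul_assoc, ← hd, Units.mul_inv, one_mul]
  refine ⟨fun i => (↑d⁻¹ : T) * solC q lam z i, ?_, hy, fun m => ?_, ?_, fun i => ?_⟩
  · change (↑d⁻¹ : T) * solC q lam z (Fin.last n) = z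
    rw [solC, Fin.snoc_last, ← hd, ← mul_assoc, Units.inv_mul, one_mul]
  · have h1 := h (some m)
    have h3 : solC q lam z = fun i => (matL' q lam).det * ((↑d⁻¹ : T) * solC q lam z i) :=
      funext hy
    rw [eqC, h3, qh_mul, ← hd] at h1
    have h4 : (↑(d ^ 2) : T) * (lam m * qvT (q m) (fun i => (↑d⁻¹ : T) * solC q lam z i)) =
        (↑(d ^ 2) : T) * 1 := by
      rw [Units.val_pow_eq_pow_val]
      linear_combination h1
    exact (Units.mul_right_inj (d ^ 2)).mp h4
  · have h1 := h none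
    rw [eqC, sub_eq_zero] at h1
    exact h1
  · rw [sum_castSucc]
    have h1 : (fun j : Fin n => (↑d⁻¹ : T) * solC q lam z j.castSucc) =
        -((↑d⁻¹ : T) • (matL' q lam).adjugate.mulVec (vecL' q lam z)) := by
      funext j
      rw [solC, Fin.snoc_castSucc]
      simp
    have h2 : (↑d⁻¹ : T) * solC q lam z (Fin.last n) = z := by
      rw [solC, Fin.snoc_last, ← hd, ← mul_assoc, Units.inv_mul, one_mul]
    rw [h1, h2, Matrix.mulVec_neg, Matrix.mulVec_smul, Matrix.mulVec_mulVec, Matrix.mul_adjugate,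
      Matrix.smul_mulVec, Matrix.one_mulVec, smul_smul, ← hd, Units.inv_mul, one_smul]
    simp

theorem of_eqS (q : Fin (l + 1) → QP T (n + 1)) (lam : Fin (l + 1) → T) (t : T)
    (h : ∀ o, eqS q lam t o = 0) (hd : IsUnit (matL q lam).det) :
    ∃ y : Fin (n + 1) → T, (∀ i, solS q lam i = (matL q lam).det * y i) ∧
      (∀ m, lam m * (qvT (q m) y + if m = 0 then t else 0) = 1) ∧ (∏ m, lam m = 1) ∧
      ∀ i, ∑ m, lam m * qgT (q m) i y = 0 := by
  obtain ⟨d, hd⟩ := hd
  have hy : ∀ i, solS q lam i = (matL q lam).det * ((↑d⁻¹ : T) * solS q lam i) := by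
    intro i
    rw [← mul_assoc, ← hd, Units.mul_inv, one_mul]
  refine ⟨fun i => (↑d⁻¹ : T) * solS q lam i, hy, fun m => ?_, ?_, fun i => ?_⟩
  · have h1 := h (some m)
    have h3 : solS q lam = fun i => (matL q lam).det * ((↑d⁻¹ : T) * solS q lam i) :=
      funext hy
    rw [eqS, h3, qh_mul, ← hd] at h1
    have h4 : (↑(d ^ 2) : T) * (lam m * (qvT (q m) (fun i => (↑d⁻¹ : T) * solS q lam i) +
        if m = 0 then t else 0)) = (↑(d ^ 2) : T) * 1 := by
      rw [Units.val_pow_eq_pow_val]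
      split_ifs at h1 ⊢
      · linear_combination h1
      · linear_combination h1
    exact (Units.mul_right_inj (d ^ 2)).mp h4
  · have h1 := h none
    rw [eqS, sub_eq_zero] at h1
    exact h1
  · rw [sum_all]
    have h1 : (fun j => (↑d⁻¹ : T) * solS q lam j) =
        -((↑d⁻¹ : T) • (matL q lam).adjugate.mulVec (vecL q lam)) := by
      funext j
      rw [solS]
      simp
    rw [h1, Matrix.mulVec_neg, Matrix.mulVec_smul, Matrix.mulVec_mulVec, Matrix.mul_adjugate,
      Matrix.smul_mulVec, Matrix.one_mulVec, smul_smul, ← hd, Units.inv_mul, one_smul]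
    simp

end Ring

/-! ## Evaluation -/

section Eval

variable {T : Type*} [CommRing T] [Algebra ℂ T]

theorem aeval_qpol {N : ℕ} (p : QPc N) (y : Fin N → T) :
    aeval y (qpol p) = qvT (mapQ (algebraMap ℂ T) p) y := by
  simp [qpol, qvT, mapQ]

theorem aeval_dqpol {N : ℕ} (p : QPc N) (y : Fin N → T) (k : Fin N) :
    aeval y (pderiv k (qpol p)) = qgT (mapQ (algebraMap ℂ T) p) k y := by
  rw [QCG.pderiv_qpol]
  simp [qgT, mapQ]

theorem aeval_dprod {N : ℕ} {ι : Type*} [DecidableEq ι] (s : Finset ι) (f : ι → Pol N)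
    (y : Fin N → T) (lam : ι → T) (k : Fin N) (h : ∀ m ∈ s, lam m * aeval y (f m) = 1) :
    aeval y (pderiv k (∏ m ∈ s, f m)) =
      (∏ m ∈ s, aeval y (f m)) * ∑ m ∈ s, lam m * aeval y (pderiv k (f m)) := by
  induction s using Finset.induction_on with
  | empty => simp
  | insert a s ha ih =>
    rw [Finset.prod_insert ha, Finset.prod_insert ha, Finset.sum_insert ha,
      Derivation.leibniz, map_add, smul_eq_mul, smul_eq_mul, map_mul, map_mul,
      map_prod (aeval y : Pol N →ₐ[ℂ] T), ih fun m hm => h m (Finset.mem_insert_of_mem hm)]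
    have h1 := h a (Finset.mem_insert_self a s)
    linear_combination (-(∏ m ∈ s, aeval y (f m)) * aeval y (pderiv k (f a))) * h1

variable {n l : ℕ}

theorem aeval_f0 (q : Tup n l) (y : Fin (n + 1) → T) :
    aeval y (f0 q) = (∏ m, aeval y (qpol (q m))) - 1 := by
  rw [f0, prodT, map_sub, map_prod, map_one]

theorem aeval_df0 (q : Tup n l) (y : Fin (n + 1) → T) (lam : Fin (l + 1) → T)
    (h : ∀ m, lam m * aeval y (qpol (q m)) = 1) (k : Fin (n + 1)) :
    aeval y (pderiv k (f0 q)) = (∏ m, aeval y (qpol (q m))) *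
      ∑ m, lam m * qgT (mapQ (algebraMap ℂ T) (q m)) k y := by
  rw [f0, prodT, map_sub, Derivation.map_one_eq_zero, sub_zero,
    aeval_dprod Finset.univ (fun m => qpol (q m)) y lam k fun m _ => h m]
  simp only [aeval_dqpol]

end Eval

section Complex

variable {n l : ℕ}

theorem mapQ_id {N : ℕ} (p : QPc N) : mapQ (algebraMap ℂ ℂ) p = p := rfl

theorem aeval_eq_eval {N : ℕ} (w : Fin N → ℂ) (f : Pol N) : aeval w f = eval w f := by
  rw [MvPolynomial.aeval_def, MvPolynomial.eval, Algebra.algebraMap_self]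
  rfl

/-- The equations of a critical point. -/
theorem crit_eqs (q : Tup n l) {w : Fin (n + 1) → ℂ} (hw : eval w (f0 q) = 0) :
    (∀ m, (eval w (qpol (q m)))⁻¹ * qvT (q m) w = 1) ∧
    (∏ m, (eval w (qpol (q m)))⁻¹ = 1) ∧
    ∀ i, eval w (pderiv i (f0 q)) = ∑ m, (eval w (qpol (q m)))⁻¹ * qgT (q m) i w := by
  have h1 : ∏ m, eval w (qpol (q m)) = 1 := by
    have h2 := aeval_f0 q w
    simp only [aeval_eq_eval] at h2
    rw [hw] at h2
    exact (sub_eq_zero.mp h2.symm)
  have h2 : ∀ m, eval w (qpol (q m)) ≠ 0 := fun m =>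
    (Finset.prod_ne_zero_iff (s := Finset.univ) (f := fun m => eval w (qpol (q m)))).mp
      (by rw [h1]; exact one_ne_zero) m (Finset.mem_univ m)
  refine ⟨fun m => ?_, ?_, fun i => ?_⟩
  · have h3 := aeval_qpol (q m) w
    rw [aeval_eq_eval, mapQ_id] at h3
    rw [← h3, inv_mul_cancel₀ (h2 m)]
  · rw [Finset.prod_inv_distrib, h1, inv_one]
  · have h3 := aeval_df0 q w (fun m => (eval w (qpol (q m)))⁻¹)
      (fun m => by rw [aeval_eq_eval, inv_mul_cancel₀ (h2 m)]) i
    simp only [aeval_eq_eval, mapQ_id] at h3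
    rw [h3, h1, one_mul]

/-- The systems at points over an algebra. -/
theorem aeval_eC {T : Type*} [CommRing T] [Algebra ℂ T] (q : Tup n l)
    (y : Option (Fin (l + 1)) → T) (o : Option (Fin (l + 1))) :
    aeval y (eC q o) = eqC (fun m => mapQ (algebraMap ℂ T) (q m)) (fun m => y (some m))
      (y none) o := by
  have h := map_eqC (aeval y : MvPolynomial (Option (Fin (l + 1))) ℂ →ₐ[ℂ] T).toRingHom
    (fun m => mapQ C (q m)) (fun m => X (some m)) (X none) o
  have h2 : ∀ m, mapQ (aeval y : MvPolynomial (Option (Fin (l + 1))) ℂ →ₐ[ℂ] T).toRingHom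
      (mapQ C (q m)) = mapQ (algebraMap ℂ T) (q m) := by
    intro m
    simp [mapQ]
  simp only [h2] at h
  simpa [eC] using h

theorem aeval_eS {T : Type*} [CommRing T] [Algebra ℂ T] (q : Tup n l)
    (y : Option (Fin (l + 1)) → T) (o : Option (Fin (l + 1))) :
    aeval y (eS q o) = eqS (fun m => mapQ (algebraMap ℂ T) (q m)) (fun m => y (some m))
      (y none) o := by
  have h := map_eqS (aeval y : MvPolynomial (Option (Fin (l + 1))) ℂ →ₐ[ℂ] T).toRingHom
    (fun m => mapQ C (q m)) (fun m => X (some m)) (X none) o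
  have h2 : ∀ m, mapQ (aeval y : MvPolynomial (Option (Fin (l + 1))) ℂ →ₐ[ℂ] T).toRingHom
      (mapQ C (q m)) = mapQ (algebraMap ℂ T) (q m) := by
    intro m
    simp [mapQ]
  simp only [h2] at h
  simpa [eS] using h

/-- Critical points give zeros of `eC`. -/
theorem eC_zero (q : Tup n l) {w : Fin (n + 1) → ℂ} (hw : w ∈ CritF (f0 q))
    (o : Option (Fin (l + 1))) : eval (uC q w) (eC q o) = 0 := by
  obtain ⟨h1, h2, h3⟩ := crit_eqs q hw.1
  have h4 := aeval_eC q (uC q w) o
  have h5 : aeval (uC q w) (eC q o) = eval (uC q w) (eC q o) := by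
    rw [MvPolynomial.aeval_def, MvPolynomial.eval, Algebra.algebraMap_self]
    rfl
  rw [← h5, h4]
  exact eqC_of q (fun m => (eval w (qpol (q m)))⁻¹) w
    (fun i => by rw [← h3]; exact hw.2 i) h1 h2 o

theorem sing_eqs (q : Tup n l) (t : ℂ) {v : Fin (n + 1) → ℂ} (hv : v ∈ SingF (f0 (addT q t))) :
    (∀ m, (eval v (qpol (addT q t m)))⁻¹ * (qvT (q m) v + if m = 0 then t else 0) = 1) ∧
    (∏ m, (eval v (qpol (addT q t m)))⁻¹ = 1) ∧
    ∀ i, ∑ m, (eval v (qpol (addT q t m)))⁻¹ * qgT (q m) i v = 0 := by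
  obtain ⟨h1, h2, h3⟩ := crit_eqs (addT q t) hv.1
  have h4 : ∀ m, qvT (addT q t m) v = qvT (q m) v + if m = 0 then t else 0 := by
    intro m
    rw [addT]
    split_ifs with h
    · rw [h]
      simp only [qvT]
      ring
    · rw [add_zero]
  have h5 : ∀ m i, qgT (addT q t m) i v = qgT (q m) i v := by
    intro m i
    rw [addT]
    split_ifs with h
    · rw [h]
      rfl
    · rfl
  refine ⟨fun m => ?_, h2, fun i => ?_⟩
  · rw [← h4]
    exact h1 m
  · have h6 := h3 i
    rw [hv.2 i] at h6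
    rw [h6]
    refine Finset.sum_congr rfl fun m _ => ?_
    rw [h5]

/-- Singular points give zeros of `eS`. -/
theorem eS_zero (q : Tup n l) (t : ℂ) {v : Fin (n + 1) → ℂ} (hv : v ∈ SingF (f0 (addT q t)))
    (o : Option (Fin (l + 1))) : eval (uS q t v) (eS q o) = 0 := by
  obtain ⟨h1, h2, h3⟩ := sing_eqs q t hv
  have h4 := aeval_eS q (uS q t v) o
  have h5 : aeval (uS q t v) (eS q o) = eval (uS q t v) (eS q o) := by
    rw [MvPolynomial.aeval_def, MvPolynomial.eval, Algebra.algebraMap_self]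
    rfl
  rw [← h5, h4]
  exact eqS_of q (fun m => (eval v (qpol (addT q t m)))⁻¹) t v h3 h1 h2 o

/-- The point is recovered from the unknowns. -/
theorem eS_sol (q : Tup n l) (t : ℂ) {v : Fin (n + 1) → ℂ} (hv : v ∈ SingF (f0 (addT q t)))
    (i : Fin (n + 1)) :
    solS q (fun m => (eval v (qpol (addT q t m)))⁻¹) i =
      (matL q (fun m => (eval v (qpol (addT q t m)))⁻¹)).det * v i :=
  solS_eq q _ v (sing_eqs q t hv).2.2 i

/-- A unit times an element of the dual numbers without infinitesimal part. -/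
theorem snd_eq_zero {a b : DualNumber ℂ} (h : a * b = 1) (hb : b.snd = 0) : a.snd = 0 := by
  have h1 : a.fst * b.fst = 1 := by
    rw [← TrivSqZeroExt.fst_mul, h, TrivSqZeroExt.fst_one]
  have h2 : (a * b).snd = 0 := by rw [h, TrivSqZeroExt.snd_one]
  rw [TrivSqZeroExt.snd_mul, hb] at h2
  have h3 : b.fst ≠ 0 := right_ne_zero_of_mul (h1.trans_ne one_ne_zero)
  simpa [h3] using h2

theorem mapQ_fst {N : ℕ} (p : QPc N) :
    mapQ (TrivSqZeroExt.fstHom ℂ ℂ ℂ : DualNumber ℂ →ₐ[ℂ] ℂ).toRingHom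
      (mapQ (algebraMap ℂ (DualNumber ℂ)) p) = p := by
  simp [mapQ]

/-- They are nondegenerate. -/
theorem eC_jac (q : Tup n l) {w : Fin (n + 1) → ℂ} (hw : w ∈ CritF (f0 q))
    (hnd : NonDegC (f0 q) w)
    (hdet : (matL' q (fun m => (eval w (qpol (q m)))⁻¹)).det ≠ 0) :
    (Matrix.of fun j k => eval (uC q w) (pderiv k (eC q j))).det ≠ 0 := by
  intro hJ
  obtain ⟨y, hy1, ⟨k₀, hk₀⟩, hy3⟩ := exists_dual (eC q) (uC q w) (eC_zero q hw) hJ
  apply hk₀
  clear hk₀
  obtain ⟨ψ, hψ⟩ : ∃ ψ : DualNumber ℂ →+* ℂ,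
      ψ = (TrivSqZeroExt.fstHom ℂ ℂ ℂ : DualNumber ℂ →ₐ[ℂ] ℂ).toRingHom := ⟨_, rfl⟩
  have hψ' : ∀ x, ψ x = x.fst := by
    intro x
    rw [hψ]
    rfl
  have hq : ∀ m, mapQ ψ (mapQ (algebraMap ℂ (DualNumber ℂ)) (q m)) = q m := by
    intro m
    rw [hψ]
    exact mapQ_fst (q m)
  have hlam : ∀ m, ψ (y (some m)) = (eval w (qpol (q m)))⁻¹ := by
    intro m
    rw [hψ', hy1]
    rfl
  have h : ∀ o, eqC (fun m => mapQ (algebraMap ℂ (DualNumber ℂ)) (q m)) (fun m => y (some m))
      (y none) o = 0 := by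
    intro o
    rw [← aeval_eC]
    exact hy3 o
  have hdf : ψ (matL' (fun m => mapQ (algebraMap ℂ (DualNumber ℂ)) (q m))
      (fun m => y (some m))).det = (matL' q (fun m => (eval w (qpol (q m)))⁻¹)).det := by
    rw [map_det, map_matL']
    simp only [hq, hlam]
  have hd : IsUnit (matL' (fun m => mapQ (algebraMap ℂ (DualNumber ℂ)) (q m))
      (fun m => y (some m))).det := by
    rw [TrivSqZeroExt.isUnit_iff_isUnit_fst, ← hψ', hdf]
    exact hdet.isUnit
  obtain ⟨Y, e1, e2, e3, e4, e5⟩ := of_eqC _ _ _ h hd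
  obtain ⟨c1, c2, c3⟩ := crit_eqs q hw.1
  have hY : ∀ i, (Y i).fst = w i := by
    intro i
    have h1 := congrArg ψ (e2 i)
    rw [map_mul, hdf, map_solC] at h1
    simp only [hq, hlam] at h1
    have h2 : ψ (y none) = w (Fin.last n) := by
      rw [hψ', hy1]
      rfl
    rw [h2, solC_eq q _ w (fun i => by rw [← c3]; exact hw.2 i)] at h1
    rw [← hψ']
    exact (mul_left_cancel₀ hdet h1).symm
  have hYw : (fun k => (Y k).fst) = w := funext hY
  have hlam' : ∀ m, y (some m) * aeval Y (qpol (q m)) = 1 := by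
    intro m
    rw [aeval_qpol]
    exact e3 m
  have hf : aeval Y (f0 q) = 0 := by
    have h1 : ∏ m, (y (some m) * aeval Y (qpol (q m))) = 1 :=
      Finset.prod_eq_one fun m _ => hlam' m
    rw [Finset.prod_mul_distrib, e4, one_mul] at h1
    rw [aeval_f0, h1, sub_self]
  have hlast : (Y (Fin.last n)).snd = 0 := by
    have h1 := snd_aeval Y (f0 q)
    rw [hf, hYw, Fin.sum_univ_castSucc, TrivSqZeroExt.snd_zero] at h1
    rw [Finset.sum_eq_zero fun i _ => by rw [hw.2 i, zero_mul], zero_add] at h1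
    exact (mul_eq_zero.mp h1.symm).resolve_left hnd.2
  have hfirst : (fun i : Fin n => (Y i.castSucc).snd) = 0 := by
    refine Matrix.eq_zero_of_vecMul_eq_zero hnd.1 ?_
    funext i
    have h1 := snd_aeval Y (pderiv i.castSucc (f0 q))
    rw [aeval_df0 q Y (fun m => y (some m)) hlam' i.castSucc, e5 i, mul_zero, hYw,
      Fin.sum_univ_castSucc, hlast, mul_zero, add_zero, TrivSqZeroExt.snd_zero] at h1
    rw [Pi.zero_apply, h1, Matrix.vecMul, dotProduct]
    refine Finset.sum_congr rfl fun k _ => ?_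
    rw [hess', mul_comm]
  have hall : ∀ k, (Y k).snd = 0 := by
    intro k
    refine Fin.lastCases hlast (fun i => ?_) k
    exact congrFun hfirst i
  cases k₀ with
  | none => rw [← e1, hlast]
  | some m =>
    refine snd_eq_zero (hlam' m) ?_
    rw [snd_aeval]
    exact Finset.sum_eq_zero fun k _ => by rw [hall k, mul_zero]

/-- They are nondegenerate. -/
theorem eS_jac (q : Tup n l) (t : ℂ) {v : Fin (n + 1) → ℂ} (hv : v ∈ SingF (f0 (addT q t)))
    (hnd : (hess (f0 (addT q t)) v).det ≠ 0)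
    (hdet : (matL q (fun m => (eval v (qpol (addT q t m)))⁻¹)).det ≠ 0) :
    (Matrix.of fun j k => eval (uS q t v) (pderiv k (eS q j))).det ≠ 0 := by
  intro hJ
  obtain ⟨y, hy1, ⟨k₀, hk₀⟩, hy3⟩ := exists_dual (eS q) (uS q t v) (eS_zero q t hv) hJ
  apply hk₀
  clear hk₀
  obtain ⟨ψ, hψ⟩ : ∃ ψ : DualNumber ℂ →+* ℂ,
      ψ = (TrivSqZeroExt.fstHom ℂ ℂ ℂ : DualNumber ℂ →ₐ[ℂ] ℂ).toRingHom := ⟨_, rfl⟩
  have hψ' : ∀ x, ψ x = x.fst := by
    intro x
    rw [hψ]
    rfl
  have hq : ∀ m, mapQ ψ (mapQ (algebraMap ℂ (DualNumber ℂ)) (q m)) = q m := by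
    intro m
    rw [hψ]
    exact mapQ_fst (q m)
  have hlam : ∀ m, ψ (y (some m)) = (eval v (qpol (addT q t m)))⁻¹ := by
    intro m
    rw [hψ', hy1]
    rfl
  have ht : (y none).fst = t := by
    rw [hy1]
    rfl
  have h : ∀ o, eqS (fun m => mapQ (algebraMap ℂ (DualNumber ℂ)) (q m)) (fun m => y (some m))
      (y none) o = 0 := by
    intro o
    rw [← aeval_eS]
    exact hy3 o
  have hdf : ψ (matL (fun m => mapQ (algebraMap ℂ (DualNumber ℂ)) (q m))
      (fun m => y (some m))).det =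
      (matL q (fun m => (eval v (qpol (addT q t m)))⁻¹)).det := by
    rw [map_det, map_matL]
    simp only [hq, hlam]
  have hd : IsUnit (matL (fun m => mapQ (algebraMap ℂ (DualNumber ℂ)) (q m))
      (fun m => y (some m))).det := by
    rw [TrivSqZeroExt.isUnit_iff_isUnit_fst, ← hψ', hdf]
    exact hdet.isUnit
  obtain ⟨Y, e2, e3, e4, e5⟩ := of_eqS _ _ _ h hd
  obtain ⟨c1, c2, c3⟩ := sing_eqs q t hv
  have hY : ∀ i, (Y i).fst = v i := by
    intro i
    have h1 := congrArg ψ (e2 i)
    rw [map_mul, hdf, map_solS] at h1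
    simp only [hq, hlam] at h1
    rw [solS_eq q _ v c3] at h1
    rw [← hψ']
    exact (mul_left_cancel₀ hdet h1).symm
  have hYv : (fun k => (Y k).fst) = v := funext hY
  have hval : ∀ m, aeval Y (qpol (addT q t m)) = qvT (mapQ (algebraMap ℂ (DualNumber ℂ)) (q m)) Y +
      if m = 0 then algebraMap ℂ (DualNumber ℂ) t else 0 := by
    intro m
    rw [aeval_qpol, addT]
    split_ifs with hm
    · rw [hm]
      simp only [qvT, mapQ, map_add]
      ring
    · rw [add_zero]
  have hgr : ∀ m i, qgT (mapQ (algebraMap ℂ (DualNumber ℂ)) (addT q t m)) i Y =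
      qgT (mapQ (algebraMap ℂ (DualNumber ℂ)) (q m)) i Y := by
    intro m i
    rw [addT]
    split_ifs with hm
    · rw [hm]
      rfl
    · rfl
  -- the parameter `t` has no infinitesimal part
  have hts : (y none).snd = 0 := by
    have h1 : ∏ m, (y (some m) * (qvT (mapQ (algebraMap ℂ (DualNumber ℂ)) (q m)) Y +
        if m = 0 then y none else 0)) = 1 := Finset.prod_eq_one fun m _ => e3 m
    rw [Finset.prod_mul_distrib, e4, one_mul, Fin.prod_univ_succ, if_pos rfl] at h1
    have h2 := aeval_f0 (addT q t) Y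
    rw [Fin.prod_univ_succ, hval 0, if_pos rfl] at h2
    have h3 : ∀ m : Fin l, aeval Y (qpol (addT q t m.succ)) =
        qvT (mapQ (algebraMap ℂ (DualNumber ℂ)) (q m.succ)) Y +
          if m.succ = 0 then y none else 0 := by
      intro m
      rw [hval, if_neg (Fin.succ_ne_zero m), if_neg (Fin.succ_ne_zero m)]
    rw [Finset.prod_congr rfl fun m _ => h3 m] at h2
    obtain ⟨R, hR⟩ : ∃ R : DualNumber ℂ, R = ∏ m : Fin l,
        (qvT (mapQ (algebraMap ℂ (DualNumber ℂ)) (q m.succ)) Y +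
          if m.succ = 0 then y none else 0) := ⟨_, rfl⟩
    rw [← hR] at h1 h2
    have h4 : aeval Y (f0 (addT q t)) = -((y none - algebraMap ℂ (DualNumber ℂ) t) * R) := by
      rw [h2]
      linear_combination h1
    have h5 : (aeval Y (f0 (addT q t))).snd = 0 := by
      rw [snd_aeval, hYv]
      exact Finset.sum_eq_zero fun k _ => by rw [hv.2 k, zero_mul]
    have h6 : R.fst ≠ 0 := by
      have h7 := congrArg TrivSqZeroExt.fst h1
      rw [TrivSqZeroExt.fst_mul, TrivSqZeroExt.fst_one] at h7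
      exact right_ne_zero_of_mul (h7.trans_ne one_ne_zero)
    rw [h4, TrivSqZeroExt.snd_neg, TrivSqZeroExt.snd_mul] at h5
    simp only [TrivSqZeroExt.fst_sub, TrivSqZeroExt.snd_sub, ht,
      TrivSqZeroExt.algebraMap_eq_inl, TrivSqZeroExt.fst_inl, TrivSqZeroExt.snd_inl, sub_self,
      zero_smul, zero_add, sub_zero, neg_eq_zero] at h5
    simpa [h6] using h5
  have htt : y none = algebraMap ℂ (DualNumber ℂ) t := by
    apply TrivSqZeroExt.ext
    · rw [ht]
      rfl
    · rw [hts]
      rfl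
  have hlam' : ∀ m, y (some m) * aeval Y (qpol (addT q t m)) = 1 := by
    intro m
    rw [hval, ← htt]
    exact e3 m
  have hall : (fun i => (Y i).snd) = 0 := by
    refine Matrix.eq_zero_of_vecMul_eq_zero hnd ?_
    funext i
    have h1 := snd_aeval Y (pderiv i (f0 (addT q t)))
    rw [aeval_df0 (addT q t) Y (fun m => y (some m)) hlam' i] at h1
    simp only [hgr] at h1
    rw [e5 i, mul_zero, hYv, TrivSqZeroExt.snd_zero] at h1
    rw [Pi.zero_apply, h1, Matrix.vecMul, dotProduct]
    refine Finset.sum_congr rfl fun k _ => ?_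
    rw [hess, mul_comm]
  cases k₀ with
  | none => exact hts
  | some m =>
    refine snd_eq_zero (hlam' m) ?_
    rw [snd_aeval]
    exact Finset.sum_eq_zero fun k _ => by rw [congrFun hall k, Pi.zero_apply, mul_zero]

end Complex

end Pool.Agent.QC.Elim
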