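import Pool.Agent.QC.Elim.Nz
import Pool.Agent.QCG.Nice2

/-!
# The determinant hypotheses of `Nz` from the genericity clauses `NiceA`
-/

set_option autoImplicit false

namespace Pool.Agent.QC.Elim

open MvPolynomial

variable {n l : ℕ}

theorem niceA_crit {q : Tup n l} (h : QCG.NiceA q) {w : Fin (n + 1) → ℂ}
    (hw : w ∈ CritF (f0 q)) : (matL' q (fun m => (eval w (qpol (q m)))⁻¹)).det ≠ 0 :=
  h.1 w hw

theorem niceA_sing {q : Tup n l} (h : QCG.NiceA q) (t : ℂ) {v : Fin (n + 1) → ℂ}
    (hv : v ∈ SingF (f0 (addT q t))) :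
    (matL q (fun m => (eval v (qpol (addT q t m)))⁻¹)).det ≠ 0 := by
  have h1 := h.2 t v hv
  have h2 : QCG.lamM (addT q t) v = matL q (fun m => (eval v (qpol (addT q t m)))⁻¹) := by
    ext i j
    rw [QCG.lamM, matL]
    refine Finset.sum_congr rfl fun m _ => ?_
    have h3 : (addT q t m).1 = (q m).1 := by
      rw [addT]
      split_ifs with hm
      · rw [hm]
      · rfl
    rw [h3]
  rw [← h2]
  exact h1

end Pool.Agent.QC.Elim
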