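import Pool.Agent.QC.Elim.Inst
import Pool.Agent.QC.Elim.Gen
import Pool.Agent.QC.Elim.Nz
import Pool.Agent.QCG.Final
import Pool.Agent.QC.Rec.Data

/-!
# The root system of the resolvent polynomial for critical points
-/

namespace Pool.Agent.QC.Elim

open MvPolynomial Filter Topology

variable {n l : ℕ}

lemma evC_eq_cevHom {σ : Type*} (x : σ → ℂ) : evC x = cevHom x := rfl

/-- The resolvent polynomial for critical points. -/
noncomputable def rZ (n l : ℕ) : Polynomial (MvPolynomial (Ix n l) ℤ) := (sysC n l).rz none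

/-- The same with complex coefficients. -/
noncomputable def toC {σ : Type*} : MvPolynomial σ ℤ →+* MvPolynomial σ ℂ :=
  map (Int.castRingHom ℂ)

lemma toC_injective {σ : Type*} : Function.Injective (toC (σ := σ)) :=
  map_injective _ Int.cast_injective

lemma eval_toC {σ : Type*} (x : σ → ℂ) (a : MvPolynomial σ ℤ) : eval x (toC a) = evC x a := by
  rw [toC, eval_map, evC]
  show eval₂ (Int.castRingHom ℂ) x a = aeval x a
  rw [aeval_def]
  rfl

lemma map_eval_toC {σ : Type*} (x : σ → ℂ) (r : Polynomial (MvPolynomial σ ℤ)) :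
    (r.map toC).map (eval x) = r.map (evC x) := by
  rw [Polynomial.map_map]
  congr 1
  refine RingHom.ext fun a => ?_
  exact eval_toC x a

/-- Conditions on `Phi` under which the elimination works. -/
structure PhiOK (Phi : MvPolynomial (Ix n l) ℂ) (M : ℕ) : Prop where
  good : GoodPhi Phi
  niceA : ∀ q : Tup n l, eval (cfs q) Phi ≠ 0 → QCG.NiceA q
  lead : ∀ q : Tup n l, eval (cfs q) Phi ≠ 0 → evC (cfs q) (rZ n l).leadingCoeff ≠ 0
  card : ∀ q : Tup n l, eval (cfs q) Phi ≠ 0 →
    {z | ((rZ n l).map (evC (cfs q))).eval z = 0}.ncard = M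
  sing : ∀ q : Tup n l, eval (cfs q) Phi ≠ 0 →
    (sysS n l).rr.map (map (evC (cfs q))) ≠ 0

theorem exists_phiOK (n l : ℕ) (hl : 1 ≤ l) :
    ∃ (Phi : MvPolynomial (Ix n l) ℂ) (M : ℕ), Phi ≠ 0 ∧ PhiOK Phi M := by
  obtain ⟨Phi1, h1, h1'⟩ := QCG.genericity_l n l hl
  obtain ⟨Phi2, h2, h2'⟩ := QCG.genericityA n l
  have hrZ : rZ n l ≠ 0 := Sq.rz_ne_zero _ _
  have hrC : (rZ n l).map toC ≠ 0 := by
    rwa [Ne, Polynomial.map_eq_zero_iff toC_injective]
  obtain ⟨M, Phi3, h3, h3'⟩ := generic_roots ((rZ n l).map toC) hrC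
  -- a coefficient of the resolvent for singular points
  have hrr : (sysS n l).rr.leadingCoeff ≠ 0 := Polynomial.leadingCoeff_ne_zero.2 (Sq.rr_ne_zero _)
  obtain ⟨δ, hδ⟩ := ne_zero_iff.1 hrr
  refine ⟨Phi1 * Phi2 * Phi3 * toC (rZ n l).leadingCoeff *
    toC (coeff δ (sysS n l).rr.leadingCoeff), M, ?_, ?_⟩
  · have e1 : toC (rZ n l).leadingCoeff ≠ 0 := fun h =>
      (Polynomial.leadingCoeff_ne_zero.2 hrZ) (toC_injective (by rw [h, map_zero]))
    have e2 : toC (coeff δ (sysS n l).rr.leadingCoeff) ≠ 0 := fun h =>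
      hδ (toC_injective (by rw [h, map_zero]))
    exact mul_ne_zero (mul_ne_zero (mul_ne_zero (mul_ne_zero h1 h2) h3) e1) e2
  · have key : ∀ q : Tup n l, eval (cfs q) (Phi1 * Phi2 * Phi3 * toC (rZ n l).leadingCoeff *
        toC (coeff δ (sysS n l).rr.leadingCoeff)) ≠ 0 →
        eval (cfs q) Phi1 ≠ 0 ∧ eval (cfs q) Phi2 ≠ 0 ∧ eval (cfs q) Phi3 ≠ 0 ∧
        evC (cfs q) (rZ n l).leadingCoeff ≠ 0 ∧
        evC (cfs q) (coeff δ (sysS n l).rr.leadingCoeff) ≠ 0 := by
      intro q hq
      simp only [map_mul, mul_ne_zero_iff, eval_toC] at hq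
      obtain ⟨⟨⟨⟨a, b⟩, c⟩, d⟩, e⟩ := hq
      exact ⟨a, b, c, d, e⟩
    refine ⟨fun q hq => h1' q (key q hq).1, fun q hq => h2' q (key q hq).2.1,
      fun q hq => (key q hq).2.2.2.1, fun q hq => ?_, fun q hq h0 => ?_⟩
    · have := (h3' (cfs q) (key q hq).2.2.1).2.2
      rwa [map_eval_toC] at this
    · apply (key q hq).2.2.2.2
      have e1 := congrArg (fun f => coeff δ (Polynomial.coeff f (sysS n l).rr.natDegree)) h0
      simp only [Polynomial.coeff_map, Polynomial.coeff_natDegree, Polynomial.coeff_zero,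
        coeff_zero] at e1
      rw [coeff_map] at e1
      exact e1

/-- Zeros of `eC` at critical points. -/
theorem nz_crit {Phi : MvPolynomial (Ix n l) ℂ} {M : ℕ} (h : PhiOK Phi M) (q : Tup n l)
    (hq : eval (cfs q) Phi ≠ 0) {w : Fin (n + 1) → ℂ} (hw : w ∈ CritF (f0 q)) :
    (sysC n l).NZ (cfs q) (uC q w) := by
  have hN2 := (h.good q hq).2.2.1
  refine ⟨fun o => ?_, ?_⟩
  · rw [sysC_map]
    exact eC_zero q hw o
  · simp only [sysC_map]
    refine eC_jac q hw (hN2.1 w hw) ?_
    exact (h.niceA q hq).1 w hw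

/-- Zeros of `eS` at singular points. -/
theorem nz_sing {Phi : MvPolynomial (Ix n l) ℂ} {M : ℕ} (h : PhiOK Phi M) (q : Tup n l)
    (hq : eval (cfs q) Phi ≠ 0) (t : ℂ) {v : Fin (n + 1) → ℂ}
    (hv : v ∈ SingF (f0 (addT q t))) :
    (sysS n l).NZ (cfs q) (uS q t v) := by
  have hN3 := (h.good q hq).2.2.2 t v hv
  have hA : ∀ m, (addT q t m).1 = (q m).1 := by
    intro m
    rw [addT]
    split_ifs with hm
    · rw [hm]
    · rfl
  refine ⟨fun o => ?_, ?_⟩
  · rw [sysS_map]
    exact eS_zero q t hv o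
  · simp only [sysS_map]
    refine eS_jac q t hv hN3.1 ?_
    have h1 := (h.niceA q hq).2 t v hv
    have h2 : QCG.lamM (addT q t) v = matL q fun m => (eval v (qpol (addT q t m)))⁻¹ := by
      ext i j
      simp only [QCG.lamM, matL, hA]
    rwa [h2] at h1

lemma continuous_evC (a : MvPolynomial (Ix n l) ℤ) :
    Continuous fun q : Tup n l => evC (cfs q) a := by
  have h1 : Continuous fun q : Tup n l => (cfs q : Ix n l → ℂ) := by
    refine continuous_pi fun i => ?_
    obtain ⟨m, (jk | j | u)⟩ := i <;> simp only [cfs, Sum.elim_inl, Sum.elim_inr] <;> fun_prop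
  have h2 : Continuous fun x : Ix n l → ℂ => evC x a := by
    have : (fun x : Ix n l → ℂ => evC x a) = fun x => eval x (toC a) := by
      funext x
      rw [eval_toC]
    rw [this]
    exact (toC a).continuous_eval
  exact h2.comp h1

/-- The root system. -/
noncomputable def mkRS {Phi : MvPolynomial (Ix n l) ℂ} {M : ℕ} (h : PhiOK Phi M) :
    RootSys Phi where
  Rt := fun q => {z | ((rZ n l).map (evC (cfs q))).eval z = 0}
  M := M
  finite := fun q hq => by
    have h0 : (rZ n l).map (evC (cfs q)) ≠ 0 := by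
      intro h0
      have := congrArg (fun f => Polynomial.coeff f (rZ n l).natDegree) h0
      simp only [Polynomial.coeff_map, Polynomial.coeff_natDegree, Polynomial.coeff_zero] at this
      exact h.lead q hq this
    refine (Polynomial.rootSet_finite ((rZ n l).map (evC (cfs q))) ℂ).subset fun z hz => ?_
    rw [Polynomial.mem_rootSet]
    exact ⟨h0, by simpa using hz⟩
  card := fun q hq => h.card q hq
  sub := fun q hq => by
    rintro _ ⟨w, hw, rfl⟩
    exact (nz_crit h q hq hw).root_rz (sysC n l) none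
  cont := fun q hq z hz O hO => by
    have h1 := roots_lsc (x₀ := q) (fun q' : Tup n l => (rZ n l).map (evC (cfs q')))
      (rZ n l).natDegree ?_ ?_ ?_ hz hO
    · filter_upwards [h1] with q' hq'
      obtain ⟨w, hw1, hw2⟩ := hq'
      exact ⟨w, hw2, hw1⟩
    · have h2 : ∀ᶠ q' : Tup n l in 𝓝 q, evC (cfs q') (rZ n l).leadingCoeff ≠ 0 :=
        (continuous_evC _).continuousAt.eventually_ne (h.lead q hq)
      filter_upwards [h2] with q' hq'
      exact Polynomial.natDegree_map_of_leadingCoeff_ne_zero _ hq'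
    · rw [Polynomial.coeff_map]
      exact h.lead q hq
    · intro i
      simp only [Polynomial.coeff_map]
      exact (continuous_evC _).continuousAt
  conj := fun q z hz => by
    have h1 : (starRingEnd ℂ).comp (evC (cfs (tC q))) = evC (cfs (tC q)) := by
      refine ringHom_ext (fun a => ?_) (fun i => ?_)
      · simp
      · obtain ⟨m, (jk | j | u)⟩ := i <;> simp [evC, cfs, tC]
    have h2 := congrArg (starRingEnd ℂ) hz
    rw [map_zero, ← Polynomial.eval₂_at_apply, ← Polynomial.eval_map, Polynomial.map_map, h1] at h2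
    exact h2

end Pool.Agent.QC.Elim
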