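import Pool.Agent.QC.Rec.Data
import Pool.Agent.QC.Elim.Def

/-!
# Output of the elimination for singular points (events): list of candidates
-/

namespace Pool.Agent.QC

open MvPolynomial Matrix Filter Topology Elim

/-- Candidates for the singular points: for each `j` of a polynomially large index type,
polynomials `P`, `G`, `Nu` in one variable `T` over `ℤ[q]`.  Every real singular point `v` of a
level `q + t` is obtained from some `j` and some real root `T` of `P`: `lam m = Nu (some m) / G`,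
`t = Nu none / G`, `v = solS q lam / det (matL q lam)`. -/
structure SingData (E : ElimData) where
  /-- index type of the candidates -/
  J : NL → Type
  /-- it is finite -/
  [fin : ∀ p, Fintype (J p)]
  card : Bd LL (fun p => Fintype.card (J p))
  /-- the equation for `T` -/
  P : ∀ p : NL, J p → Polynomial (MvPolynomial (Ix p.1.1 p.1.2) ℤ)
  /-- the denominator -/
  G : ∀ p : NL, J p → Polynomial (MvPolynomial (Ix p.1.1 p.1.2) ℤ)
  /-- the numerators -/
  Nu : ∀ p : NL, J p → Option (Fin (p.1.2 + 1)) → Polynomial (MvPolynomial (Ix p.1.1 p.1.2) ℤ)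
  P_deg : Bd (fun x : Σ p : NL, J p => LL x.1) (fun x => (P x.1 x.2).natDegree)
  G_deg : Bd (fun x : Σ p : NL, J p => LL x.1) (fun x => (G x.1 x.2).natDegree)
  Nu_deg : Bd (fun x : Σ p : NL, J p × Option (Fin (p.1.2 + 1)) => LL x.1)
    (fun x => (Nu x.1 x.2.1 x.2.2).natDegree)
  P_easy : EasyP (fun x : Σ p : NL, J p => LL x.1) (σ := fun x => Ix x.1.1.1 x.1.1.2)
    (fun x => Set.range (P x.1 x.2).coeff)
  G_easy : EasyP (fun x : Σ p : NL, J p => LL x.1) (σ := fun x => Ix x.1.1.1 x.1.1.2)
    (fun x => Set.range (G x.1 x.2).coeff)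
  Nu_easy : EasyP (fun x : Σ p : NL, J p × Option (Fin (p.1.2 + 1)) => LL x.1)
    (σ := fun x => Ix x.1.1.1 x.1.1.2)
    (fun x => Set.range (Nu x.1 x.2.1 x.2.2).coeff)
  cand : ∀ (p : NL) (q : RTup p.1.1 p.1.2), eval (cfs (tC q)) (E.Phi p) ≠ 0 →
    ∀ (t : ℝ) (v : Fin (p.1.1 + 1) → ℝ), xC v ∈ SingF (f0 (tC (addT q t))) →
    ∃ (j : J p) (T : ℝ), (spec (P p j) (cfs q)).eval T = 0 ∧
      (spec (P p j) (cfs q)) ≠ 0 ∧ (spec (G p j) (cfs q)).eval T ≠ 0 ∧
      t = (spec (Nu p j none) (cfs q)).eval T / (spec (G p j) (cfs q)).eval T ∧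
      (matL q fun m => (spec (Nu p j (some m)) (cfs q)).eval T /
        (spec (G p j) (cfs q)).eval T).det ≠ 0 ∧
      ∀ i, v i = solS q (fun m => (spec (Nu p j (some m)) (cfs q)).eval T /
          (spec (G p j) (cfs q)).eval T) i /
        (matL q fun m => (spec (Nu p j (some m)) (cfs q)).eval T /
          (spec (G p j) (cfs q)).eval T).det

attribute [instance] SingData.fin

end Pool.Agent.QC
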