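import Pool.Agent.QC.Elim.Ez2
import Pool.Agent.QC.Elim.Roots
import Pool.Agent.QC.Elim.SData
import Pool.Agent.QC.Lab.Paths

/-!
# The output of the elimination
-/

namespace Pool.Agent.QC

open MvPolynomial Matrix Filter Topology Elim

namespace Elim

section Real

variable {n l : ℕ}

lemma cfs_tC (q : RTup n l) : (fun i => ((cfs q i : ℝ) : ℂ)) = cfs (tC q) := by
  funext i
  obtain ⟨m, (jk | j | u)⟩ := i <;> simp [cfs, tC]

/-- The real unknowns belonging to a real singular point of `q + t`. -/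
noncomputable def uR (q : RTup n l) (t : ℝ) (v : Fin (n + 1) → ℝ) : Option (Fin (l + 1)) → ℝ
  | none => t
  | some m => (qvR (addT q t m) v)⁻¹

lemma eval_qpol_tC (q : RTup n l) (v : Fin (n + 1) → ℝ) (m : Fin (l + 1)) :
    eval (xC v) (qpol (tC q m)) = ((qvR (q m) v : ℝ) : ℂ) := by
  simp [qpol, qvR, tC, xC]

lemma uR_eq (q : RTup n l) (t : ℝ) (v : Fin (n + 1) → ℝ) :
    (fun o => ((uR q t v o : ℝ) : ℂ)) = uS (tC q) (t : ℂ) (xC v) := by
  funext o
  cases o with
  | none => rfl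
  | some m =>
    rw [uR, uS, ← Lab.tC_addT, eval_qpol_tC, Complex.ofReal_inv]

lemma mapQ_tC (q : RTup n l) (m : Fin (l + 1)) :
    mapQ (Complex.ofRealHom : ℝ →+* ℂ) (q m) = tC q m := rfl

lemma matL_tC (q : RTup n l) (lam : Fin (l + 1) → ℝ) :
    (matL (tC q) fun m => ((lam m : ℝ) : ℂ)).det = (((matL q lam).det : ℝ) : ℂ) := by
  have h1 := map_matL (Complex.ofRealHom : ℝ →+* ℂ) q lam
  have h2 := map_det (Complex.ofRealHom : ℝ →+* ℂ) (matL q lam)
  rw [h1] at h2
  exact h2.symm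

lemma solS_tC (q : RTup n l) (lam : Fin (l + 1) → ℝ) (i : Fin (n + 1)) :
    solS (tC q) (fun m => ((lam m : ℝ) : ℂ)) i = ((solS q lam i : ℝ) : ℂ) :=
  (map_solS (Complex.ofRealHom : ℝ →+* ℂ) q lam i).symm

lemma atP_ne_zero {Phi : MvPolynomial (Ix n l) ℂ} {M : ℕ} (h : PhiOK Phi M) (q : RTup n l)
    (hq : eval (cfs (tC q)) Phi ≠ 0) : atP (sysS n l).rr (cfs q) ≠ 0 := by
  intro h0
  apply h.sing (tC q) hq
  have h1 : (MvPolynomial.map (Complex.ofRealHom : ℝ →+* ℂ)).comp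
      (MvPolynomial.map (evHom (cfs q))) =
      (MvPolynomial.map (evC (cfs (tC q))) : MvPolynomial (Option (Fin (l + 1))) (MvPolynomial (Ix n l) ℤ) →+*
        _) := by
    refine ringHom_ext (fun a => ?_) (fun i => ?_)
    · simp only [RingHom.comp_apply, map_C]
      have h4 : (Complex.ofRealHom : ℝ →+* ℂ).comp (evHom (cfs q)) = evC (cfs (tC q)) := by
        rw [← cfs_tC]
        refine ringHom_ext (fun a => ?_) (fun i => ?_)
        · simp [evC]
        · simp [evC]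
      exact congrArg C (congrArg (fun f : MvPolynomial (Ix n l) ℤ →+* ℂ => f a) h4)
    · simp
  rw [← h1, ← Polynomial.map_map]
  have h2 : (sysS n l).rr.map (MvPolynomial.map (evHom (cfs q))) = 0 := h0
  rw [h2, Polynomial.map_zero]

/-- Everything about a real singular point. -/
theorem sing_real {Phi : MvPolynomial (Ix n l) ℂ} {M : ℕ} (h : PhiOK Phi M) (q : RTup n l)
    (hq : eval (cfs (tC q)) Phi ≠ 0) (t : ℝ) (v : Fin (n + 1) → ℝ)
    (hv : xC v ∈ SingF (f0 (tC (addT q t)))) :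
    (atP (sysS n l).rr (cfs q)).eval (lin (uR q t v)) = 0 ∧
    (matL q fun m => uR q t v (some m)).det ≠ 0 ∧
    ∀ i, v i = solS q (fun m => uR q t v (some m)) i / (matL q fun m => uR q t v (some m)).det := by
  rw [Lab.tC_addT] at hv
  have hN := nz_sing h (tC q) hq (t : ℂ) hv
  rw [← cfs_tC, ← uR_eq] at hN
  have hlam : (fun m => (eval (xC v) (qpol (addT (tC q) (t : ℂ) m)))⁻¹) =
      fun m => ((uR q t v (some m) : ℝ) : ℂ) := by
    funext m
    exact (congrFun (uR_eq q t v) (some m)).symm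
  have hdet : (matL q fun m => uR q t v (some m)).det ≠ 0 := by
    have h1 := (h.niceA (tC q) hq).2 (t : ℂ) (xC v) hv
    have hA : ∀ m, (addT (tC q) (t : ℂ) m).1 = (tC q m).1 := by
      intro m
      rw [addT]
      split_ifs with hm
      · rw [hm]
      · rfl
    have h2 : QCG.lamM (addT (tC q) (t : ℂ)) (xC v) =
        matL (tC q) fun m => (eval (xC v) (qpol (addT (tC q) (t : ℂ) m)))⁻¹ := by
      ext i j
      simp only [QCG.lamM, matL, hA]
    rw [h2, hlam, matL_tC] at h1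
    exact_mod_cast h1
  refine ⟨hN.root_lin, hdet, fun i => ?_⟩
  have h1 := eS_sol (tC q) (t : ℂ) hv i
  rw [hlam, solS_tC, matL_tC] at h1
  have h2 : solS q (fun m => uR q t v (some m)) i =
      (matL q fun m => uR q t v (some m)).det * v i := by
    have h3 : ((solS q (fun m => uR q t v (some m)) i : ℝ) : ℂ) =
        (((matL q fun m => uR q t v (some m)).det * v i : ℝ) : ℂ) := by
      rw [h1, Complex.ofReal_mul]
      rfl
    exact_mod_cast h3
  rw [h2]
  field_simp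

end Real

section Choice

/-- The genericity polynomial. -/
noncomputable def Phi0 (p : NL) : MvPolynomial (Ix p.1.1 p.1.2) ℂ :=
  (exists_phiOK p.1.1 p.1.2 p.hl).choose

/-- The number of roots. -/
noncomputable def M0 (p : NL) : ℕ := (exists_phiOK p.1.1 p.1.2 p.hl).choose_spec.choose

lemma Phi0_ne (p : NL) : Phi0 p ≠ 0 := (exists_phiOK p.1.1 p.1.2 p.hl).choose_spec.choose_spec.1

lemma Phi0_ok (p : NL) : PhiOK (Phi0 p) (M0 p) :=
  (exists_phiOK p.1.1 p.1.2 p.hl).choose_spec.choose_spec.2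

/-- The elimination data. -/
noncomputable def E0 : ElimData where
  Phi := Phi0
  ne := Phi0_ne
  good := fun p => (Phi0_ok p).good
  RS := fun p => mkRS (Phi0_ok p)
  r := fun p => rZ p.1.1 p.1.2
  r_easy := easy_rZ'
  r_deg := bd_rZ'
  lead := fun p q hq => (Phi0_ok p).lead q hq
  rt := fun _ _ _ => rfl

variable (p : NL)

/-- The candidate list. -/
noncomputable def H0 : Finset ((Option (Fin (p.1.2 + 1)) → ℤ) × ℕ) :=
  (candidates (sysS p.1.1 p.1.2).rr (sysS p.1.1 p.1.2).natDegree_rr).choose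

lemma H0_card : (H0 p).card ≤ (sysS p.1.1 p.1.2).size *
    (Fintype.card (Ix p.1.1 p.1.2) + Fintype.card (Option (Fin (p.1.2 + 1))) + 1) :=
  (candidates (sysS p.1.1 p.1.2).rr (sysS p.1.1 p.1.2).natDegree_rr).choose_spec.1

lemma H0_one {I : (Option (Fin (p.1.2 + 1)) → ℤ) × ℕ} (hI : I ∈ H0 p) : 1 ≤ I.2 :=
  ((candidates (sysS p.1.1 p.1.2).rr (sysS p.1.1 p.1.2).natDegree_rr).choose_spec.2.1 I hI).1

lemma H0_spec (y : Ix p.1.1 p.1.2 → ℝ) (u : Option (Fin (p.1.2 + 1)) → ℝ)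
    (h1 : atP (sysS p.1.1 p.1.2).rr y ≠ 0)
    (h2 : (atP (sysS p.1.1 p.1.2).rr y).eval (lin u) = 0) :
    ∃ I ∈ H0 p, (Polynomial.derivative^[I.2 - 1] (atP (sysS p.1.1 p.1.2).rr y)).eval
        (lin u) = 0 ∧
      (spec (atMu (sysS p.1.1 p.1.2).rr I.1) y).eval (∑ i, (I.1 i : ℝ) * u i) = 0 ∧
      (Polynomial.derivative^[I.2] (spec (atMu (sysS p.1.1 p.1.2).rr I.1) y)).eval
            (∑ i, (I.1 i : ℝ) * u i) ≠ 0 :=
  (candidates (sysS p.1.1 p.1.2).rr
    (sysS p.1.1 p.1.2).natDegree_rr).choose_spec.2.2 y u h1 h2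

/-- The multiplier of the interpolation formula. -/
noncomputable def L0 : ℤ := (interp (sysS p.1.1 p.1.2).size).choose

/-- The weights of the interpolation formula. -/
noncomputable def c0 : ℕ → ℤ := (interp (sysS p.1.1 p.1.2).size).choose_spec.choose

lemma L0_ne : L0 p ≠ 0 := (interp (sysS p.1.1 p.1.2).size).choose_spec.choose_spec.1

lemma L0_spec (b : Polynomial ℝ) (hb : b.natDegree ≤ (sysS p.1.1 p.1.2).size) :
    (L0 p : ℝ) * (Polynomial.derivative b).eval 0 =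
        ∑ h ∈ Finset.range ((sysS p.1.1 p.1.2).size + 1), (c0 p h : ℝ) * b.eval (h : ℝ) :=
  (interp (sysS p.1.1 p.1.2).size).choose_spec.choose_spec.2 b hb

lemma card_Ix (n l : ℕ) : Fintype.card (Ix n l) = (l + 1) * ((n + 1) * (n + 1) + (n + 1 + 1)) := by
  simp [Ix]

lemma bd_H0 : Bd LL (fun p => Fintype.card {I // I ∈ H0 p}) := by
  have h1 : Bd LL (fun p => Fintype.card (Ix p.1.1 p.1.2)) := by
    have hn := bd_n
    have hl := bd_l
    refine ((hl.add (Bd.const 1)).mul (((hn.add (Bd.const 1)).mul (hn.add (Bd.const 1))).add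
      ((hn.add (Bd.const 1)).add (Bd.const 1)))).mono fun p => ?_
    rw [card_Ix]
  refine (bd_sizeS.mul ((h1.add bd_opt).add (Bd.const 1))).mono fun p => ?_
  rw [Fintype.card_coe]
  exact H0_card p

end Choice

end Elim

/-- The output of part 10.1. -/
theorem exists_singData : ∃ E : ElimData, Nonempty (SingData E) := by
  refine ⟨E0, ⟨{
    J := fun p => {I // I ∈ H0 p}
    card := bd_H0
    P := fun p j => atMu (sysS p.1.1 p.1.2).rr j.1.1
    G := fun p j => denG (sysS p.1.1 p.1.2).rr (L0 p) j.1.1 j.1.2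
    Nu := fun p j o => numN (sysS p.1.1 p.1.2).rr (sysS p.1.1 p.1.2).size (c0 p) j.1.1 j.1.2 o
    P_deg := bd_atMu (fun x : Σ p : NL, {I // I ∈ H0 p} => x.1) (fun x => x.2.1.1)
    G_deg := (easy_denG (fun x : Σ p : NL, {I // I ∈ H0 p} => x.1) (fun x => x.2.1.1)
      (fun x => x.2.1.2) (fun x => L0 x.1)).2
    Nu_deg := (easy_numN (fun x : Σ p : NL, {I // I ∈ H0 p} × Option (Fin (p.1.2 + 1)) => x.1)
      (fun x => x.2.1.1.1) (fun x => x.2.1.1.2) (fun x => c0 x.1) (fun x => x.2.2)).2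
    P_easy := easy_atMu (fun x : Σ p : NL, {I // I ∈ H0 p} => x.1) (fun x => x.2.1.1)
    G_easy := (easy_denG (fun x : Σ p : NL, {I // I ∈ H0 p} => x.1) (fun x => x.2.1.1)
      (fun x => x.2.1.2) (fun x => L0 x.1)).1
    Nu_easy := (easy_numN (fun x : Σ p : NL, {I // I ∈ H0 p} × Option (Fin (p.1.2 + 1)) => x.1)
      (fun x => x.2.1.1.1) (fun x => x.2.1.1.2) (fun x => c0 x.1) (fun x => x.2.2)).1
    cand := ?_ }⟩⟩
  intro p q hq t v hv
  have hok : PhiOK (Phi0 p) (M0 p) := Phi0_ok p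
  obtain ⟨h1, h2, h3⟩ := sing_real hok q hq t v hv
  obtain ⟨I, hI, h4, h5, h6⟩ := H0_spec p (cfs q) (uR q t v) (atP_ne_zero hok q hq) h1
  set T : ℝ := ∑ i, (I.1 i : ℝ) * uR q t v i with hT
  have hG : (spec (denG (sysS p.1.1 p.1.2).rr (L0 p) I.1 I.2) (cfs q)).eval T ≠ 0 := by
    have e1 : (spec (denG (sysS p.1.1 p.1.2).rr (L0 p) I.1 I.2) (cfs q)).eval T =
        (L0 p : ℝ) * (Polynomial.derivative^[I.2] (spec (atMu (sysS p.1.1 p.1.2).rr I.1)
          (cfs q))).eval T := by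
      rw [denG, spec, Polynomial.map_mul, Polynomial.eval_mul,
        ← Polynomial.iterate_derivative_map]
      simp [spec]
    rw [e1]
    exact mul_ne_zero (by exact_mod_cast L0_ne p) h6
  have hu : ∀ o, (spec (numN (sysS p.1.1 p.1.2).rr (sysS p.1.1 p.1.2).size (c0 p) I.1 I.2 o)
      (cfs q)).eval T / (spec (denG (sysS p.1.1 p.1.2).rr (L0 p) I.1 I.2) (cfs q)).eval T =
      uR q t v o := by
    intro o
    have e1 := coord (L0_spec p) (sysS p.1.1 p.1.2).rr (sysS p.1.1 p.1.2).totalDegree_rr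
      (cfs q) (uR q t v) I.2 (H0_one p hI) h4 I.1 o
    rw [e1, mul_div_assoc, div_self hG, mul_one]
  refine ⟨⟨I, hI⟩, T, h5, ?_, hG, ?_, ?_, ?_⟩
  · intro h0
    have h7 : spec (atMu (sysS p.1.1 p.1.2).rr I.1) (cfs q) = 0 := h0
    rw [h7, Polynomial.iterate_derivative_zero, Polynomial.eval_zero] at h6
    exact h6 rfl
  · exact (hu none).symm
  · simp only [hu]
    exact h2
  · intro i
    simp only [hu]
    exact h3 i

end Pool.Agent.QC
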