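import Pool.Agent.QC.Elim.Lim
import Pool.Agent.QC.Det
import Pool.Agent.QC.Kcoef
import Pool.Agent.QC.Poly

/-!
# The resolvent polynomials `rz`, `rr` of a square system and their cost
-/

namespace Pool.Agent.QC.Elim

open MvPolynomial Filter Topology

section Swap

variable {R : Type*} [CommRing R]

theorem coeff_swap (p : Polynomial (Polynomial R)) (i j : ℕ) :
    ((Polynomial.Bivariate.swap p).coeff i).coeff j = (p.coeff j).coeff i := by
  induction p using Polynomial.induction_on' with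
  | add p q hp hq => simp [hp, hq]
  | monomial n f =>
    induction f using Polynomial.induction_on' with
    | add f g hf hg => simp only [map_add, Polynomial.coeff_add, hf, hg]
    | monomial m r =>
      rw [Polynomial.Bivariate.swap_monomial_monomial]
      simp only [Polynomial.coeff_monomial]
      split_ifs with h1 h2 h2 <;> simp_all [Polynomial.coeff_monomial]

variable {ι : Type*} [Fintype ι] [DecidableEq ι]

/-- The matrix `A + s B` over polynomials in `s`. -/
noncomputable def sMat (A B : Matrix ι ι R) : Matrix ι ι (Polynomial R) :=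
  A.map Polynomial.C + (Polynomial.X : Polynomial R) • B.map Polynomial.C

theorem swap_pchi (A B : Matrix ι ι R) :
    Polynomial.Bivariate.swap (pchi A B) = (sMat A B).charpoly := by
  have h1 : Polynomial.Bivariate.swap (pchi A B) =
      ((Polynomial.Bivariate.swap (R := R)).toRingEquiv : _ →+* _) (pchi A B) := rfl
  rw [h1, pchi, RingHom.map_det, Matrix.charpoly]
  congr 1
  ext1 i j
  rcases eq_or_ne i j with rfl | hij
  · simp [sMat, Matrix.scalar_apply, Matrix.charmatrix_apply, sub_sub,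
      Polynomial.Bivariate.swap_C_C, Polynomial.Bivariate.swap_X, Polynomial.Bivariate.swap_Y]
  · simp [sMat, Matrix.scalar_apply, Matrix.charmatrix_apply, sub_sub, hij,
      Polynomial.Bivariate.swap_C_C, Polynomial.Bivariate.swap_X, Polynomial.Bivariate.swap_Y]

theorem pchi_coeff (A B : Matrix ι ι R) (i j : ℕ) :
    ((pchi A B).coeff j).coeff i = ((sMat A B).charpoly.coeff i).coeff j := by
  rw [← swap_pchi, coeff_swap]

theorem natDegree_pchi_coeff [Nontrivial R] (A B : Matrix ι ι R) (j : ℕ) :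
    ((pchi A B).coeff j).natDegree ≤ Fintype.card ι := by
  rw [Polynomial.natDegree_le_iff_coeff_eq_zero]
  intro N hN
  have h1 : (sMat A B).charpoly.coeff N = 0 := by
    refine Polynomial.coeff_eq_zero_of_natDegree_lt ?_
    rwa [Matrix.charpoly_natDegree_eq_dim]
  rw [pchi_coeff, h1, Polynomial.coeff_zero]

theorem pchi_ne_zero [Nontrivial R] (A B : Matrix ι ι R) : pchi A B ≠ 0 := by
  intro h
  have h1 := swap_pchi A B
  rw [h, map_zero] at h1
  exact (Matrix.charpoly_monic _).ne_zero h1.symm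

end Swap

section Sq

variable {σ κ : Type*} [Fintype κ] [DecidableEq κ]

/-- A square system with coefficients in `ℤ[p]`. -/
structure Sq (σ κ : Type*) where
  /-- exponents of the deformation -/
  N : κ → ℕ
  /-- the equations -/
  e : κ → MvPolynomial κ (MvPolynomial σ ℤ)
  he : ∀ j, (e j).totalDegree < N j

/-- Evaluation at a complex point. -/
noncomputable def evC (p : σ → ℂ) : MvPolynomial σ ℤ →+* ℂ :=
  (aeval p : MvPolynomial σ ℤ →ₐ[ℤ] ℂ).toRingHom

/-- `u` is a nondegenerate zero of the system at `p`. -/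
def Sq.NZ (S : Sq σ κ) (p : σ → ℂ) (u : κ → ℂ) : Prop :=
  (∀ j, eval u (map (evC p) (S.e j)) = 0) ∧
    (Matrix.of fun j k => eval u (pderiv k (map (evC p) (S.e j)))).det ≠ 0

/-- Size of the matrices. -/
noncomputable def Sq.size (S : Sq σ κ) : ℕ := Fintype.card (Mon κ (Dt S.N))

/-- The resolvent polynomial of the unknown `z`. -/
noncomputable def Sq.rz (S : Sq σ κ) (z : κ) : Polynomial (MvPolynomial σ ℤ) :=
  (pchi (matA (MvPolynomial σ ℤ) S.N z) (matB S.N S.e z)).leadingCoeff

/-- The pencil `sum mu_k A_k` with indeterminates `mu`. -/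
noncomputable def Sq.penA (S : Sq σ κ) {T : Type*} [CommRing T] (m : κ → T) :
    Matrix (Mon κ (Dt S.N)) (Mon κ (Dt S.N)) T :=
  ∑ k, m k • matA T S.N k

/-- The pencil `sum mu_k B_k`. -/
noncomputable def Sq.penB (S : Sq σ κ) {T : Type*} [CommRing T] (φ : MvPolynomial σ ℤ →+* T)
    (m : κ → T) : Matrix (Mon κ (Dt S.N)) (Mon κ (Dt S.N)) T :=
  ∑ k, m k • (matB S.N S.e k).map φ

/-- The universal resolvent in `s` and `Z`. -/
noncomputable def Sq.uni (S : Sq σ κ) :
    Polynomial (Polynomial (MvPolynomial κ (MvPolynomial σ ℤ))) :=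
  pchi (S.penA X) (S.penB C X)

/-- The resolvent polynomial with indeterminates `mu`. -/
noncomputable def Sq.rr (S : Sq σ κ) : Polynomial (MvPolynomial κ (MvPolynomial σ ℤ)) :=
  S.uni.leadingCoeff

theorem matA_map {T T' : Type*} [CommRing T] [CommRing T'] (N : κ → ℕ) (k : κ) (ψ : T →+* T') :
    (matA T N k).map ψ = matA T' N k := by
  ext b c
  rw [Matrix.map_apply, matA, matA]
  split_ifs <;> simp

theorem Sq.penA_map (S : Sq σ κ) {T T' : Type*} [CommRing T] [CommRing T'] (m : κ → T)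
    (ψ : T →+* T') : (S.penA m).map ψ = S.penA (fun k => ψ (m k)) := by
  have h : ∀ k, (matA T S.N k).map ψ = matA T' S.N k := fun k => matA_map _ _ _
  ext b c
  simp only [Sq.penA, Matrix.map_apply, Matrix.sum_apply, Matrix.smul_apply, smul_eq_mul, map_sum,
    map_mul]
  refine Finset.sum_congr rfl fun k _ => ?_
  rw [← h k, Matrix.map_apply]

theorem Sq.penB_map (S : Sq σ κ) {T T' : Type*} [CommRing T] [CommRing T']
    (φ : MvPolynomial σ ℤ →+* T) (m : κ → T)
    (ψ : T →+* T') : (S.penB φ m).map ψ = S.penB (ψ.comp φ) (fun k => ψ (m k)) := by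
  ext b c
  simp [Sq.penB, Matrix.sum_apply]

theorem Sq.rz_ne_zero (S : Sq σ κ) (z : κ) : S.rz z ≠ 0 :=
  Polynomial.leadingCoeff_ne_zero.2 (pchi_ne_zero _ _)

theorem Sq.rr_ne_zero (S : Sq σ κ) : S.rr ≠ 0 :=
  Polynomial.leadingCoeff_ne_zero.2 (pchi_ne_zero _ _)

theorem Sq.natDegree_rz (S : Sq σ κ) (z : κ) : (S.rz z).natDegree ≤ S.size :=
  natDegree_pchi_coeff _ _ _

theorem Sq.natDegree_rr (S : Sq σ κ) : S.rr.natDegree ≤ S.size :=
  natDegree_pchi_coeff _ _ _

/-- The eigenvector property of the pencil. -/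
theorem Sq.det_eq_zero (S : Sq σ κ) {T : Type*} [CommRing T] [IsDomain T]
    (φ : MvPolynomial σ ℤ →+* T) (m u : κ → T) (s : T)
    (hu : ∀ j, u j ^ S.N j = -(s * eval₂ φ u (S.e j))) :
    (Matrix.scalar (Mon κ (Dt S.N)) (∑ k, m k * u k) - S.penA m - s • S.penB φ m).det = 0 := by
  rw [← Matrix.exists_mulVec_eq_zero_iff]
  refine ⟨vecE u, ?_, ?_⟩
  · intro h
    have h1 := congrFun h (Mon.mk' 0 (by simp))
    simp [vecE] at h1
  · have key : ∀ k, (matA T S.N k).mulVec (vecE u) + s • ((matB S.N S.e k).map φ).mulVec (vecE u) =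
        u k • vecE u := by
      intro k
      have := mulVec_vecE φ S.N S.e S.he u s hu k
      rwa [matA_map, Matrix.add_mulVec, Matrix.smul_mulVec] at this
    have h2 : (S.penA m + s • S.penB φ m).mulVec (vecE u) = (∑ k, m k * u k) • vecE u := by
      rw [Matrix.add_mulVec, Matrix.smul_mulVec, Sq.penA, Sq.penB, Matrix.sum_mulVec,
        Matrix.sum_mulVec, Finset.smul_sum, ← Finset.sum_add_distrib, Finset.sum_smul]
      refine Finset.sum_congr rfl fun k _ => ?_
      rw [Matrix.smul_mulVec, Matrix.smul_mulVec, smul_comm s, ← smul_add, key k, smul_smul]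
    rw [sub_sub, Matrix.sub_mulVec, h2, sub_eq_zero]
    funext b
    rw [Matrix.scalar_apply, Matrix.mulVec_diagonal, Pi.smul_apply, smul_eq_mul]

/-- A nondegenerate zero gives a root: general form. -/
theorem Sq.NZ.root (S : Sq σ κ) {p : σ → ℂ} {u : κ → ℂ} (h : S.NZ p u) {T : Type*} [CommRing T]
    (φ : MvPolynomial σ ℤ →+* T) (ψ : T →+* ℂ) (hψ : ψ.comp φ = evC p) (m : κ → T) {J : ℕ}
    (hJ : (pchi (S.penA m) (S.penB φ m)).natDegree ≤ J) :
    (((pchi (S.penA m) (S.penB φ m)).coeff J).map ψ).eval (∑ k, ψ (m k) * u k) = 0 := by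
  obtain ⟨l, hl, hl0, hl1⟩ := exists_filter (fun j => map (evC p) (S.e j)) S.N u h.1 h.2
  have ht : Tendsto (fun x : ℂ × (κ → ℂ) => x) l (𝓝 (0, u)) := hl0
  refine lim_root _ _ ψ hJ (ε := fun x : ℂ × (κ → ℂ) => x.1)
    (z := fun x : ℂ × (κ → ℂ) => ∑ k, ψ (m k) * x.2 k)
    ((continuous_fst.tendsto' (0, u) 0 rfl).comp ht) (hl1.mono fun x hx => hx.1) ?_ ?_
  · have hc : Continuous fun x : ℂ × (κ → ℂ) => ∑ k, ψ (m k) * x.2 k := by fun_prop
    exact (hc.tendsto' (0, u) (∑ k, ψ (m k) * u k) rfl).comp ht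
  · filter_upwards [hl1] with x hx
    have h1 := S.det_eq_zero (ψ.comp φ) (fun k => ψ (m k)) x.2 x.1⁻¹ (fun j => by
      rw [hx.2 j, hψ, eval_map])
    rw [S.penA_map, S.penB_map]
    exact h1

/-- `u_z` is a root of `rz`. -/
theorem Sq.NZ.root_rz (S : Sq σ κ) {p : σ → ℂ} {u : κ → ℂ} (h : S.NZ p u) (z : κ) :
    ((S.rz z).map (evC p)).eval (u z) = 0 := by
  have hA : S.penA (Pi.single z 1 : κ → MvPolynomial σ ℤ) = matA (MvPolynomial σ ℤ) S.N z := by
    rw [Sq.penA, Finset.sum_eq_single z]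
    · simp
    · intro k _ hk
      simp [Pi.single_eq_of_ne hk]
    · intro h
      exact absurd (Finset.mem_univ z) h
  have hB : S.penB (RingHom.id _) (Pi.single z 1 : κ → MvPolynomial σ ℤ) = matB S.N S.e z := by
    rw [Sq.penB, Finset.sum_eq_single z]
    · ext b c
      simp
    · intro k _ hk
      simp [Pi.single_eq_of_ne hk]
    · intro h
      exact absurd (Finset.mem_univ z) h
  have h1 := h.root S (RingHom.id (MvPolynomial σ ℤ)) (evC p) (RingHom.comp_id _)
    (Pi.single z 1) (J := (pchi (matA (MvPolynomial σ ℤ) S.N z) (matB S.N S.e z)).natDegree)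
    (by rw [hA, hB])
  rw [hA, hB] at h1
  have h2 : ∑ k, (evC p) ((Pi.single z 1 : κ → MvPolynomial σ ℤ) k) * u k = u z := by
    rw [Finset.sum_eq_single z]
    · simp
    · intro k _ hk
      simp [Pi.single_eq_of_ne hk]
    · intro h
      exact absurd (Finset.mem_univ z) h
  rw [h2] at h1
  exact h1

/-- `mu . u` is a root of `rr` for all complex `mu`. -/
theorem Sq.NZ.root_rr (S : Sq σ κ) {p : σ → ℂ} {u : κ → ℂ} (h : S.NZ p u) (m : κ → ℂ) :
    (S.rr.map (eval₂Hom (evC p) m)).eval (∑ k, m k * u k) = 0 := by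
  have h1 := h.root S (C : MvPolynomial σ ℤ →+* MvPolynomial κ (MvPolynomial σ ℤ))
    (eval₂Hom (evC p) m) (by ext <;> simp) X (J := S.uni.natDegree) le_rfl
  have h2 : (pchi (S.penA X) (S.penB C X)).coeff S.uni.natDegree = S.rr := rfl
  rw [h2] at h1
  simpa using h1

/-- Real version, for the list of candidates. -/
theorem Sq.NZ.root_lin (S : Sq σ κ) {p : σ → ℝ} {u : κ → ℝ}
    (h : S.NZ (fun i => (p i : ℂ)) (fun k => (u k : ℂ))) : (atP S.rr p).eval (lin u) = 0 := by
  refine MvPolynomial.funext fun x => ?_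
  rw [map_zero, ← Polynomial.eval₂_at_apply, ← Polynomial.eval_map, eval_lin]
  have h1 := h.root_rr S (fun k => (x k : ℂ))
  have h2 : (Complex.ofRealHom : ℝ →+* ℂ) (((atP S.rr p).map (eval x)).eval
      (∑ k, x k * u k)) = 0 := by
    rw [← Polynomial.eval₂_at_apply, ← Polynomial.eval_map, atP, Polynomial.map_map,
      Polynomial.map_map, RingHom.comp_assoc]
    have h3 : (Complex.ofRealHom : ℝ →+* ℂ).comp ((eval x).comp (map (evHom p))) =
        eval₂Hom (evC fun i => (p i : ℂ)) (fun k => (x k : ℂ)) := by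
      refine ringHom_ext (fun a => ?_) (fun i => ?_)
      · simp only [RingHom.comp_apply, map_C, eval_C, coe_eval₂Hom, eval₂_C]
        have h4 : (Complex.ofRealHom : ℝ →+* ℂ).comp (evHom p) = evC fun i => (p i : ℂ) := by
          refine ringHom_ext (fun a => ?_) (fun i => ?_)
          · simp [evC]
          · simp [evC]
        exact congrArg (fun f : MvPolynomial σ ℤ →+* ℂ => f a) h4
      · simp
    rw [h3]
    simpa using h1
  simpa using h2

end Sq

end Pool.Agent.QC.Elim
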