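import Pool.Agent.QC.Elim.Cand

/-!
# Square systems: multiplication matrices of the deformed system

`e_j(u) = 0`, `deg e_j < N_j` (`j` in the index type `κ` of the unknowns `u`).  At a zero `u` of the
deformed system `u_j ^ N_j = - s e_j(u)` the vector of all monomials of degree at most
`sum (N_j - 1)` is an eigenvector of `A_k + s B_k` for the eigenvalue `u_k`.
-/

namespace Pool.Agent.QC.Elim

open MvPolynomial

variable {κ : Type*} [Fintype κ] [DecidableEq κ]

/-- Exponent vectors of the monomials of degree at most `D`. -/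
abbrev Mon (κ : Type*) [Fintype κ] (D : ℕ) : Type _ :=
  {b : κ → Fin (D + 1) // ∑ k, ((b k : Fin (D + 1)) : ℕ) ≤ D}

/-- The exponent vector. -/
def Mon.ex {D : ℕ} (b : Mon κ D) : κ → ℕ := fun k => ((b.1 k : Fin (D + 1)) : ℕ)

omit [DecidableEq κ] in
lemma Mon.sum_le {D : ℕ} (b : Mon κ D) : ∑ k, b.ex k ≤ D := b.2

/-- The monomial with a given exponent vector. -/
def Mon.mk' {D : ℕ} (c : κ → ℕ) (h : ∑ k, c k ≤ D) : Mon κ D :=
  ⟨fun k => ⟨c k, by
    have := Finset.single_le_sum (f := c) (fun _ _ => Nat.zero_le _) (Finset.mem_univ k)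
    omega⟩, by simpa using h⟩

omit [DecidableEq κ] in
@[simp] lemma Mon.ex_mk' {D : ℕ} (c : κ → ℕ) (h : ∑ k, c k ≤ D) :
    (Mon.mk' c h : Mon κ D).ex = c := rfl

omit [DecidableEq κ] in
lemma Mon.ext_ex {D : ℕ} {b c : Mon κ D} (h : b.ex = c.ex) : b = c := by
  apply Subtype.ext
  funext k
  exact Fin.ext (congrFun h k)

/-- The vector of monomials. -/
def vecE {S : Type*} [CommRing S] {D : ℕ} (u : κ → S) : Mon κ D → S :=
  fun b => ∏ k, u k ^ b.ex k

/-- The degree of the vector of monomials. -/
def Dt (N : κ → ℕ) : ℕ := ∑ j, (N j - 1)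

/-- An index with `N j ≤ c j`, if there is one. -/
noncomputable def pick (N : κ → ℕ) (c : κ → ℕ) (k : κ) : κ := by
  classical
  exact if h : ∃ j, N j ≤ c j then h.choose else k

omit [DecidableEq κ] in
lemma pick_spec (N : κ → ℕ) (c : κ → ℕ) (k : κ) (h : Dt N < ∑ j, c j) :
    N (pick N c k) ≤ c (pick N c k) := by
  have h1 : ∃ j, N j ≤ c j := by
    by_contra hcon
    push Not at hcon
    have : ∑ j, c j ≤ Dt N := Finset.sum_le_sum fun j _ => by have := hcon j; omega
    omega
  rw [pick, dif_pos h1]
  exact h1.choose_spec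

/-- One more factor `u_k`. -/
def upk (b : κ → ℕ) (k : κ) : κ → ℕ := b + Pi.single k 1

/-- The shift part of the multiplication by `u_k`. -/
def matA (R : Type*) [CommRing R] (N : κ → ℕ) (k : κ) : Matrix (Mon κ (Dt N)) (Mon κ (Dt N)) R :=
  fun b c => if ∑ i, b.ex i < Dt N ∧ c.ex = upk b.ex k then 1 else 0

/-- The reduction part of the multiplication by `u_k`. -/
noncomputable def matB {R : Type*} [CommRing R] (N : κ → ℕ) (e : κ → MvPolynomial κ R) (k : κ) :
    Matrix (Mon κ (Dt N)) (Mon κ (Dt N)) R :=
  fun b c =>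
    let up := upk b.ex k
    let j := pick N up k
    let b' : κ → ℕ := up - Pi.single j (N j)
    if ∑ i, b.ex i < Dt N then 0 else
      -(if (∀ i, b' i ≤ c.ex i) then coeff (Finsupp.equivFunOnFinite.symm (c.ex - b')) (e j) else 0)

lemma sum_up (b : κ → ℕ) (k : κ) : ∑ i, upk b k i = ∑ i, b i + 1 := by
  simp [upk, Finset.sum_add_distrib]

lemma prod_up {S : Type*} [CommRing S] (u : κ → S) (b : κ → ℕ) (k : κ) :
    ∏ i, u i ^ upk b k i = u k * ∏ i, u i ^ b i := by
  simp only [upk, Pi.add_apply, pow_add, Finset.prod_mul_distrib]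
  rw [mul_comm]
  congr 1
  rw [Finset.prod_eq_single k]
  · simp
  · intro i _ hi
    simp [Pi.single_eq_of_ne hi]
  · intro h
    exact absurd (Finset.mem_univ k) h

/-- The monomials form an eigenvector. -/
theorem mulVec_vecE {R S : Type*} [CommRing R] [CommRing S] (φ : R →+* S) (N : κ → ℕ)
    (e : κ → MvPolynomial κ R) (he : ∀ j, (e j).totalDegree < N j) (u : κ → S) (s : S)
    (hu : ∀ j, u j ^ N j = -(s * eval₂ φ u (e j))) (k : κ) :
    ((matA R N k).map φ + s • (matB N e k).map φ).mulVec (vecE u) = u k • vecE u := by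
  funext b
  rw [Pi.smul_apply, smul_eq_mul]
  have hup : ∏ i, u i ^ upk b.ex k i = u k * vecE u b := prod_up u b.ex k
  by_cases hb : ∑ i, b.ex i < Dt N
  · -- the shift
    have hle : ∑ i, upk b.ex k i ≤ Dt N := by
      rw [sum_up]
      exact hb
    rw [Matrix.mulVec, dotProduct, Finset.sum_eq_single (Mon.mk' (upk b.ex k) hle)]
    · rw [Matrix.add_apply, Matrix.smul_apply, Matrix.map_apply, Matrix.map_apply, matA, matB]
      simp only [hb, Mon.ex_mk', and_self, if_true, map_one, map_zero, smul_zero, add_zero,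
        one_mul]
      exact hup
    · intro c _ hc
      have hc' : c.ex ≠ upk b.ex k := fun h => hc (Mon.ext_ex h)
      rw [Matrix.add_apply, Matrix.smul_apply, Matrix.map_apply, Matrix.map_apply, matA, matB]
      simp [hb, hc']
    · intro h
      exact absurd (Finset.mem_univ _) h
  · -- the reduction
    have hbD : ∑ i, b.ex i = Dt N := le_antisymm b.sum_le (not_lt.1 hb)
    set up := upk b.ex k with hupdef
    set j := pick N up k with hj
    have hsum : ∑ i, up i = Dt N + 1 := by rw [hupdef, sum_up, hbD]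
    have hjN : N j ≤ up j := pick_spec N up k (by omega)
    set b' : κ → ℕ := up - Pi.single j (N j) with hb'
    have hsplit : up = b' + Pi.single j (N j) := by
      funext i
      rcases eq_or_ne i j with rfl | hij
      · simp [hb']
        omega
      · simp [hb', Pi.single_eq_of_ne hij]
    have hsum' : ∑ i, b' i + N j = Dt N + 1 := by
      rw [← hsum, hsplit]
      simp [Finset.sum_add_distrib]
    have hrow : ∀ c : Mon κ (Dt N), ((matA R N k).map φ + s • (matB N e k).map φ) b c =
        -(s * φ (if (∀ i, b' i ≤ c.ex i) then coeff (Finsupp.equivFunOnFinite.symm (c.ex - b')) (e j)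
          else 0)) := by
      intro c
      rw [Matrix.add_apply, Matrix.smul_apply, Matrix.map_apply, Matrix.map_apply, matA, matB]
      simp only [hb, false_and, if_false, map_zero, zero_add, map_neg, smul_eq_mul, mul_neg]
      rfl
    rw [Matrix.mulVec, dotProduct]
    simp only [hrow]
    have hsumE : ∑ c : Mon κ (Dt N), φ (if (∀ i, b' i ≤ c.ex i) then
        coeff (Finsupp.equivFunOnFinite.symm (c.ex - b')) (e j) else 0) * vecE u c =
        (∏ i, u i ^ b' i) * eval₂ φ u (e j) := by
      rw [eval₂_eq', Finset.mul_sum]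
      have hdeg : ∀ δ ∈ (e j).support, ∑ i, (b' + ⇑δ : κ → ℕ) i ≤ Dt N := by
        intro δ hδ
        have h1 := le_totalDegree hδ
        rw [Finsupp.sum_fintype _ _ (fun _ => rfl)] at h1
        have h2 := he j
        simp only [Pi.add_apply, Finset.sum_add_distrib]
        omega
      symm
      refine Finset.sum_of_injOn
        (fun δ => if h : ∑ i, (b' + ⇑δ : κ → ℕ) i ≤ Dt N then Mon.mk' (b' + ⇑δ) h else b) ?_ ?_ ?_ ?_
      · intro δ hδ δ' hδ' h
        simp only [hdeg δ hδ, hdeg δ' hδ', dif_pos] at h
        have h1 := congrArg Mon.ex h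
        rw [Mon.ex_mk', Mon.ex_mk'] at h1
        exact DFunLike.coe_injective (add_left_cancel h1)
      · intro δ _
        exact Finset.mem_coe.2 (Finset.mem_univ _)
      · intro c _ hc
        by_cases h1 : (∀ i, b' i ≤ c.ex i)
        · rw [if_pos h1]
          have h2 : Finsupp.equivFunOnFinite.symm (c.ex - b') ∉ (e j).support := by
            intro h3
            apply hc
            refine ⟨_, h3, ?_⟩
            have h4 : b' + ⇑(Finsupp.equivFunOnFinite.symm (c.ex - b')) = c.ex := by
              funext i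
              have := h1 i
              simp only [Pi.add_apply, Finsupp.equivFunOnFinite_symm_apply_apply, Pi.sub_apply]
              omega
            simp only [hdeg _ h3, dif_pos]
            exact Mon.ext_ex (by rw [Mon.ex_mk', h4])
          rw [notMem_support_iff.1 h2, map_zero, zero_mul]
        · rw [if_neg h1, map_zero, zero_mul]
      · intro δ hδ
        simp only [hdeg δ hδ, dif_pos]
        rw [Mon.ex_mk', if_pos (fun i => by simp)]
        have h4 : Finsupp.equivFunOnFinite.symm (b' + ⇑δ - b') = δ := by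
          ext i
          simp
        rw [h4, vecE, Mon.ex_mk']
        simp only [Pi.add_apply, pow_add, Finset.prod_mul_distrib]
        ring
    have hfin : ∑ c : Mon κ (Dt N), -(s * φ (if (∀ i, b' i ≤ c.ex i) then
        coeff (Finsupp.equivFunOnFinite.symm (c.ex - b')) (e j) else 0)) * vecE u c =
        -(s * ((∏ i, u i ^ b' i) * eval₂ φ u (e j))) := by
      rw [← hsumE, Finset.mul_sum, ← Finset.sum_neg_distrib]
      exact Finset.sum_congr rfl fun c _ => by ring
    rw [hfin, ← hup, hsplit]
    have h5 : ∏ i, u i ^ (b' + Pi.single j (N j) : κ → ℕ) i = (∏ i, u i ^ b' i) * u j ^ N j := by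
      simp only [Pi.add_apply, pow_add, Finset.prod_mul_distrib]
      congr 1
      rw [Finset.prod_eq_single j]
      · simp
      · intro i _ hi
        simp [Pi.single_eq_of_ne hi]
      · intro h
        exact absurd (Finset.mem_univ j) h
    rw [h5, hu j]
    ring

end Pool.Agent.QC.Elim
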